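import Pool.Agent.W518.SMR.Odd

/-!
# Multiplication maps of non very ample line bundles of degree `2 g`
-/

open scoped WithZero
open WithZero

set_option linter.unusedVariables false

namespace Pool.Agent.R858.SMR

open Pool.Agent.Helper395.CS hiding genus
open Pool.Agent.Helper395.BC
open Pool.Agent.W518.SMR

variable {K : Type} [Field K] [Algebra ℂ K]

/-- nonspecial line bundles -/
theorem h0_of_large (hK : IsCurve K) (hg : genus K ≠ 0) (L : LineBundle K)
    (hd : 2 * (genus K : ℤ) - 2 < L.degree) :
    (Module.finrank ℂ (H0 L) : ℤ) = L.degree + 1 - genus K := by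
  obtain ⟨h1, h2⟩ := rrL (hK := hK) (hg := hg) L
  have h3 : H0 (lmul (can hK hg) (linv L)) = ⊥ := by
    apply H0_eq_bot hK
    rw [lmul_degree, linv_degree, can_degree]
    omega
  rw [h3, finrank_bot] at h2
  simpa using h2

theorem mul_mem_H0 {L M : LineBundle K} {s t : K} (hs : s ∈ H0 L) (ht : t ∈ H0 M) :
    s * t ∈ H0 (lmul L M) := by
  intro v
  rw [mem_lmul, map_mul]
  exact mul_le_mul' (hs v) (ht v)

theorem H0_mul_le {L M : LineBundle K} : H0 L * H0 M ≤ H0 (lmul L M) := by
  rw [Submodule.mul_le]
  intro s hs t ht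
  exact mul_mem_H0 hs ht

/-- main computation -/
theorem finrank_sq_le (hK : IsCurve K) (hg : genus K ≠ 0) (p q : Point K) :
    Module.finrank ℂ ↥(H0 (lmul (lmul (can hK hg) (lpt p)) (lpt q)) *
      H0 (lmul (lmul (can hK hg) (lpt p)) (lpt q))) ≤ 3 * genus K := by
  set C := can hK hg with hC
  set L := lmul (lmul C (lpt p)) (lpt q) with hL
  have hCd : C.degree = 2 * genus K - 2 := can_degree hK hg
  have hC0 : Module.finrank ℂ (H0 C) = genus K := can_h0 hK hg
  have hLd : L.degree = 2 * genus K := by
    rw [hL, lmul_degree, lmul_degree, lpt_degree, lpt_degree, hCd]; ring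
  have hL0 : Module.finrank ℂ (H0 L) = genus K + 1 := by
    have := h0_of_large hK hg L (by omega)
    omega
  have hle : H0 C ≤ H0 L := by
    apply H0_mono
    intro v s hs
    exact le_lmul_lpt _ _ _ _ (le_lmul_lpt _ _ _ _ hs)
  have hfinL : FiniteDimensional ℂ (H0 L) := H0_finite hK hg L
  obtain ⟨t, ht, htC⟩ : ∃ t ∈ H0 L, t ∉ H0 C := by
    by_contra hcon
    push Not at hcon
    have h1 : H0 L = H0 C := le_antisymm hcon hle
    rw [h1] at hL0
    omega
  have hsup : H0 L = H0 C ⊔ Submodule.span ℂ {t} := by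
    apply Eq.symm
    apply Submodule.eq_of_le_of_finrank_le
    · exact sup_le hle ((Submodule.span_singleton_le_iff_mem _ _).2 ht)
    · have h1 : H0 C < H0 C ⊔ Submodule.span ℂ {t} := by
        refine lt_of_le_of_ne le_sup_left fun h => htC ?_
        rw [h]
        exact Submodule.mem_sup_right (Submodule.mem_span_singleton_self t)
      have hfin : FiniteDimensional ℂ ↥(H0 C ⊔ Submodule.span ℂ {t}) :=
        Submodule.finiteDimensional_of_le
          (sup_le hle ((Submodule.span_singleton_le_iff_mem _ _).2 ht))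
      have h2 := Submodule.finrank_lt_finrank_of_lt h1
      omega
  set M := lmul C L with hM
  have hMd : M.degree = 4 * genus K - 2 := by
    rw [hM, lmul_degree, hCd, hLd]; ring
  have hM0 : Module.finrank ℂ (H0 M) + 1 = 3 * genus K := by
    have := h0_of_large hK hg M (by omega)
    omega
  have hkey : H0 L * H0 L ≤ H0 M ⊔ Submodule.span ℂ {t * t} := by
    have h1 : H0 L * H0 L = H0 C * H0 L ⊔ Submodule.span ℂ {t} * H0 L := by
      conv_lhs => rw [hsup]
      rw [Submodule.sup_mul, ← hsup]
    rw [h1]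
    apply sup_le
    · exact H0_mul_le.trans le_sup_left
    · rw [Submodule.mul_le]
      intro x hx y hy
      rw [Submodule.mem_span_singleton] at hx
      obtain ⟨c, rfl⟩ := hx
      rw [hsup, Submodule.mem_sup] at hy
      obtain ⟨a, ha, b, hb, rfl⟩ := hy
      rw [Submodule.mem_span_singleton] at hb
      obtain ⟨e, rfl⟩ := hb
      rw [mul_add, Submodule.mem_sup]
      refine ⟨c • t * a, ?_, c • t * (e • t), ?_, rfl⟩
      · rw [mul_comm]
        exact mul_mem_H0 ha ((H0 L).smul_mem c ht)
      · rw [Submodule.mem_span_singleton]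
        refine ⟨c * e, ?_⟩
        rw [smul_mul_smul_comm]
  have hfinM : FiniteDimensional ℂ (H0 M) := H0_finite hK hg M
  have h2 : Module.finrank ℂ ↥(H0 M ⊔ Submodule.span ℂ {t * t}) ≤ 3 * genus K := by
    have h3 := Submodule.finrank_add_le_finrank_add_finrank (H0 M) (Submodule.span ℂ {t * t})
    have h4 : Module.finrank ℂ (Submodule.span ℂ {t * t}) ≤ 1 := (finrank_span_le_card _).trans (by simp)
    omega
  exact (Submodule.finrank_mono hkey).trans h2

end Pool.Agent.R858.SMR
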