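import Pool.Agent.W518.EG.TGen
import Pool.Agent.W518.EG.TRR
import Pool.Agent.TH350.J203a
import Pool.Agent.R858.SMR1

/-!
# The genus of a curve with a plane model of degree `N`
-/

open scoped WithZero Polynomial IntermediateField
open WithZero

set_option linter.unusedVariables false

namespace Pool.Agent.R858.BN

open Pool.Agent.Helper395.CS hiding genus
open Pool.Agent.Helper395.BC
open Pool.Agent.W518.SMR
open Pool.Agent.W518.PC (lpow)
open Pool.Agent.W45.PCG (lpow_degree)

variable {K : Type} [Field K] [Algebra ℂ K]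

theorem degZ_add_const (hK : IsCurve K) {f : K} (hf : Transcendental ℂ f) :
    degP f = Module.finrank ℂ⟮f⟯ K := by
  rw [← degZ_eq_degP hK, degZ_eq hK hf]

theorem lpow_val (L : LineBundle K) (n : ℕ) (v : Point K) :
    v.val ((lpow L n).frame v : K) = v.val (L.frame v : K) ^ n := by
  change v.val (((L.frame v) ^ (n : ℤ) : Kˣ) : K) = _
  rw [zpow_natCast, Units.val_pow_eq_pow_val, map_pow]

theorem aeval_val_le {f : K} (v : Point K) {m : ℕ} {p : ℂ[X]} (hp : p ∈ Polynomial.degreeLT ℂ (m + 1)) :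
    v.val (Polynomial.aeval f p) ≤ (max 1 (v.val f)) ^ m := by
  rw [Polynomial.mem_degreeLT] at hp
  have hM : 1 ≤ max 1 (v.val f) := le_max_left _ _
  rw [Polynomial.aeval_eq_sum_range]
  refine Valuation.map_sum_le _ fun i hi => ?_
  rw [Algebra.smul_def, map_mul, map_pow]
  have hi' : i ≤ m := by
    rw [Finset.mem_range] at hi
    have h1 : p.natDegree < m + 1 := by
      rcases eq_or_ne p 0 with rfl | h0
      · simp
      · rwa [Polynomial.natDegree_lt_iff_degree_lt h0]
    omega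
  calc v.val (algebraMap ℂ K (p.coeff i)) * v.val f ^ i
      ≤ 1 * (max 1 (v.val f)) ^ i :=
        mul_le_mul' (v.const_le _) (pow_le_pow_left₀ zero_le (le_max_right _ _) _)
    _ ≤ (max 1 (v.val f)) ^ m := by
        rw [one_mul]
        exact pow_le_pow_right₀ hM hi'

/-- the map `(p_j) ↦ ∑ p_j(f) h^j` -/
noncomputable def psi (f h : K) (N n : ℕ) :
    (Π j : Fin N, Polynomial.degreeLT ℂ (n + 1 - j)) →ₗ[ℂ] K :=
  ∑ j : Fin N, (LinearMap.mulRight ℂ (h ^ (j : ℕ))).comp
    ((Polynomial.aeval f).toLinearMap.comp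
      ((Submodule.subtype (Polynomial.degreeLT ℂ (n + 1 - j))).comp (LinearMap.proj j)))

theorem psi_apply (f h : K) (N n : ℕ) (p : Π j : Fin N, Polynomial.degreeLT ℂ (n + 1 - j)) :
    psi f h N n p = ∑ j : Fin N, Polynomial.aeval f (p j : ℂ[X]) * h ^ (j : ℕ) := by
  simp [psi, LinearMap.sum_apply]

theorem psi_injective (hK : IsCurve K) {f h : K} (hf : Transcendental ℂ f)
    (hgen : ℂ⟮f⟯⟮h⟯ = ⊤) (n : ℕ) :
    Function.Injective (psi f h (Module.finrank ℂ⟮f⟯ K) n) := by
  have hfd := hK.finiteDimensional hf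
  have hint : IsIntegral ℂ⟮f⟯ h := IsIntegral.of_finite _ _
  have hdeg : (minpoly ℂ⟮f⟯ h).natDegree = Module.finrank ℂ⟮f⟯ K := by
    rw [← IntermediateField.adjoin.finrank hint, hgen, IntermediateField.finrank_top']
  have hli := linearIndependent_pow (K := ℂ⟮f⟯) h
  rw [hdeg] at hli
  rw [injective_iff_map_eq_zero]
  intro p hp
  rw [psi_apply] at hp
  let c : Fin (Module.finrank ℂ⟮f⟯ K) → ℂ⟮f⟯ := fun j => ⟨Polynomial.aeval f (p j : ℂ[X]), mem_adj _⟩
  have h1 : ∑ j, c j • h ^ (j : ℕ) = 0 := hp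
  have h2 := Fintype.linearIndependent_iff.1 hli c h1
  funext j
  have h3 : Polynomial.aeval f (p j : ℂ[X]) = 0 := congrArg Subtype.val (h2 j)
  apply Subtype.ext
  by_contra hne
  exact aeval_ne_zero hf hne h3

theorem sum_nat (N n : ℕ) (h : N ≤ n + 1) :
    2 * ∑ j : Fin N, (n + 1 - (j : ℕ)) + N * (N - 1) = 2 * N * (n + 1) := by
  rw [Fin.sum_univ_eq_sum_range (fun j => n + 1 - j) N]
  have h1 : ∑ j ∈ Finset.range N, (n + 1 - j) + ∑ j ∈ Finset.range N, j = N * (n + 1) := by
    rw [← Finset.sum_add_distrib]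
    rw [Finset.sum_congr rfl (g := fun _ => n + 1)]
    · simp
    · intro j hj
      rw [Finset.mem_range] at hj
      omega
  have h2 := Finset.sum_range_id_mul_two N
  nlinarith

/-- If `f`, `h` generate the function field and the poles of `h` are at most those of `f`, then the
genus is at most the one of a smooth plane curve of degree `[K : ℂ(f)]`. -/
theorem genus_bound (hK : IsCurve K) (hg : genus K ≠ 0) {f h : K} (hf : Transcendental ℂ f)
    (hgen : ℂ⟮f⟯⟮h⟯ = ⊤) (hh : ∀ v : Point K, v.val h ≤ max 1 (v.val f)) :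
    2 * (genus K : ℤ) ≤ ((Module.finrank ℂ⟮f⟯ K : ℤ) - 1) * ((Module.finrank ℂ⟮f⟯ K : ℤ) - 2) := by
  have hfd := hK.finiteDimensional hf
  set N := Module.finrank ℂ⟮f⟯ K with hN
  have hNpos : 0 < N := Module.finrank_pos
  set fu : Kˣ := Units.mk0 f (ne_zero_of_transcendental hf) with hfu
  set L := lpole hK fu with hL
  have hLd : L.degree = N := by
    rw [hL, Pool.Agent.W518.EG.lpole_degree]
    exact degZ_add_const hK hf
  set n := N + 2 * genus K with hn
  have hPd : (lpow L n).degree = n * N := by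
    rw [lpow_degree, hLd]
  have hnN : (2 * (genus K : ℤ)) ≤ n * N := by
    have h1 : (n : ℤ) * 1 ≤ n * N := mul_le_mul_of_nonneg_left (by exact_mod_cast hNpos) (by positivity)
    have h2 : 2 * (genus K : ℤ) ≤ n := by rw [hn]; push_cast; omega
    linarith
  have hh0 := Pool.Agent.R858.SMR.h0_of_large hK hg (lpow L n) (by rw [hPd]; omega)
  have hrange : LinearMap.range (psi f h N n) ≤ H0 (lpow L n) := by
    rintro _ ⟨p, rfl⟩
    rw [psi_apply]
    apply Submodule.sum_mem
    intro j _ v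
    change v.val _ ≤ v.val ((lpow L n).frame v : K)
    rw [lpow_val, hL, lpole_val, map_mul, map_pow]
    have hj : (j : ℕ) < N := j.2
    have h1 : v.val (Polynomial.aeval f (p j : ℂ[X])) ≤ (max 1 (v.val f)) ^ (n - j) := by
      apply aeval_val_le
      have h2 := (p j).2
      have e : n - (j : ℕ) + 1 = n + 1 - j := by omega
      rwa [e]
    have h2 : v.val h ^ (j : ℕ) ≤ (max 1 (v.val f)) ^ (j : ℕ) := pow_le_pow_left₀ zero_le (hh v) _
    calc v.val (Polynomial.aeval f (p j : ℂ[X])) * v.val h ^ (j : ℕ)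
        ≤ (max 1 (v.val f)) ^ (n - j) * (max 1 (v.val f)) ^ (j : ℕ) := mul_le_mul' h1 h2
      _ = (max 1 (v.val f)) ^ n := by rw [← pow_add]; congr 1; omega
  have hfin : FiniteDimensional ℂ (H0 (lpow L n)) := H0_finite hK hg _
  have h1 := Submodule.finrank_mono hrange
  rw [LinearMap.finrank_range_of_inj (psi_injective hK hf hgen n), Module.finrank_pi_fintype] at h1
  have h2 : ∀ j : Fin N, Module.finrank ℂ (Polynomial.degreeLT ℂ (n + 1 - (j : ℕ))) = n + 1 - (j : ℕ) := by
    intro j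
    rw [(Polynomial.degreeLTEquiv ℂ _).finrank_eq]
    simp
  rw [Finset.sum_congr rfl fun j _ => h2 j] at h1
  have h3 := sum_nat N n (by omega)
  have h4 : (2 * N * (n + 1) : ℤ) ≤ 2 * (n * N + 1 - genus K) + N * (N - 1) := by
    have h5 : ((N * (N - 1) : ℕ) : ℤ) = N * ((N : ℤ) - 1) := by
      rw [Nat.cast_mul, Nat.cast_sub hNpos]
      simp
    have h6 : ((2 * ∑ j : Fin N, (n + 1 - (j : ℕ)) : ℕ) : ℤ) + ((N * (N - 1) : ℕ) : ℤ) =
        2 * N * (n + 1) := by exact_mod_cast h3
    have h7 : ((∑ j : Fin N, (n + 1 - (j : ℕ)) : ℕ) : ℤ) ≤ Module.finrank ℂ (H0 (lpow L n)) := by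
      exact_mod_cast h1
    rw [hh0, hPd] at h7
    rw [h5] at h6
    push_cast at h6 h7 ⊢
    linarith
  nlinarith

end Pool.Agent.R858.BN
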