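import Pool.Agent.R858.BN9

/-!
# Linear series on curves whose genus is above Castelnuovo's bound
-/

open scoped WithZero Polynomial IntermediateField
open WithZero

set_option linter.unusedVariables false
set_option linter.unusedSectionVars false

namespace Pool.Agent.R858.BN

open Pool.Agent.Helper395.CS hiding genus
open Pool.Agent.Helper395.BC
open Pool.Agent.W525.BA
open Pool.Agent.W518.SMR (lpole lpole_val)
open Pool.Agent.W518.PC (lpow)
open Pool.Agent.W45.PCG (lpow_degree)
open Pool.Agent.TH350.J203 (mem_H0_lsub H0_lsub_le val_lsub)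

variable {K : Type} [Field K] [Algebra ℂ K]

theorem not_simple_aux (hK : IsCurve K) (hg : genus K ≠ 0) {L : LineBundle K} {r : ℕ} (hr : 1 ≤ r)
    (hL : r + 1 ≤ h0 L) (hb : BPF L) (hns : ¬ Simple L) (i : ℕ) :
    ∃ M : LineBundle K, M.degree = L.degree - 2 * i ∧ r + 1 ≤ h0 M + i := by
  classical
  obtain ⟨a0, f, ha00, hf, hA0, hA1, hframe⟩ := pencil_fun hK hg (L := L) (by
    change 2 ≤ h0 L
    omega) hb
  obtain ⟨E0, hE0, hE0t⟩ : ∃ E : IntermediateField ℂ K,
      (∀ s ∈ H0 L, ∀ t ∈ H0 L, s / t ∈ E) ∧ E ≠ ⊤ := by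
    unfold Simple at hns
    push Not at hns
    exact hns
  let W : Submodule ℂ K := (H0 L).comap (LinearMap.mulLeft ℂ a0)
  have hWmem : ∀ h, h ∈ W ↔ a0 * h ∈ H0 L := fun h => Iff.rfl
  have hfinL : FiniteDimensional ℂ (H0 L) := H0_finite hK hg L
  have hfinW : FiniteDimensional ℂ W := by
    have hinj : Function.Injective (LinearMap.mulLeft ℂ a0) := by
      intro x y hxy
      exact mul_left_cancel₀ ha00 hxy
    let φ : W →ₗ[ℂ] H0 L := (LinearMap.mulLeft ℂ a0).restrict (fun x hx => hx)
    apply FiniteDimensional.of_injective φ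
    intro x y hxy
    have h1 := congrArg (fun z : H0 L => (z : K)) hxy
    exact Subtype.ext (hinj h1)
  have hWE0 : ∀ h ∈ W, h ∈ E0 := by
    intro h hh
    have := hE0 _ hh _ hA0
    have h1 : (LinearMap.mulLeft ℂ a0) h = a0 * h := rfl
    rwa [h1, mul_div_cancel_left₀ _ ha00] at this
  have hfE : f ∈ E0 := hWE0 f ((hWmem f).2 hA1)
  have hle : ℂ⟮f⟯ ≤ E0 := by
    rw [IntermediateField.adjoin_simple_le_iff]
    exact hfE
  obtain ⟨S, hS⟩ := exists_pairs hK hf (IntermediateField.extendScalars hle) (by
    intro h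
    apply hE0t
    rw [eq_top_iff]
    intro x _
    have h2 : x ∈ IntermediateField.extendScalars hle := by rw [h]; trivial
    rwa [IntermediateField.mem_extendScalars] at h2) W hfinW (by
    intro h hh
    rw [IntermediateField.mem_extendScalars]
    exact hWE0 h hh)
  -- choose `i` values
  have hinf : (↑S : Set ℂ)ᶜ.Infinite := S.finite_toSet.infinite_compl
  obtain ⟨C, hCS, hCcard⟩ := hinf.exists_subset_card_eq i
  choose p q hpq hpf hqf hW' using fun c : C => hS c (fun h => hCS c.2 h)
  let l1 : List (Point K) := C.attach.toList.map p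
  let l2 : List (Point K) := C.attach.toList.map q
  have hlen1 : l1.length = i := by simp [l1, hCcard]
  have hlen2 : l2.length = i := by simp [l2, hCcard]
  have hpinj : Function.Injective p := by
    intro c c' h
    have h1 := hpf c
    rw [h] at h1
    exact Subtype.ext (h1.unique (hpf c'))
  have hqinj : Function.Injective q := by
    intro c c' h
    have h1 := hqf c
    rw [h] at h1
    exact Subtype.ext (h1.unique (hqf c'))
  have hnd1 : l1.Nodup := (Finset.nodup_toList _).map hpinj
  have hnd2 : l2.Nodup := (Finset.nodup_toList _).map hqinj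
  have hnd : (l1 ++ l2).Nodup := by
    rw [List.nodup_append]
    refine ⟨hnd1, hnd2, ?_⟩
    intro a ha b hb hab
    rw [List.mem_map] at ha hb
    obtain ⟨c, _, rfl⟩ := ha
    obtain ⟨c', _, rfl⟩ := hb
    have h1 := hpf c
    rw [hab] at h1
    have h2 : c = c' := Subtype.ext (h1.unique (hqf c'))
    subst h2
    exact hpq c hab
  refine ⟨lsubl L (l1 ++ l2), ?_, ?_⟩
  · rw [lsubl_degree, List.length_append, hlen1, hlen2]
    push_cast
    ring
  · have h1 := lsubl_finrank hK hg L l1
    have h2 : H0 (lsubl L l1) ≤ H0 (lsubl L (l1 ++ l2)) := by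
      intro s hs
      rw [mem_H0_lsubl L l1 hnd1] at hs
      rw [mem_H0_lsubl L (l1 ++ l2) hnd]
      refine ⟨hs.1, fun v hv => ?_⟩
      rw [List.mem_append] at hv
      rcases hv with hv | hv
      · exact hs.2 v hv
      · have hv' := hv
        rw [List.mem_map] at hv'
        obtain ⟨c, hc, rfl⟩ := hv'
        have h3 := hs.2 (p c) (List.mem_map.2 ⟨c, hc, rfl⟩)
        have hsW : s / a0 ∈ W := by
          rw [hWmem, mul_div_cancel₀ _ ha00]
          exact hs.1
        obtain ⟨α, hα1, hα2⟩ := hW' c _ hsW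
        have key : ∀ w : Point K, w.val f ≤ 1 → (w.val s < w.val (L.frame w : K) ↔
            w.val (s / a0) < 1) := by
          intro w hw
          rw [hframe, max_eq_left hw, mul_one, map_div₀, div_lt_one₀]
          exact zero_lt_iff.2 (w.val_ne_zero ha00)
        rw [key _ (hpf c).le, hα1.lt_iff] at h3
        rw [key _ (hqf c).le, hα2.lt_iff]
        exact h3
    have hfin : FiniteDimensional ℂ (H0 (lsubl L (l1 ++ l2))) := H0_finite hK hg _
    have h3 := Submodule.finrank_mono h2
    change h0 L ≤ h0 (lsubl L l1) + l1.length at h1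
    change h0 (lsubl L l1) ≤ h0 (lsubl L (l1 ++ l2)) at h3
    omega


/-- Let `r ≥ 2` and let the genus be larger than Castelnuovo's number `π(d, r)`. A line bundle of
degree `d` with `r + 1` sections gives line bundles of degree `d - 2 i` with `r + 1 - i` sections. -/
theorem composed' (hK : IsCurve K) (hg : genus K ≠ 0) {L : LineBundle K} {r d : ℕ} (hr : 2 ≤ r)
    (hL : r + 1 ≤ h0 L) (hdL : L.degree = d) (hd : castel d r < genus K) (i : ℕ) :
    ∃ M : LineBundle K, M.degree = L.degree - 2 * i ∧ r + 1 ≤ h0 M + i := by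
  classical
  have hex : ∃ n : ℕ, ∃ M : LineBundle K, M.degree = n ∧ r + 1 ≤ h0 M := ⟨d, L, hdL, hL⟩
  obtain ⟨M, hM1, hM2⟩ := Nat.find_spec hex
  have hmin : ∀ N : LineBundle K, N.degree < M.degree → h0 N < r + 1 := by
    intro N hN
    by_contra hcon
    rw [not_lt] at hcon
    have hpos := degree_pos hK hg (L := N) (by change 2 ≤ h0 N; omega)
    have h1 : N.degree.toNat < Nat.find hex := by omega
    exact Nat.find_min hex h1 ⟨N, by omega, hcon⟩
  have hML : Nat.find hex ≤ d := Nat.find_min' hex ⟨L, hdL, hL⟩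
  have hbM : BPF M := by
    intro v
    have := hmin (lsub M v) (by rw [lsub_degree]; omega)
    change h0 (lsub M v) < h0 M
    omega
  have hMr : h0 M = r + 1 := by
    obtain ⟨v⟩ := point_nonempty hK
    have h1 := hmin (lsub M v) (by rw [lsub_degree]; omega)
    have h2 := h0_lsub' hK hg M v
    omega
  have hns : ¬ Simple M := by
    intro hs
    have h1 := castelnuovo hK hg hMr hr hM1 hbM hs
    have h2 := castel_mono (r := r) hML
    omega
  obtain ⟨N, hN1, hN2⟩ := not_simple_aux hK hg (L := M) (r := r) (by omega) (le_of_eq hMr.symm) hbM hns i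
  obtain ⟨P, hP1, hP2⟩ := exists_add hK hg N (L.degree - M.degree).toNat
  change h0 N ≤ h0 P at hP2
  refine ⟨P, ?_, by omega⟩
  rw [hP1, hN1]
  omega

end Pool.Agent.R858.BN
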