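import Pool.Agent.R858.BN5
import Pool.Agent.R858.BN10

/-!
# Numerical facts about Castelnuovo's number
-/

open scoped WithZero Polynomial IntermediateField
open WithZero

set_option linter.unusedVariables false
set_option linter.unusedSectionVars false

namespace Pool.Agent.R858.BN

theorem castel_ge {d r : ℕ} (hr : 3 ≤ r) (hd : 2 * r ≤ d) : 2 * d + 1 ≤ castel d r + 3 * r := by
  have h : ∑ k ∈ Finset.range 2, (d - 1 - (k + 1) * (r - 1)) ≤ castel d r := by
    unfold castel
    exact Finset.sum_le_sum_of_subset (Finset.range_mono (by omega))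
  rw [Finset.sum_range_succ, Finset.sum_range_succ, Finset.sum_range_zero] at h
  have h1 : (1 + 1) * (r - 1) = 2 * (r - 1) := by ring
  rw [h1] at h
  omega

theorem castel_small {d r : ℕ} (hr : 2 ≤ r) (hd : 2 * r ≤ d) (hd' : d ≤ 3 * r - 2) :
    castel d r < d := by
  have h : castel d r = ∑ k ∈ Finset.range 2, (d - 1 - (k + 1) * (r - 1)) := by
    unfold castel
    symm
    apply Finset.sum_subset (Finset.range_mono (by omega))
    intro k _ hk
    rw [Finset.mem_range, not_lt] at hk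
    have h1 : 3 * (r - 1) ≤ (k + 1) * (r - 1) := Nat.mul_le_mul_right _ (by omega)
    omega
  rw [Finset.sum_range_succ, Finset.sum_range_succ, Finset.sum_range_zero] at h
  have h1 : (1 + 1) * (r - 1) = 2 * (r - 1) := by ring
  rw [h1] at h
  omega

/-- The Brill–Noether numbers are negative below Castelnuovo's bound. -/
theorem rho_neg {g r d : ℕ} (hr : 3 ≤ r) (hd : 2 * r ≤ d) (hdg : d < g) (hc : castel d r < g) :
    (g : ℤ) - (r + 1) * (g - d + r) < 0 := by
  have h1 := castel_ge hr hd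
  have h2 : (2 * d : ℤ) + 2 ≤ g + 3 * r := by omega
  have h3 : (3 : ℤ) ≤ r := by exact_mod_cast hr
  have h4 : (2 * r : ℤ) + 1 ≤ g := by omega
  have h5 : (2 * (g - d + r) : ℤ) ≥ g - r + 2 := by linarith
  nlinarith [mul_le_mul_of_nonneg_left h5 (show (0 : ℤ) ≤ r + 1 by linarith),
    mul_le_mul_of_nonneg_right h4 (show (0 : ℤ) ≤ r - 1 by linarith)]

theorem rho_neg' {g r d s : ℕ} (hr : 3 ≤ r) (hd : 2 * r ≤ d) (hdg : d < g) (hc : castel d r < g)
    (hs : 2 ≤ s) (hsr : 2 * s ≤ r + 1) :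
    (g : ℤ) - (s + 1) * (g - (d - 2 * r + 2 * s) + s) < 0 := by
  have h1 := castel_ge hr hd
  have h2 : (2 * d : ℤ) + 2 ≤ g + 3 * r := by omega
  have h3 : (2 : ℤ) ≤ s := by exact_mod_cast hs
  have h4 : (2 * s : ℤ) ≤ r + 1 := by exact_mod_cast hsr
  have h5 : (2 * (g - (d - 2 * r + 2 * s) + s) : ℤ) ≥ g + 1 := by linarith
  have h6 : (0 : ℤ) ≤ g := by positivity
  nlinarith [mul_le_mul_of_nonneg_left h5 (show (0 : ℤ) ≤ s + 1 by linarith)]

end Pool.Agent.R858.BN
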