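import Pool.Agent.R858.BN1

/-!
# Points which are not separated by a proper subfield
-/

open scoped WithZero Polynomial IntermediateField
open WithZero

set_option linter.unusedVariables false

namespace Pool.Agent.R858.BN

open Pool.Agent.Helper395.CS hiding genus
open Pool.Agent.Helper395.BC
open Pool.Agent.W518.SMR
open Pool.Agent.W518.PC (lpow)

variable {K : Type} [Field K] [Algebra ℂ K]

/-! ### spaces of functions generating a proper subfield -/

/-- if no element of `W` is a primitive element, then `W` is contained in a proper subfield -/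
theorem exists_proper (hK : IsCurve K) {f : K} (hf : Transcendental ℂ f) (W : Submodule ℂ K)
    (hW : ∀ h ∈ W, ℂ⟮f⟯⟮h⟯ ≠ ⊤) : ∃ E : IntermediateField ℂ⟮f⟯ K, E ≠ ⊤ ∧ ∀ h ∈ W, h ∈ E := by
  have hfd := hK.finiteDimensional hf
  have hcz : CharZero ℂ⟮f⟯ := inferInstance
  have hfin : Finite (IntermediateField ℂ⟮f⟯ K) :=
    Field.finite_intermediateField_of_exists_primitive_element _ _
      (Field.exists_primitive_element ℂ⟮f⟯ K)
  let p : {E : IntermediateField ℂ⟮f⟯ K // E ≠ ⊤} → Submodule ℂ W := fun E =>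
    { carrier := {w | (w : K) ∈ E.1}
      add_mem' := fun {a b} ha hb => by
        change ((a + b : W) : K) ∈ E.1
        rw [Submodule.coe_add]
        exact E.1.add_mem ha hb
      zero_mem' := by
        change ((0 : W) : K) ∈ E.1
        rw [Submodule.coe_zero]
        exact E.1.zero_mem
      smul_mem' := fun c x hx => by
        change ((c • x : W) : K) ∈ E.1
        rw [Submodule.coe_smul, Algebra.smul_def]
        refine E.1.mul_mem ?_ hx
        have := E.1.algebraMap_mem (algebraMap ℂ ℂ⟮f⟯ c)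
        rwa [← IsScalarTower.algebraMap_apply] at this }
  have huniv : (⋃ E, (p E : Set W)) = Set.univ := by
    rw [Set.eq_univ_iff_forall]
    intro w
    rw [Set.mem_iUnion]
    exact ⟨⟨ℂ⟮f⟯⟮(w : K)⟯, hW w w.2⟩, IntermediateField.mem_adjoin_simple_self _ _⟩
  obtain ⟨E, hE⟩ := Subspace.exists_eq_top_of_iUnion_eq_univ huniv
  refine ⟨E.1, E.2, fun h hh => ?_⟩
  have : (⟨h, hh⟩ : W) ∈ p E := by rw [hE]; trivial
  exact this

/-! ### residues -/

/-- `z` is regular at `v` with value `α` -/
def Rs (v : Point K) (z : K) (α : ℂ) : Prop := v.val (z - algebraMap ℂ K α) < 1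

theorem Rs.le {v : Point K} {z : K} {α : ℂ} (h : Rs v z α) : v.val z ≤ 1 := by
  have h1 : z = (z - algebraMap ℂ K α) + algebraMap ℂ K α := by ring
  rw [h1]
  exact Valuation.map_add_le _ (le_of_lt h) (v.const_le α)

theorem Rs.add {v : Point K} {z w : K} {α β : ℂ} (h : Rs v z α) (h' : Rs v w β) :
    Rs v (z + w) (α + β) := by
  unfold Rs at *
  rw [map_add, add_sub_add_comm]
  exact Valuation.map_add_lt _ h h'

theorem Rs.mul {v : Point K} {z w : K} {α β : ℂ} (h : Rs v z α) (h' : Rs v w β) :
    Rs v (z * w) (α * β) := by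
  have h1 := h'.le
  unfold Rs at *
  have e : z * w - algebraMap ℂ K (α * β) = (z - algebraMap ℂ K α) * w +
      algebraMap ℂ K α * (w - algebraMap ℂ K β) := by
    rw [map_mul]; ring
  rw [e]
  refine Valuation.map_add_lt _ ?_ ?_
  · rw [map_mul]
    exact (mul_le_of_le_one_right' h1).trans_lt h
  · rw [map_mul]
    exact (mul_le_of_le_one_left' (v.const_le α)).trans_lt h'

theorem Rs.const (v : Point K) (c : ℂ) : Rs v (algebraMap ℂ K c) c := by
  unfold Rs
  simp

theorem Rs.zero (v : Point K) : Rs v (0 : K) 0 := by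
  unfold Rs
  simp

theorem Rs.pow {v : Point K} {z : K} {α : ℂ} (h : Rs v z α) (n : ℕ) : Rs v (z ^ n) (α ^ n) := by
  induction n with
  | zero => simpa using Rs.const v 1
  | succ n ih => rw [pow_succ, pow_succ]; exact ih.mul h

theorem Rs.sum {ι : Type*} {v : Point K} (s : Finset ι) {z : ι → K} {α : ι → ℂ}
    (h : ∀ i ∈ s, Rs v (z i) (α i)) : Rs v (∑ i ∈ s, z i) (∑ i ∈ s, α i) := by
  classical
  induction s using Finset.induction with
  | empty => simpa using Rs.zero v
  | insert a s ha ih =>
    rw [Finset.sum_insert ha, Finset.sum_insert ha]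
    exact (h a (Finset.mem_insert_self a s)).add
      (ih fun i hi => h i (Finset.mem_insert_of_mem hi))

theorem Rs.unique {v : Point K} {z : K} {α β : ℂ} (h : Rs v z α) (h' : Rs v z β) : α = β :=
  res_unique v h h'

theorem Rs.lt_iff {v : Point K} {z : K} {α : ℂ} (h : Rs v z α) : v.val z < 1 ↔ α = 0 := by
  constructor
  · intro h1
    have : Rs v z 0 := by unfold Rs; simpa using h1
    exact h.unique this
  · rintro rfl
    unfold Rs at h
    simpa using h

theorem Rs.exists (hK : IsCurve K) {v : Point K} {z : K} (h : v.val z ≤ 1) : ∃ α, Rs v z α :=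
  exists_res hK v h

/-- the value of a function of `f` at a point depends only on the value of `f` -/
theorem Rs.of_adj (hK : IsCurve K) {f : K} (hf : Transcendental ℂ f) {a : K} (ha : a ∈ ℂ⟮f⟯) {c : ℂ}
    {v : Point K} (hv : Rs v f c) (hreg : v.val a ≤ 1) :
    ∃ α : ℂ, ∀ w : Point K, Rs w f c → Rs w a α := by
  obtain ⟨p, q, hq0, hpq, rfl⟩ := (mem_adj_iff hf).1 ha
  have hv' : v.val (f - algebraMap ℂ K c) < 1 := hv
  have hqc : q.eval c ≠ 0 := by
    intro hq
    have h1 : v.val (Polynomial.aeval f q) < 1 := (aeval_lt_iff hv' q).2 hq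
    have h2 : p.eval c ≠ 0 := by
      intro hp
      obtain ⟨x, y, hxy⟩ := hpq
      have := congrArg (Polynomial.eval c) hxy
      simp [hp, hq] at this
    have h3 := aeval_eq_one hv' p h2
    rw [map_div₀, h3, one_div] at hreg
    have h4 : 0 < v.val (Polynomial.aeval f q) := zero_lt_iff.2 (v.val_ne_zero (aeval_ne_zero hf hq0))
    rw [inv_le_one₀ h4] at hreg
    exact absurd h1 (not_lt.2 hreg)
  refine ⟨p.eval c / q.eval c, fun w hw => ?_⟩
  have hw' : w.val (f - algebraMap ℂ K c) < 1 := hw
  have h1 := aeval_eq_one hw' q hqc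
  unfold Rs
  have hqK : Polynomial.aeval f q ≠ 0 := aeval_ne_zero hf hq0
  have e : Polynomial.aeval f p / Polynomial.aeval f q - algebraMap ℂ K (p.eval c / q.eval c) =
      Polynomial.aeval f (p - Polynomial.C (p.eval c / q.eval c) * q) / Polynomial.aeval f q := by
    rw [map_sub, map_mul, Polynomial.aeval_C]
    field_simp
  rw [e, map_div₀, h1, div_one, aeval_lt_iff hw']
  simp only [Polynomial.eval_sub, Polynomial.eval_mul, Polynomial.eval_C]
  field_simp
  ring

end Pool.Agent.R858.BN
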