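import Pool.Agent.R858.BN2

/-!
# Points which are not separated by a proper subfield, 2
-/

open scoped WithZero Polynomial IntermediateField
open WithZero

set_option linter.unusedVariables false

namespace Pool.Agent.R858.BN

open Pool.Agent.Helper395.CS hiding genus
open Pool.Agent.Helper395.BC
open Pool.Agent.W518.SMR
open Pool.Agent.W518.PC (lpow)

variable {K : Type} [Field K] [Algebra ℂ K]

theorem finite_bad (hK : IsCurve K) (f a : K) :
    {c : ℂ | ∃ v : Point K, Rs v f c ∧ ¬ v.val a ≤ 1}.Finite := by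
  classical
  let g : Point K → ℂ := fun v => if h : ∃ c, Rs v f c then h.choose else 0
  refine ((finite_not_reg hK a).image g).subset ?_
  rintro c ⟨v, hv, hva⟩
  refine ⟨v, hva, ?_⟩
  have h : ∃ c, Rs v f c := ⟨c, hv⟩
  change (if h : ∃ c, Rs v f c then h.choose else 0) = c
  rw [dif_pos h]
  exact h.choose_spec.unique hv

theorem finite_bad_set (hK : IsCurve K) (f : K) (A : Finset K) :
    {c : ℂ | ∃ v : Point K, Rs v f c ∧ ∃ a ∈ A, ¬ v.val a ≤ 1}.Finite := by
  classical
  refine (A.finite_toSet.biUnion fun a _ => finite_bad hK f a).subset ?_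
  rintro c ⟨v, hv, a, ha, hva⟩
  simp only [Set.mem_iUnion]
  exact ⟨a, ha, v, hv, hva⟩

theorem adjoin_sub_const (f : K) (c : ℂ) : ℂ⟮f - algebraMap ℂ K c⟯ = ℂ⟮f⟯ := by
  apply le_antisymm
  · rw [IntermediateField.adjoin_simple_le_iff]
    exact sub_mem (IntermediateField.mem_adjoin_simple_self _ _) (IntermediateField.algebraMap_mem _ _)
  · rw [IntermediateField.adjoin_simple_le_iff]
    have h : f = (f - algebraMap ℂ K c) + algebraMap ℂ K c := by ring
    have h1 : (f - algebraMap ℂ K c) + algebraMap ℂ K c ∈ ℂ⟮f - algebraMap ℂ K c⟯ :=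
      add_mem (IntermediateField.mem_adjoin_simple_self _ _) (IntermediateField.algebraMap_mem _ _)
    rwa [← h] at h1

theorem transc_sub_const {f : K} (hf : Transcendental ℂ f) (c : ℂ) :
    Transcendental ℂ (f - algebraMap ℂ K c) := by
  intro h
  apply hf
  have h1 : f = (f - algebraMap ℂ K c) + algebraMap ℂ K c := by ring
  rw [h1]
  exact h.add (isAlgebraic_algebraMap c)

/-- for all but finitely many `c` there are `[K : ℂ(f)]` points over `f = c` -/
theorem fibre_card (hK : IsCurve K) {f : K} (hf : Transcendental ℂ f) :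
    ∃ S : Finset ℂ, ∀ c, c ∉ S → ∃ T : Finset (Point K), (∀ v, v ∈ T ↔ Rs v f c) ∧
      T.card = Module.finrank ℂ⟮f⟯ K := by
  obtain ⟨S, hS⟩ := Pool.Agent.TH350.J203.unram hK hf
  refine ⟨S, fun c hc => ?_⟩
  obtain ⟨T, hT, hsum⟩ := zero_count_aux hK (transc_sub_const hf c)
  refine ⟨T, hT, ?_⟩
  rw [adjoin_sub_const] at hsum
  have h1 : ∀ v ∈ T, v.ord (f - algebraMap ℂ K c) = 1 := by
    intro v hv
    have h2 := hS c hc v ((hT v).1 hv)
    unfold Point.ord
    rw [h2]
    simp
  rw [Finset.sum_congr rfl h1] at hsum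
  simp only [Finset.sum_const, mul_one, nsmul_eq_mul] at hsum
  exact_mod_cast hsum

/-- polynomial expressions have the same values at points with the same value of `z` -/
theorem Rs.aeval_poly {v : Point K} {F : IntermediateField ℂ K} {z : K} {ζ : ℂ} (hz : Rs v z ζ)
    (q : F[X]) (β : ℕ → ℂ) (hq : ∀ j, Rs v (q.coeff j : K) (β j)) :
    Rs v (Polynomial.aeval z q) (∑ j ∈ Finset.range (q.natDegree + 1), β j * ζ ^ j) := by
  rw [Polynomial.aeval_eq_sum_range]
  apply Rs.sum
  intro j _
  rw [Algebra.smul_def]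
  exact (hq j).mul (hz.pow j)

theorem finrank_lt_of_ne_top {F : Type*} [Field F] [Algebra F K] [FiniteDimensional F K]
    (E : IntermediateField F K) (hE : E ≠ ⊤) : Module.finrank F E < Module.finrank F K := by
  have h1 := Module.finrank_mul_finrank F E K
  have h2 : 0 < Module.finrank F E := Module.finrank_pos
  have h3 : Module.finrank E K ≠ 1 := by
    intro h
    apply hE
    exact IntermediateField.finrank_eq_one_iff_eq_top.1 h
  have h4 : 0 < Module.finrank E K := Module.finrank_pos
  have h5 : 2 ≤ Module.finrank E K := by omega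
  rw [← h1]
  nlinarith

theorem exists_pairs (hK : IsCurve K) {f : K} (hf : Transcendental ℂ f)
    (E : IntermediateField ℂ⟮f⟯ K) (hE : E ≠ ⊤) (W : Submodule ℂ K) (hfinW : FiniteDimensional ℂ W)
    (hW : ∀ h ∈ W, h ∈ E) : ∃ S : Finset ℂ, ∀ c, c ∉ S → ∃ v w : Point K, v ≠ w ∧ Rs v f c ∧
      Rs w f c ∧ ∀ h ∈ W, ∃ α, Rs v h α ∧ Rs w h α := by
  classical
  have hfd := hK.finiteDimensional hf
  have hcz : CharZero ℂ⟮f⟯ := inferInstance
  obtain ⟨z, hz⟩ := Field.exists_primitive_element ℂ⟮f⟯ E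
  -- minimal polynomial
  set m := minpoly ℂ⟮f⟯ (z : K) with hm
  have hint : IsIntegral ℂ⟮f⟯ (z : K) := IsIntegral.of_finite _ _
  have hintE : IsIntegral ℂ⟮f⟯ z := IsIntegral.of_finite _ _
  have hmE : minpoly ℂ⟮f⟯ z = m := by
    rw [hm]
    exact (minpoly.algebraMap_eq (algebraMap E K).injective z).symm
  have hdeg : m.natDegree = Module.finrank ℂ⟮f⟯ E := by
    rw [← hmE, ← IntermediateField.adjoin.finrank hintE, hz, IntermediateField.finrank_top']
  have hlt : m.natDegree < Module.finrank ℂ⟮f⟯ K := by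
    rw [hdeg]
    exact finrank_lt_of_ne_top E hE
  -- polynomials
  have hpoly : ∀ h ∈ W, ∃ q : ℂ⟮f⟯[X], h = Polynomial.aeval (z : K) q := by
    intro h hh
    have h1 : (⟨h, hW h hh⟩ : E) ∈ (⊤ : IntermediateField ℂ⟮f⟯ E) := trivial
    rw [← hz, ← IntermediateField.mem_toSubalgebra,
      IntermediateField.adjoin_simple_toSubalgebra_of_isAlgebraic hintE.isAlgebraic,
      Algebra.adjoin_singleton_eq_range_aeval] at h1
    obtain ⟨q, hq⟩ := h1
    refine ⟨q, ?_⟩
    have h2 := congrArg (algebraMap E K) hq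
    have h3 : algebraMap E K (Polynomial.aeval z q) = Polynomial.aeval (z : K) q := by
      rw [← Polynomial.aeval_algebraMap_apply]
      rfl
    rw [← h3]
    exact h2.symm
  let b := Module.finBasis ℂ W
  choose q hq using fun i => hpoly (b i) (b i).2
  let A : Finset K := insert (z : K) (((Finset.range (m.natDegree + 1)).image fun j => (m.coeff j : K)) ∪
    Finset.univ.biUnion fun i => (Finset.range ((q i).natDegree + 1)).image fun j => ((q i).coeff j : K))
  obtain ⟨S1, hS1⟩ := fibre_card hK hf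
  have hS2 := finite_bad_set hK f A
  refine ⟨S1 ∪ hS2.toFinset, fun c hc => ?_⟩
  rw [Finset.mem_union, not_or, Set.Finite.mem_toFinset] at hc
  obtain ⟨hc1, hc2⟩ := hc
  obtain ⟨T, hT, hTc⟩ := hS1 c hc1
  have hregA : ∀ v, Rs v f c → ∀ a ∈ A, v.val a ≤ 1 := by
    intro v hv a ha
    by_contra hcon
    exact hc2 ⟨v, hv, a, ha, hcon⟩
  -- a point over `c`
  have hTne : T.Nonempty := by
    rw [← Finset.card_pos, hTc]
    exact Module.finrank_pos
  obtain ⟨v0, hv0⟩ := hTne
  have hv0' := (hT v0).1 hv0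
  -- values of the coefficients
  have hval : ∀ (p : ℂ⟮f⟯[X]), (∀ j ∈ Finset.range (p.natDegree + 1), (p.coeff j : K) ∈ A) →
      ∃ β : ℕ → ℂ, ∀ j, ∀ w : Point K, Rs w f c → Rs w (p.coeff j : K) (β j) := by
    intro p hp
    have h1 : ∀ j, ∃ β : ℂ, ∀ w : Point K, Rs w f c → Rs w (p.coeff j : K) β := by
      intro j
      by_cases hj : j ∈ Finset.range (p.natDegree + 1)
      · exact Rs.of_adj hK hf (p.coeff j).2 hv0' (hregA v0 hv0' _ (hp j hj))
      · refine ⟨0, fun w _ => ?_⟩
        rw [Finset.mem_range, not_lt] at hj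
        rw [Polynomial.coeff_eq_zero_of_natDegree_lt (by omega)]
        exact Rs.zero w
    choose β hβ using h1
    exact ⟨β, hβ⟩
  obtain ⟨μ, hμ⟩ := hval m (fun j hj => by
    refine Finset.mem_insert_of_mem (Finset.mem_union_left _ ?_)
    exact Finset.mem_image_of_mem _ hj)
  have hqv := fun i => hval (q i) (fun j hj => by
    refine Finset.mem_insert_of_mem (Finset.mem_union_right _ ?_)
    rw [Finset.mem_biUnion]
    exact ⟨i, Finset.mem_univ _, Finset.mem_image_of_mem _ hj⟩)
  choose β hβ using hqv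
  -- values of `z`
  have hzreg : ∀ v, Rs v f c → ∃ ζ, Rs v (z : K) ζ := fun v hv =>
    Rs.exists hK (hregA v hv _ (Finset.mem_insert_self _ _))
  let ζ : Point K → ℂ := fun v => if h : ∃ ζ, Rs v (z : K) ζ then h.choose else 0
  have hζ : ∀ v, Rs v f c → Rs v (z : K) (ζ v) := by
    intro v hv
    have h := hzreg v hv
    change Rs v (z : K) (if h : ∃ ζ, Rs v (z : K) ζ then h.choose else 0)
    rw [dif_pos h]
    exact h.choose_spec
  -- the residue polynomial
  let P : ℂ[X] := ∑ j ∈ Finset.range (m.natDegree + 1), Polynomial.C (μ j) * Polynomial.X ^ j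
  have hPne : P ≠ 0 := by
    intro h0
    have h1 : P.coeff m.natDegree = μ m.natDegree := by
      simp [P, Polynomial.coeff_X_pow]
    have h2 : μ m.natDegree = 1 := by
      have h3 := hμ m.natDegree v0 hv0'
      have h4 : (m.coeff m.natDegree : K) = algebraMap ℂ K 1 := by
        have : m.coeff m.natDegree = 1 := (minpoly.monic hint).leadingCoeff
        rw [this]
        simp
      rw [h4] at h3
      exact h3.unique (Rs.const v0 1)
    rw [h0, Polynomial.coeff_zero, h2] at h1
    exact zero_ne_one h1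
  have hPdeg : P.natDegree ≤ m.natDegree := by
    apply Polynomial.natDegree_sum_le_of_forall_le
    intro j hj
    rw [Finset.mem_range] at hj
    exact (Polynomial.natDegree_C_mul_X_pow_le _ _).trans (by omega)
  have hPz : ∀ v, Rs v f c → P.eval (ζ v) = 0 := by
    intro v hv
    have h1 := Rs.aeval_poly (hζ v hv) m μ (fun j => hμ j v hv)
    rw [hm, minpoly.aeval] at h1
    have h2 := h1.unique (Rs.zero v)
    rw [← hm] at h2
    simp only [P, Polynomial.eval_finsetSum, Polynomial.eval_mul, Polynomial.eval_C,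
      Polynomial.eval_pow, Polynomial.eval_X]
    exact h2
  have hcard : P.roots.toFinset.card < T.card := by
    calc P.roots.toFinset.card ≤ P.roots.card := Multiset.toFinset_card_le _
      _ ≤ P.natDegree := Polynomial.card_roots' P
      _ ≤ m.natDegree := hPdeg
      _ < T.card := by rw [hTc]; exact hlt
  obtain ⟨v, hv, w, hw, hvw, heq⟩ := Finset.exists_ne_map_eq_of_card_lt_of_maps_to hcard
    (f := ζ) (fun v hv => by
      rw [Finset.mem_coe, Multiset.mem_toFinset, Polynomial.mem_roots hPne]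
      exact hPz v ((hT v).1 hv))
  have hv' := (hT v).1 hv
  have hw' := (hT w).1 hw
  refine ⟨v, w, hvw, hv', hw', fun h hh => ?_⟩
  -- values of elements of `W`
  have hb : ∀ i, ∃ α, Rs v (b i : K) α ∧ Rs w (b i : K) α := by
    intro i
    refine ⟨∑ j ∈ Finset.range ((q i).natDegree + 1), β i j * ζ v ^ j, ?_, ?_⟩
    · rw [hq i]
      exact Rs.aeval_poly (hζ v hv') (q i) (β i) (fun j => hβ i j v hv')
    · rw [hq i, heq]
      exact Rs.aeval_poly (hζ w hw') (q i) (β i) (fun j => hβ i j w hw')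
  choose α hα using hb
  obtain ⟨e, hrep⟩ : ∃ e : Fin (Module.finrank ℂ W) → ℂ, h = ∑ i, e i • (b i : K) := by
    refine ⟨fun i => b.repr ⟨h, hh⟩ i, ?_⟩
    have h1 := congrArg (fun x : W => (x : K)) (b.sum_repr ⟨h, hh⟩)
    simp only [Submodule.coe_sum, Submodule.coe_smul] at h1
    exact h1.symm
  refine ⟨∑ i, e i * α i, ?_, ?_⟩
  · rw [hrep]
    apply Rs.sum
    intro i _
    rw [Algebra.smul_def]
    exact (Rs.const v _).mul (hα i).1
  · rw [hrep]
    apply Rs.sum
    intro i _
    rw [Algebra.smul_def]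
    exact (Rs.const w _).mul (hα i).2

end Pool.Agent.R858.BN
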