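import Pool.Agent.R858.BN3
import Pool.Agent.TH186.ProdBound
import Pool.Agent.W525.Cliff

/-!
# Linear series of small degree are composed

On a curve of genus `g` a line bundle of degree `d` with `r + 1` sections and
`(d - 1) (d - 2) < 2 g` yields, for each `i`, a line bundle of degree `d - 2 i` with `r + 1 - i`
sections.
-/

open scoped WithZero Matrix IntermediateField
open WithZero

set_option linter.unusedVariables false

namespace Pool.Agent.R858.BN

open Pool.Agent.Helper395.CS hiding genus
open Pool.Agent.Helper395.BC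
open Pool.Agent.W525.BA
open Pool.Agent.W518.SMR (lpole lpole_val)
open Pool.Agent.TH350.J203 (mem_H0_lsub H0_lsub_le)

variable {K : Type} [Field K] [Algebra ℂ K]

/-- subtract a list of points -/
noncomputable def lsubl (L : LineBundle K) (l : List (Point K)) : LineBundle K :=
  l.foldr (fun v M => lsub M v) L

theorem lsubl_cons (L : LineBundle K) (v : Point K) (l : List (Point K)) :
    lsubl L (v :: l) = lsub (lsubl L l) v := rfl

theorem lsubl_degree (L : LineBundle K) (l : List (Point K)) :
    (lsubl L l).degree = L.degree - l.length := by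
  induction l with
  | nil => simp [lsubl]
  | cons v l ih =>
    rw [lsubl_cons, lsub_degree, ih, List.length_cons]
    push_cast
    ring

theorem lsubl_finrank (hK : IsCurve K) (hg : genus K ≠ 0) (L : LineBundle K) (l : List (Point K)) :
    Module.finrank ℂ (H0 L) ≤ Module.finrank ℂ (H0 (lsubl L l)) + l.length := by
  induction l with
  | nil => exact le_of_eq rfl
  | cons v l ih =>
    rw [lsubl_cons, List.length_cons]
    have := h0_lsub hK hg (lsubl L l) v
    omega

theorem lsub_frame_ne (L : LineBundle K) {v w : Point K} (h : w ≠ v) :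
    w.val ((lsub L v).frame w : K) = w.val (L.frame w : K) := by
  rw [lsub]
  change w.val (((L.frame w) * ((lpt v).frame w)⁻¹ : Kˣ) : K) = _
  rw [lpt_frame_ne h, inv_one, mul_one]

theorem lsubl_frame (L : LineBundle K) (l : List (Point K)) {v : Point K} (h : v ∉ l) :
    v.val ((lsubl L l).frame v : K) = v.val (L.frame v : K) := by
  induction l with
  | nil => rfl
  | cons w l ih =>
    rw [List.mem_cons, not_or] at h
    rw [lsubl_cons, lsub_frame_ne _ h.1, ih h.2]

theorem mem_H0_lsubl (L : LineBundle K) (l : List (Point K)) (hl : l.Nodup) (s : K) :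
    s ∈ H0 (lsubl L l) ↔ s ∈ H0 L ∧ ∀ v ∈ l, v.val s < v.val (L.frame v : K) := by
  induction l with
  | nil => simp [lsubl]
  | cons v l ih =>
    rw [List.nodup_cons] at hl
    rw [lsubl_cons, mem_H0_lsub, ih hl.2, lsubl_frame L l hl.1]
    simp only [List.mem_cons, forall_eq_or_imp]
    tauto

/-- adding points -/
theorem exists_add (hK : IsCurve K) (hg : genus K ≠ 0) (L : LineBundle K) (n : ℕ) :
    ∃ M : LineBundle K, M.degree = L.degree + n ∧
      Module.finrank ℂ (H0 L) ≤ Module.finrank ℂ (H0 M) := by
  induction n with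
  | zero => exact ⟨L, by simp, le_rfl⟩
  | succ n ih =>
    obtain ⟨M, hM1, hM2⟩ := ih
    obtain ⟨v⟩ := point_nonempty hK
    refine ⟨lmul M (lpt v), ?_, hM2.trans ?_⟩
    · rw [lmul_degree, lpt_degree, hM1]
      push_cast
      ring
    · have hfin : FiniteDimensional ℂ (H0 (lmul M (lpt v))) := H0_finite hK hg _
      exact Submodule.finrank_mono (H0_mono (le_lmul_lpt M v))

/-- a line bundle with two independent sections has positive degree -/
theorem degree_pos (hK : IsCurve K) (hg : genus K ≠ 0) {L : LineBundle K}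
    (h : 2 ≤ Module.finrank ℂ (H0 L)) : 0 < L.degree := by
  by_contra hcon
  obtain ⟨v⟩ := point_nonempty hK
  have h1 := h0_lsub hK hg L v
  have h2 : (lsub L v).degree < 0 := by rw [lsub_degree]; omega
  rw [H0_eq_bot hK h2, finrank_bot] at h1
  omega

theorem composed_aux (hK : IsCurve K) (hg : genus K ≠ 0) {L : LineBundle K} {r : ℕ} (hr : 1 ≤ r)
    (hL : r + 1 ≤ Module.finrank ℂ (H0 L))
    (hmin : ∀ M : LineBundle K, M.degree < L.degree → Module.finrank ℂ (H0 M) < r + 1)
    (hd : (L.degree - 1) * (L.degree - 2) < 2 * (genus K : ℤ)) (i : ℕ) :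
    ∃ M : LineBundle K, M.degree = L.degree - 2 * i ∧
      r + 1 ≤ Module.finrank ℂ (H0 M) + i := by
  classical
  have hpos := degree_pos hK hg (L := L) (by omega)
  obtain ⟨a0, ha0, a1, ha1, hli, hgen⟩ := Pool.Agent.TH186.Low.exists_pencil hK hg L hpos (fun v => by
    have := hmin (lsub L v) (by rw [lsub_degree]; omega)
    omega)
  have ha00 : a0 ≠ 0 := by
    rintro rfl
    have := (hli 1 0 (by simp)).1
    exact one_ne_zero this
  have ha10 : a1 ≠ 0 := by
    rintro rfl
    have := (hli 0 1 (by simp)).2
    exact one_ne_zero this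
  set f : K := a1 / a0 with hfdef
  have hf0 : f ≠ 0 := div_ne_zero ha10 ha00
  have hf : Transcendental ℂ f := by
    by_contra hcon
    obtain ⟨c, hc⟩ := exists_const hcon
    have h1 : a1 = algebraMap ℂ K c * a0 := by
      rw [← hc, hfdef, div_mul_cancel₀ _ ha00]
    have h2 := (hli (-c) 1 (by rw [h1, Algebra.smul_def, one_smul, map_neg]; ring)).2
    exact one_ne_zero h2
  have hframe : ∀ v : Point K, v.val (L.frame v : K) = v.val a0 * max 1 (v.val f) := by
    intro v
    have h0 : v.val a0 ≤ v.val (L.frame v : K) := ha0 v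
    have h1 : v.val a1 ≤ v.val (L.frame v : K) := ha1 v
    have h2 : v.val a1 = v.val a0 * v.val f := by
      rw [hfdef, map_div₀, mul_div_cancel₀]
      exact v.val_ne_zero ha00
    rcases hgen v with h | h
    · rw [← h] at h1 ⊢
      rw [max_eq_left, mul_one]
      rw [h2] at h1
      by_contra hcon
      rw [not_le] at hcon
      have : v.val a0 * 1 < v.val a0 * v.val f := by
        exact (mul_lt_mul_iff_right₀ (zero_lt_iff.2 (v.val_ne_zero ha00))).2 hcon
      rw [mul_one] at this
      exact absurd h1 (not_le.2 this)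
    · rw [← h] at h0 ⊢
      rw [max_eq_right, h2]
      rw [h2] at h0
      by_contra hcon
      rw [not_le] at hcon
      have : v.val a0 * v.val f < v.val a0 * 1 := by
        exact (mul_lt_mul_iff_right₀ (zero_lt_iff.2 (v.val_ne_zero ha00))).2 hcon
      rw [mul_one] at this
      exact absurd h0 (not_le.2 this)
  have hdegN : L.degree = Module.finrank ℂ⟮f⟯ K := by
    have h1 : (lpole hK (Units.mk0 f hf0)).degree = L.degree := by
      have h2 : (lmul (lpole hK (Units.mk0 f hf0)) (lprin hK (Units.mk0 a0 ha00))).degree =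
          L.degree := by
        apply le_antisymm
        · apply ldegree_le hK
          intro v s hs
          rw [mem_lmul, lpole_val] at hs
          change v.val s ≤ v.val (L.frame v : K)
          rw [hframe, mul_comm]
          exact hs
        · apply ldegree_le hK
          intro v s hs
          rw [mem_lmul, lpole_val]
          change v.val s ≤ v.val (L.frame v : K) at hs
          rw [hframe, mul_comm] at hs
          exact hs
      rw [lmul_degree, lprin_degree, add_zero] at h2
      exact h2
    rw [← h1, Pool.Agent.W518.EG.lpole_degree]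
    exact degZ_add_const hK hf
  -- the space `W`
  let W : Submodule ℂ K := (H0 L).comap (LinearMap.mulLeft ℂ a0)
  have hWmem : ∀ h, h ∈ W ↔ a0 * h ∈ H0 L := fun h => Iff.rfl
  have hWle : ∀ h ∈ W, ∀ v : Point K, v.val h ≤ max 1 (v.val f) := by
    intro h hh v
    have h1 : v.val (a0 * h) ≤ v.val (L.frame v : K) := (hWmem h).1 hh v
    rw [map_mul, hframe] at h1
    exact (mul_le_mul_iff_right₀ (zero_lt_iff.2 (v.val_ne_zero ha00))).1 h1
  have hfinL : FiniteDimensional ℂ (H0 L) := H0_finite hK hg L
  have hfinW : FiniteDimensional ℂ W := by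
    have hinj : Function.Injective (LinearMap.mulLeft ℂ a0) := by
      intro x y hxy
      exact mul_left_cancel₀ ha00 hxy
    let φ : W →ₗ[ℂ] H0 L := (LinearMap.mulLeft ℂ a0).restrict (fun x hx => hx)
    apply FiniteDimensional.of_injective φ
    intro x y hxy
    have h1 := congrArg (fun z : H0 L => (z : K)) hxy
    exact Subtype.ext (hinj h1)
  have hprim : ∀ h ∈ W, ℂ⟮f⟯⟮h⟯ ≠ ⊤ := by
    intro h hh htop
    have h1 := genus_bound hK hg hf htop (hWle h hh)
    rw [← hdegN] at h1
    omega
  obtain ⟨E, hE, hWE⟩ := exists_proper hK hf W hprim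
  obtain ⟨S, hS⟩ := exists_pairs hK hf E hE W hfinW hWE
  -- choose `i` values
  have hinf : (↑S : Set ℂ)ᶜ.Infinite := S.finite_toSet.infinite_compl
  obtain ⟨C, hCS, hCcard⟩ := hinf.exists_subset_card_eq i
  choose p q hpq hpf hqf hW' using fun c : C => hS c (fun h => hCS c.2 h)
  let l1 : List (Point K) := C.attach.toList.map p
  let l2 : List (Point K) := C.attach.toList.map q
  have hlen1 : l1.length = i := by simp [l1, hCcard]
  have hlen2 : l2.length = i := by simp [l2, hCcard]
  have hpinj : Function.Injective p := by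
    intro c c' h
    have h1 := hpf c
    rw [h] at h1
    exact Subtype.ext (h1.unique (hpf c'))
  have hqinj : Function.Injective q := by
    intro c c' h
    have h1 := hqf c
    rw [h] at h1
    exact Subtype.ext (h1.unique (hqf c'))
  have hnd1 : l1.Nodup := (Finset.nodup_toList _).map hpinj
  have hnd2 : l2.Nodup := (Finset.nodup_toList _).map hqinj
  have hnd : (l1 ++ l2).Nodup := by
    rw [List.nodup_append]
    refine ⟨hnd1, hnd2, ?_⟩
    intro a ha b hb hab
    rw [List.mem_map] at ha hb
    obtain ⟨c, _, rfl⟩ := ha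
    obtain ⟨c', _, rfl⟩ := hb
    have h1 := hpf c
    rw [hab] at h1
    have h2 : c = c' := Subtype.ext (h1.unique (hqf c'))
    subst h2
    exact hpq c hab
  refine ⟨lsubl L (l1 ++ l2), ?_, ?_⟩
  · rw [lsubl_degree, List.length_append, hlen1, hlen2]
    push_cast
    ring
  · have h1 := lsubl_finrank hK hg L l1
    have h2 : H0 (lsubl L l1) ≤ H0 (lsubl L (l1 ++ l2)) := by
      intro s hs
      rw [mem_H0_lsubl L l1 hnd1] at hs
      rw [mem_H0_lsubl L (l1 ++ l2) hnd]
      refine ⟨hs.1, fun v hv => ?_⟩
      rw [List.mem_append] at hv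
      rcases hv with hv | hv
      · exact hs.2 v hv
      · have hv' := hv
        rw [List.mem_map] at hv'
        obtain ⟨c, hc, rfl⟩ := hv'
        have h3 := hs.2 (p c) (List.mem_map.2 ⟨c, hc, rfl⟩)
        have hsW : s / a0 ∈ W := by
          rw [hWmem, mul_div_cancel₀ _ ha00]
          exact hs.1
        obtain ⟨α, hα1, hα2⟩ := hW' c _ hsW
        have key : ∀ w : Point K, w.val f ≤ 1 → (w.val s < w.val (L.frame w : K) ↔
            w.val (s / a0) < 1) := by
          intro w hw
          rw [hframe, max_eq_left hw, mul_one, map_div₀, div_lt_one₀]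
          exact zero_lt_iff.2 (w.val_ne_zero ha00)
        rw [key _ (hpf c).le, hα1.lt_iff] at h3
        rw [key _ (hqf c).le, hα2.lt_iff]
        exact h3
    have hfin : FiniteDimensional ℂ (H0 (lsubl L (l1 ++ l2))) := H0_finite hK hg _
    have h3 := Submodule.finrank_mono h2
    omega

theorem composed (hK : IsCurve K) (hg : genus K ≠ 0) {L : LineBundle K} {r : ℕ} (hr : 1 ≤ r)
    (hL : r + 1 ≤ Module.finrank ℂ (H0 L))
    (hd : (L.degree - 1) * (L.degree - 2) < 2 * (genus K : ℤ)) (i : ℕ) :
    ∃ M : LineBundle K, M.degree = L.degree - 2 * i ∧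
      r + 1 ≤ Module.finrank ℂ (H0 M) + i := by
  classical
  have hex : ∃ n : ℕ, ∃ M : LineBundle K, M.degree = n ∧ r + 1 ≤ Module.finrank ℂ (H0 M) := by
    have := degree_pos hK hg (L := L) (by omega)
    exact ⟨L.degree.toNat, L, by omega, hL⟩
  obtain ⟨M, hM1, hM2⟩ := Nat.find_spec hex
  have hmin : ∀ N : LineBundle K, N.degree < M.degree → Module.finrank ℂ (H0 N) < r + 1 := by
    intro N hN
    by_contra hcon
    rw [not_lt] at hcon
    have hpos := degree_pos hK hg (L := N) (by omega)
    have h1 : N.degree.toNat < Nat.find hex := by omega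
    exact Nat.find_min hex h1 ⟨N, by omega, hcon⟩
  have hML : M.degree ≤ L.degree := by
    by_contra hcon
    have := hmin L (by omega)
    omega
  have hMpos := degree_pos hK hg (L := M) (by omega)
  have hd' : (M.degree - 1) * (M.degree - 2) < 2 * (genus K : ℤ) := by
    rcases eq_or_lt_of_le (show (1 : ℤ) ≤ M.degree by omega) with h | h
    · rw [← h]
      have : 0 < genus K := Nat.pos_of_ne_zero hg
      simp
      exact this
    · nlinarith
  obtain ⟨N, hN1, hN2⟩ := composed_aux hK hg hr hM2 hmin hd' i
  obtain ⟨P, hP1, hP2⟩ := exists_add hK hg N (L.degree - M.degree).toNat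
  refine ⟨P, ?_, by omega⟩
  rw [hP1, hN1]
  omega

end Pool.Agent.R858.BN
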