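import Pool.Agent.R858.BN1
import Pool.Agent.Helper395.CS.Diff
import Pool.Agent.Helper395.CS.Stable
import Pool.Agent.Y803.FD.All
import Pool.Agent.W518.EG.TGen

/-!
# Hyperelliptic curves of every genus
-/

open scoped WithZero Polynomial IntermediateField
open WithZero

set_option linter.unusedVariables false
set_option linter.unusedSectionVars false

namespace Pool.Agent.R858.BN

open Pool.Agent.Helper395.CS hiding genus map_mul map_inv
open Pool.Agent.Helper395.BC
open Pool.Agent.W518.SMR (lpole lpole_val)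
open Pool.Agent.W518.PC (lpow)
open Pool.Agent.W45.PCG (lpow_degree)

variable {K : Type} [Field K] [Algebra ℂ K]

theorem hyp_val_y {x y : K} {f : ℂ[X]} {ι : K ≃ₐ[ℂ] K} (H : Hyp x y f ι) {m : ℕ}
    (hm : f.natDegree = 2 * m) {v : Point K} (hv : 1 < v.val x) : v.val y = v.val x ^ m := by
  have h1 : v.val (y ^ 2) = (v.val x ^ m) ^ 2 := by
    rw [H.eq, val_aeval_inf hv f H.f_ne, hm, ← pow_mul, mul_comm]
  rw [map_pow] at h1
  exact (pow_left_inj₀ zero_le zero_le two_ne_zero).1 h1

/-- `(p, q) ↦ p(x) + q(x) y` -/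
noncomputable def hypMap (x y : K) (a b : ℕ) :
    (Polynomial.degreeLT ℂ a × Polynomial.degreeLT ℂ b) →ₗ[ℂ] K :=
  ((Polynomial.aeval x).toLinearMap.comp
    ((Submodule.subtype (Polynomial.degreeLT ℂ a)).comp (LinearMap.fst ℂ _ _))) +
  (LinearMap.mulRight ℂ y).comp ((Polynomial.aeval x).toLinearMap.comp
    ((Submodule.subtype (Polynomial.degreeLT ℂ b)).comp (LinearMap.snd ℂ _ _)))

theorem hypMap_apply (x y : K) (a b : ℕ) (p : Polynomial.degreeLT ℂ a × Polynomial.degreeLT ℂ b) :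
    hypMap x y a b p = Polynomial.aeval x (p.1 : ℂ[X]) + Polynomial.aeval x (p.2 : ℂ[X]) * y := by
  simp [hypMap]

theorem hypMap_injective {x y : K} {f : ℂ[X]} {ι : K ≃ₐ[ℂ] K} (H : Hyp x y f ι) (a b : ℕ) :
    Function.Injective (hypMap x y a b) := by
  rw [injective_iff_map_eq_zero]
  rintro ⟨p, q⟩ hp
  rw [hypMap_apply] at hp
  obtain ⟨h1, h2⟩ := H.coeff_zero (mem_adj (p : ℂ[X])) (mem_adj (q : ℂ[X])) hp
  have h3 : (p : ℂ[X]) = 0 := by
    by_contra h
    exact aeval_ne_zero H.trans h h1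
  have h4 : (q : ℂ[X]) = 0 := by
    by_contra h
    exact aeval_ne_zero H.trans h h2
  exact Prod.ext (Subtype.ext h3) (Subtype.ext h4)

theorem hyp_H0 {x y : K} {f : ℂ[X]} {ι : K ≃ₐ[ℂ] K} (H : Hyp x y f ι) {m : ℕ}
    (hm : f.natDegree = 2 * m) {t : ℕ} (ht : m ≤ t) :
    H0 (lpow (lpole H.curve (Units.mk0 x H.x_ne)) t) =
      LinearMap.range (hypMap x y (t + 1) (t + 1 - m)) := by
  ext z
  have hz : z ∈ H0 (lpow (lpole H.curve (Units.mk0 x H.x_ne)) t) ↔
      ∀ v : Point K, v.val z ≤ (max 1 (v.val x)) ^ t := by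
    constructor
    · intro h v
      have := h v
      change v.val z ≤ v.val ((lpow (lpole H.curve (Units.mk0 x H.x_ne)) t).frame v : K) at this
      rwa [lpow_val, lpole_val] at this
    · intro h v
      change v.val z ≤ v.val ((lpow (lpole H.curve (Units.mk0 x H.x_ne)) t).frame v : K)
      rw [lpow_val, lpole_val]
      exact h v
  rw [hz]
  constructor
  · intro h
    obtain ⟨p, q, rfl⟩ := H.mem_ring (z := z) (fun v hv => by
      have := h v
      rwa [max_eq_left hv, one_pow] at this)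
    obtain ⟨v, hv⟩ := exists_inf H
    have h1 := H.parts_le rfl (mem_adj p) (mem_adj q) v (C := v.val x ^ t) (by
      have := h v
      rwa [max_eq_right hv.le] at this) (by
      have h2 : 1 < (v.comap ι).val x := by rw [H.comap_x]; exact hv
      have := h (v.comap ι)
      rwa [max_eq_right h2.le, H.comap_x] at this)
    have hp : p ∈ Polynomial.degreeLT ℂ (t + 1) := by
      rw [Polynomial.mem_degreeLT]
      rcases eq_or_ne p 0 with rfl | hp
      · rw [Polynomial.degree_zero]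
        exact WithBot.bot_lt_coe _
      have h4 := h1.1
      rw [val_aeval_inf hv p hp, pow_le_pow_iff_right₀ hv] at h4
      rw [← Polynomial.natDegree_lt_iff_degree_lt hp]
      omega
    have hq : q ∈ Polynomial.degreeLT ℂ (t + 1 - m) := by
      rw [Polynomial.mem_degreeLT]
      rcases eq_or_ne q 0 with rfl | hq
      · rw [Polynomial.degree_zero]
        exact WithBot.bot_lt_coe _
      have h4 := h1.2
      rw [map_mul, val_aeval_inf hv q hq, hyp_val_y H hm hv, ← pow_add,
        pow_le_pow_iff_right₀ hv] at h4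
      rw [← Polynomial.natDegree_lt_iff_degree_lt hq]
      omega
    exact ⟨(⟨p, hp⟩, ⟨q, hq⟩), by rw [hypMap_apply]⟩
  · rintro ⟨⟨p, q⟩, rfl⟩ v
    rw [hypMap_apply]
    refine Valuation.map_add_le _ (aeval_val_le v p.2) ?_
    have hy : v.val y ≤ (max 1 (v.val x)) ^ m := by
      rcases le_or_gt (v.val x) 1 with hv | hv
      · rw [max_eq_left hv, one_pow]
        have h1 : v.val (y ^ 2) ≤ 1 := by
          rw [H.eq]
          exact aeval_le hv f
        rw [map_pow] at h1
        exact (pow_le_one_iff two_ne_zero).1 h1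
      · rw [max_eq_right hv.le, hyp_val_y H hm hv]
    have hq : v.val (Polynomial.aeval x (q : ℂ[X])) ≤ (max 1 (v.val x)) ^ (t - m) := by
      apply aeval_val_le v
      have h1 : t + 1 - m = t - m + 1 := by omega
      exact h1 ▸ q.2
    rw [map_mul]
    calc v.val (Polynomial.aeval x (q : ℂ[X])) * v.val y
        ≤ (max 1 (v.val x)) ^ (t - m) * (max 1 (v.val x)) ^ m := mul_le_mul' hq hy
      _ = (max 1 (v.val x)) ^ t := by rw [← pow_add, Nat.sub_add_cancel ht]

theorem hyp_genus {x y : K} {f : ℂ[X]} {ι : K ≃ₐ[ℂ] K} (H : Hyp x y f ι) {G : ℕ} (hG : 1 ≤ G)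
    (hf : f.natDegree = 2 * (G + 1)) : genus K = G := by
  apply Pool.Agent.W518.EG.s_GEN K H.curve 2 G (G + 1) (lpole H.curve (Units.mk0 x H.x_ne))
    (by norm_num) hG
  · rw [Pool.Agent.W518.EG.lpole_degree]
    exact H.degP_x
  · intro t ht
    rw [hyp_H0 H hf ht]
    have hinj := hypMap_injective H (t + 1) (t + 1 - (G + 1))
    refine ⟨inferInstance, ?_⟩
    rw [LinearMap.finrank_range_of_inj hinj, Module.finrank_prod]
    have h1 : ∀ k : ℕ, Module.finrank ℂ (Polynomial.degreeLT ℂ k) = k := by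
      intro k
      rw [(Polynomial.degreeLTEquiv ℂ k).finrank_eq]
      simp
    rw [h1, h1]
    push_cast
    omega

/-- there are hyperelliptic curves of every genus: curves with a function of degree 2 -/
theorem exists_hyperelliptic (G : ℕ) (hG : 1 ≤ G) : ∃ (K : Type) (_ : Field K) (_ : Algebra ℂ K),
    IsCurve K ∧ genus K = G ∧ ∃ x : K, Transcendental ℂ x ∧ degP x = 2 := by
  obtain ⟨s, hs⟩ : ∃ s : Finset ℂ, s.card = 2 * (G + 1) := by
    obtain ⟨s, _, hs⟩ := (Set.infinite_univ (α := ℂ)).exists_subset_card_eq (2 * (G + 1))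
    exact ⟨s, hs⟩
  have hirr : Fact (Irreducible (Pool.Agent.Y803.FD.Pf (Pool.Agent.Y803.FD.fs s))) :=
    ⟨Pool.Agent.Y803.FD.Pf_irreducible (Pool.Agent.Y803.FD.fs_sep s)
      (by rw [Pool.Agent.Y803.FD.fs_deg, hs]; omega)⟩
  have H := Pool.Agent.Y803.FD.hypf (f := Pool.Agent.Y803.FD.fs s) (Pool.Agent.Y803.FD.fs_sep s)
  refine ⟨Pool.Agent.Y803.FD.Kf (Pool.Agent.Y803.FD.fs s), inferInstance, inferInstance, H.curve,
    hyp_genus H hG ?_, _, H.trans, H.degP_x⟩
  rw [Pool.Agent.Y803.FD.fs_deg, hs]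

end Pool.Agent.R858.BN
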