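import Pool.Agent.R858.BN4
import Pool.Agent.R858.HypGenus

/-!
# Brill–Noether loci which contain the hyperelliptic locus
-/

open scoped WithZero Polynomial IntermediateField
open WithZero

set_option linter.unusedVariables false
set_option linter.unusedSectionVars false

namespace Pool.Agent.R858.BN

open Pool.Agent.Helper395.CS hiding genus map_mul map_inv
open Pool.Agent.Helper395.BC
open Pool.Agent.W518.SMR (lpole lpole_val)
open Pool.Agent.W518.PC (lpow)
open Pool.Agent.W45.PCG (lpow_degree)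

variable {K : Type} [Field K] [Algebra ℂ K]

/-- a pencil of degree `k` gives a linear series of dimension `r` and degree `k r` -/
theorem pencil_mul (hK : IsCurve K) (hg : genus K ≠ 0) {A : LineBundle K}
    (hA : 2 ≤ Module.finrank ℂ (H0 A)) (r : ℕ) : ∃ L : LineBundle K, L.degree = r * A.degree ∧
      r + 1 ≤ Module.finrank ℂ (H0 L) := by
  have hfinA : FiniteDimensional ℂ (H0 A) := H0_finite hK hg A
  have hfin : FiniteDimensional ℂ (H0 (lpow A r)) := H0_finite hK hg _
  refine ⟨lpow A r, by rw [lpow_degree], ?_⟩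
  obtain ⟨a0, ha0, a1, ha1, hli⟩ : ∃ a0 ∈ H0 A, ∃ a1 ∈ H0 A,
      ∀ s t : ℂ, s • a0 + t • a1 = 0 → s = 0 ∧ t = 0 := by
    obtain ⟨v, hv⟩ := exists_linearIndependent_of_le_finrank (R := ℂ) (M := H0 A) hA
    refine ⟨v 0, (v 0).2, v 1, (v 1).2, fun s t h => ?_⟩
    have h1 := LinearIndependent.pair_iff.1 (show LinearIndependent ℂ ![v 0, v 1] by
      convert hv using 1
      funext i
      fin_cases i <;> rfl)
    exact h1 s t (Subtype.ext (by simpa using h))
  have ha00 : a0 ≠ 0 := by
    rintro rfl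
    exact one_ne_zero (hli 1 0 (by simp)).1
  set f : K := a1 / a0 with hfdef
  have hf : Transcendental ℂ f := by
    by_contra hcon
    obtain ⟨c, hc⟩ := exists_const hcon
    have h1 : a1 = algebraMap ℂ K c * a0 := by
      rw [← hc, hfdef, div_mul_cancel₀ _ ha00]
    have h2 := (hli (-c) 1 (by rw [h1, Algebra.smul_def, one_smul, map_neg]; ring)).2
    exact one_ne_zero h2
  let φ : Polynomial.degreeLT ℂ (r + 1) →ₗ[ℂ] K :=
    (LinearMap.mulLeft ℂ (a0 ^ r)).comp ((Polynomial.aeval f).toLinearMap.comp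
      (Submodule.subtype (Polynomial.degreeLT ℂ (r + 1))))
  have hφ : ∀ p, φ p = a0 ^ r * Polynomial.aeval f (p : ℂ[X]) := fun p => rfl
  have hinj : Function.Injective φ := by
    rw [injective_iff_map_eq_zero]
    intro p hp
    rw [hφ] at hp
    rcases mul_eq_zero.1 hp with h | h
    · exact absurd h (pow_ne_zero _ ha00)
    · apply Subtype.ext
      by_contra hne
      exact aeval_ne_zero hf hne h
  have hrange : LinearMap.range φ ≤ H0 (lpow A r) := by
    rintro _ ⟨p, rfl⟩ v
    change v.val (φ p) ≤ v.val ((lpow A r).frame v : K)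
    rw [hφ, lpow_val, map_mul, map_pow]
    have h1 := aeval_val_le v (f := f) p.2
    have h0 : v.val a0 ≤ v.val (A.frame v : K) := ha0 v
    have h0' : v.val a1 ≤ v.val (A.frame v : K) := ha1 v
    calc v.val a0 ^ r * v.val (Polynomial.aeval f (p : ℂ[X]))
        ≤ v.val a0 ^ r * (max 1 (v.val f)) ^ r := mul_le_mul' le_rfl h1
      _ = (v.val a0 * max 1 (v.val f)) ^ r := by rw [mul_pow]
      _ ≤ v.val (A.frame v : K) ^ r := by
        refine pow_le_pow_left₀ zero_le ?_ _
        rcases le_total (v.val f) 1 with h | h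
        · rw [max_eq_left h, mul_one]
          exact h0
        · rw [max_eq_right h, hfdef, map_div₀, mul_div_cancel₀]
          · exact h0'
          · exact v.val_ne_zero ha00
  have h1 := Submodule.finrank_mono hrange
  rw [LinearMap.finrank_range_of_inj hinj, (Polynomial.degreeLTEquiv ℂ (r + 1)).finrank_eq] at h1
  simpa using h1

/-- hyperelliptic curves carry linear series of degree `d` and dimension `r` for `2 r ≤ d` -/
theorem exists_hyp_series (g r : ℕ) (hg : 1 ≤ g) (d : ℤ) (hd : 2 * (r : ℤ) ≤ d) :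
    ∃ (K : Type) (_ : Field K) (_ : Algebra ℂ K), IsCurve K ∧ genus K = g ∧
      ∃ L : LineBundle K, L.degree = d ∧ r + 1 ≤ Module.finrank ℂ (H0 L) := by
  obtain ⟨K, i1, i2, hK, hKg, x, hx, hdeg⟩ := exists_hyperelliptic g hg
  have hg0 : genus K ≠ 0 := by omega
  refine ⟨K, i1, i2, hK, hKg, ?_⟩
  have hx0 : x ≠ 0 := ne_zero_of_transcendental hx
  have hA : 2 ≤ Module.finrank ℂ (H0 (lpole hK (Units.mk0 x hx0))) :=
    Pool.Agent.W518.SMR.two_le_h0_lpole hK hg0 (Units.mk0 x hx0) (fun c h => hx (by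
      rw [Units.val_mk0] at h
      rw [h]
      exact isAlgebraic_algebraMap c))
  obtain ⟨L, hL1, hL2⟩ := pencil_mul hK hg0 hA r
  obtain ⟨M, hM1, hM2⟩ := exists_add hK hg0 L (d - 2 * r).toNat
  refine ⟨M, ?_, hL2.trans hM2⟩
  rw [hM1, hL1, Pool.Agent.W518.EG.lpole_degree, Units.val_mk0, hdeg]
  omega

end Pool.Agent.R858.BN
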