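import Pool.Agent.R858.BN4

/-!
# Partners of points over a proper subfield
-/

open scoped WithZero Polynomial IntermediateField
open WithZero

set_option linter.unusedVariables false
set_option linter.unusedSectionVars false

namespace Pool.Agent.R858.BN

open Pool.Agent.Helper395.CS hiding genus
open Pool.Agent.Helper395.BC
open Pool.Agent.W525.BA
open Pool.Agent.W518.SMR (lpole lpole_val)
open Pool.Agent.W518.PC (lpow)
open Pool.Agent.W45.PCG (lpow_degree)
open Pool.Agent.TH350.J203 (mem_H0_lsub H0_lsub_le)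

variable {K : Type} [Field K] [Algebra ℂ K]

/-- weak approximation for residues -/
theorem approx (hK : IsCurve K) (hg : genus K ≠ 0) (T : Finset (Point K)) {v : Point K} (hv : v ∈ T) :
    ∃ k : K, v.val k = 1 ∧ ∀ w ∈ T, w ≠ v → w.val k < 1 := by
  classical
  have hinf := infinite_points hK
  obtain ⟨p, hp⟩ := Infinite.exists_notMem_finset T
  set N : ℕ := 2 * genus K + T.card with hN
  set L := lpow (lpt p) (N : ℤ) with hL
  have hLd : L.degree = N := by
    rw [hL, lpow_degree, lpt_degree]
    ring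
  have hfr : ∀ w, w ≠ p → w.val (L.frame w : K) = 1 := by
    intro w hw
    rw [hL, lpow_val, lpt_frame_ne hw, Units.val_one, map_one, one_pow]
  set l := (T.erase v).toList with hl
  have hlnd : l.Nodup := Finset.nodup_toList _
  have hllen : l.length = T.card - 1 := by
    rw [hl, Finset.length_toList, Finset.card_erase_of_mem hv]
  have hTpos : 0 < T.card := Finset.card_pos.2 ⟨v, hv⟩
  have hvl : v ∉ l := by
    rw [hl, Finset.mem_toList]
    exact Finset.notMem_erase v T
  have hpos : 0 < genus K := Nat.pos_of_ne_zero hg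
  have hd1 : (lsubl L l).degree = N - (T.card - 1 : ℕ) := by rw [lsubl_degree, hLd, hllen]
  have h1 := Pool.Agent.R858.SMR.h0_of_large hK hg (lsubl L l) (by rw [hd1]; omega)
  have h2 := Pool.Agent.R858.SMR.h0_of_large hK hg (lsub (lsubl L l) v) (by
    rw [lsub_degree, hd1]; omega)
  rw [lsub_degree] at h2
  have hnot : ¬ H0 (lsubl L l) ≤ H0 (lsub (lsubl L l) v) := by
    intro h
    have hfin : FiniteDimensional ℂ (H0 (lsub (lsubl L l) v)) := H0_finite hK hg _
    have := Submodule.finrank_mono h
    omega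
  obtain ⟨k, hk1, hk2⟩ := SetLike.not_le_iff_exists.1 hnot
  rw [mem_H0_lsub] at hk2
  have hk3 := (mem_H0_lsubl L l hlnd k).1 hk1
  have hvp : v ≠ p := fun h => hp (h ▸ hv)
  refine ⟨k, ?_, ?_⟩
  · have h3 : v.val k ≤ v.val (L.frame v : K) := hk3.1 v
    rw [hfr v hvp] at h3
    refine le_antisymm h3 (not_lt.1 fun h4 => hk2 ⟨hk1, ?_⟩)
    rw [lsubl_frame L l hvl, hfr v hvp]
    exact h4
  · intro w hw hwv
    have hwp : w ≠ p := fun h => hp (h ▸ hw)
    have h3 := hk3.2 w (by
      rw [hl, Finset.mem_toList]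
      exact Finset.mem_erase.2 ⟨hwv, hw⟩)
    rwa [hfr w hwp] at h3

/-- at most `[K : F]` points have the same restriction to `F` -/
theorem card_le_finrank (hK : IsCurve K) (hg : genus K ≠ 0) {F : Type*} [Field F] [Algebra F K]
    [FiniteDimensional F K] (T : Finset (Point K))
    (hT : ∀ v ∈ T, ∀ w ∈ T, ∀ x : F, v.val (algebraMap F K x) = w.val (algebraMap F K x)) :
    T.card ≤ Module.finrank F K := by
  classical
  choose! k hk1 hk2 using fun v (hv : v ∈ T) => approx hK hg T hv
  have hli : LinearIndependent F (fun v : T => k v) := by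
    rw [Fintype.linearIndependent_iff]
    intro x hx
    by_contra hcon
    push Not at hcon
    obtain ⟨v1, hv1⟩ := hcon
    let e : T → ℤᵐ⁰ := fun v => v1.1.val (algebraMap F K (x v))
    obtain ⟨v0, -, hv0⟩ := Finset.exists_max_image (Finset.univ : Finset T) e ⟨v1, Finset.mem_univ _⟩
    have hpos : 0 < e v0 := by
      refine lt_of_lt_of_le ?_ (hv0 v1 (Finset.mem_univ _))
      exact zero_lt_iff.2 (v1.1.val_ne_zero ((map_ne_zero _).2 hv1))
    have he : ∀ v : T, v0.1.val (algebraMap F K (x v)) = e v := fun v =>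
      hT v0.1 v0.2 v1.1 v1.2 _
    rw [← Finset.add_sum_erase _ _ (Finset.mem_univ v0)] at hx
    have h1 : x v0 • k v0 = - ∑ v ∈ Finset.univ.erase v0, x v • k v := eq_neg_of_add_eq_zero_left hx
    have h2 : v0.1.val (x v0 • k v0) = e v0 := by
      rw [Algebra.smul_def, map_mul, he, hk1 v0.1 v0.2, mul_one]
    have h3 : v0.1.val (∑ v ∈ Finset.univ.erase v0, x v • k v) < e v0 := by
      refine Valuation.map_sum_lt _ hpos.ne' fun v hv => ?_
      have hne : v ≠ v0 := (Finset.mem_erase.1 hv).1
      have h4 : v0.1.val (k v) < 1 := hk2 v.1 v.2 v0.1 v0.2 (fun h => hne (Subtype.ext h.symm))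
      rw [Algebra.smul_def, map_mul, he]
      rcases eq_or_ne (e v) 0 with h0 | h0
      · rw [h0, zero_mul]
        exact hpos
      · calc e v * v0.1.val (k v) < e v * 1 :=
              (mul_lt_mul_iff_right₀ (zero_lt_iff.2 h0)).2 h4
          _ ≤ e v0 := by
              rw [mul_one]
              exact hv0 v (Finset.mem_univ _)
    rw [h1, Valuation.map_neg] at h2
    exact absurd h2 h3.ne
  have := hli.fintype_card_le_finrank
  simpa using this

theorem tower {f : K} (E : IntermediateField ℂ⟮f⟯ K) : IsScalarTower ℂ E K :=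
  IsScalarTower.of_algebraMap_eq fun _ => rfl

/-- intermediate fields are function fields of curves -/
theorem isCurve_sub (hK : IsCurve K) {f : K} (hf : Transcendental ℂ f) (E : IntermediateField ℂ⟮f⟯ K) :
    IsCurve E where
  fg := by
    have hfd := hK.finiteDimensional hf
    rw [IntermediateField.fg_top_iff]
    have h1 : Algebra.EssFiniteType ℂ ℂ⟮f⟯ := by
      rw [IntermediateField.essFiniteType_iff]
      exact IntermediateField.fg_adjoin_of_finite (Set.finite_singleton f)
    exact Algebra.EssFiniteType.comp ℂ ℂ⟮f⟯ E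
  trdeg := by
    have hfd := hK.finiteDimensional hf
    have htw := tower E
    have h1 := trdeg_add_eq ℂ E (A := K)
    have h3 : Algebra.IsAlgebraic E K := Algebra.IsAlgebraic.of_finite _ _
    rw [trdeg_eq_zero (R := E), add_zero] at h1
    rw [h1, hK.trdeg]

/-- the restriction of a point to a subfield which contains a uniformiser -/
noncomputable def restr {F : Type} [Field F] [Algebra ℂ F] [Algebra F K] [IsScalarTower ℂ F K]
    (v : Point K) (h : ∃ u : F, v.val (algebraMap F K u) = exp (-1)) : Point F where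
  val := v.val.comap (algebraMap F K)
  surj := by
    intro z
    rcases eq_or_ne z 0 with rfl | hz
    · exact ⟨0, map_zero _⟩
    · obtain ⟨u, hu⟩ := h
      refine ⟨u ^ (-(WithZero.log z)), ?_⟩
      rw [map_zpow₀]
      change (v.val (algebraMap F K u)) ^ (-(WithZero.log z)) = z
      rw [hu, ← exp_zsmul]
      simp [exp_log hz]
  const := by
    intro c hc
    change v.val (algebraMap F K (algebraMap ℂ F c)) = 1
    rw [← IsScalarTower.algebraMap_apply]
    exact v.const c hc

theorem restr_val {F : Type} [Field F] [Algebra ℂ F] [Algebra F K] [IsScalarTower ℂ F K]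
    (v : Point K) (h : ∃ u : F, v.val (algebraMap F K u) = exp (-1)) (x : F) :
    (restr v h).val x = v.val (algebraMap F K x) := rfl

/-- the function `f` in an intermediate field -/
noncomputable def inE {f : K} (E : IntermediateField ℂ⟮f⟯ K) : E :=
  algebraMap ℂ⟮f⟯ E ⟨f, IntermediateField.mem_adjoin_simple_self ℂ f⟩

theorem inE_coe {f : K} (E : IntermediateField ℂ⟮f⟯ K) : ((inE E : E) : K) = f := rfl

theorem aeval_inE {f : K} (E : IntermediateField ℂ⟮f⟯ K) (p : ℂ[X]) :
    ((Polynomial.aeval (inE E) p : E) : K) = Polynomial.aeval f p := by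
  have htw := tower E
  have h := Polynomial.aeval_algebraMap_apply K (inE E) p
  exact h.symm

theorem inE_transc {f : K} (hf : Transcendental ℂ f) (E : IntermediateField ℂ⟮f⟯ K) :
    Transcendental ℂ (inE E) := by
  rintro ⟨p, hp, h⟩
  refine hf ⟨p, hp, ?_⟩
  rw [← aeval_inE E, h]
  rfl

theorem finrank_adj_sub {f : K} (hf : Transcendental ℂ f) (E : IntermediateField ℂ⟮f⟯ K) :
    Module.finrank ℂ⟮inE E⟯ E = Module.finrank ℂ⟮f⟯ E := by
  have hmem : ∀ x : ℂ⟮f⟯, algebraMap ℂ⟮f⟯ E x ∈ ℂ⟮inE E⟯ := by
    intro x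
    obtain ⟨p, q, hq, -, hx⟩ := (mem_adj_iff hf).1 x.2
    have h1 : algebraMap ℂ⟮f⟯ E x = Polynomial.aeval (inE E) p / Polynomial.aeval (inE E) q := by
      apply (algebraMap E K).injective
      rw [map_div₀]
      change (x : K) = ((Polynomial.aeval (inE E) p : E) : K) / ((Polynomial.aeval (inE E) q : E) : K)
      rw [aeval_inE, aeval_inE, hx]
    rw [h1]
    exact div_mem (mem_adj p) (mem_adj q)
  let i0 : ℂ⟮f⟯ →+* ℂ⟮inE E⟯ := (algebraMap ℂ⟮f⟯ E).codRestrict ℂ⟮inE E⟯ hmem
  have hbij : Function.Bijective i0 := by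
    constructor
    · intro x y hxy
      have h1 := congrArg (fun z : ℂ⟮inE E⟯ => (z : E)) hxy
      exact (algebraMap ℂ⟮f⟯ E).injective h1
    · intro y
      obtain ⟨p, q, hq, -, hy⟩ := (mem_adj_iff (inE_transc hf E)).1 y.2
      refine ⟨⟨Polynomial.aeval f p / Polynomial.aeval f q, div_mem (mem_adj p) (mem_adj q)⟩, ?_⟩
      apply Subtype.ext
      apply (algebraMap E K).injective
      rw [hy, map_div₀]
      change Polynomial.aeval f p / Polynomial.aeval f q =
        ((Polynomial.aeval (inE E) p : E) : K) / ((Polynomial.aeval (inE E) q : E) : K)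
      rw [aeval_inE, aeval_inE]
  symm
  apply Algebra.finrank_eq_of_equiv_equiv (RingEquiv.ofBijective i0 hbij) (RingEquiv.refl E)
  ext x
  rfl

/-- over a proper subfield all but finitely many points have a partner -/
theorem partners (hK : IsCurve K) (hg : genus K ≠ 0) {f : K} (hf : Transcendental ℂ f)
    (E : IntermediateField ℂ⟮f⟯ K) (hE : E ≠ ⊤) :
    {v : Point K | ¬ ∃ w : Point K, w ≠ v ∧ ∀ x ∈ E, w.val x = v.val x}.Finite := by
  classical
  have hfd := hK.finiteDimensional hf
  have htw := tower E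
  have hEc := isCurve_sub hK hf E
  obtain ⟨S1, hS1⟩ := fibre_card hK hf
  obtain ⟨S2, hS2⟩ := fibre_card hEc (inE_transc hf E)
  obtain ⟨S3, hS3⟩ := Pool.Agent.TH350.J203.unram hK hf
  have hdeg := Module.finrank_mul_finrank ℂ⟮f⟯ E K
  have hm2 : 2 ≤ Module.finrank E K := by
    have h1 := finrank_lt_of_ne_top E hE
    have h2 : 0 < Module.finrank E K := Module.finrank_pos
    by_contra hcon
    have h3 : Module.finrank E K = 1 := by omega
    rw [h3, mul_one] at hdeg
    omega
  have hm1 : 0 < Module.finrank ℂ⟮f⟯ E := Module.finrank_pos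
  have key : ∀ c, c ∉ S1 ∪ S2 ∪ S3 → ∀ v : Point K, Rs v f c →
      ∃ w : Point K, w ≠ v ∧ ∀ x ∈ E, w.val x = v.val x := by
    intro c hc v hv
    rw [Finset.mem_union, Finset.mem_union, not_or, not_or] at hc
    obtain ⟨⟨hc1, hc2⟩, hc3⟩ := hc
    obtain ⟨T, hT, hTc⟩ := hS1 c hc1
    obtain ⟨T', hT', hTc'⟩ := hS2 c hc2
    rw [finrank_adj_sub hf E] at hTc'
    have hu : ∀ w : Point K, Rs w f c → ∃ u : E, w.val (algebraMap E K u) = exp (-1) := by
      intro w hw
      refine ⟨inE E - algebraMap ℂ E c, ?_⟩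
      rw [map_sub]
      exact hS3 c hc3 w hw
    obtain ⟨e0⟩ := point_nonempty hEc
    let ρ : Point K → Point E := fun w =>
      if h : ∃ u : E, w.val (algebraMap E K u) = exp (-1) then restr w h else e0
    have hρ : ∀ w, Rs w f c → ∀ x : E, (ρ w).val x = w.val x := by
      intro w hw x
      have h := hu w hw
      change (if h : ∃ u : E, w.val (algebraMap E K u) = exp (-1) then restr w h else e0).val x = _
      rw [dif_pos h]
      rfl
    have hmaps : ∀ w ∈ T, ρ w ∈ T' := by
      intro w hw
      rw [hT] at hw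
      rw [hT']
      change (ρ w).val (inE E - algebraMap ℂ E c) < 1
      rw [hρ w hw]
      exact hw
    have hcount := Finset.card_eq_sum_card_fiberwise hmaps
    by_contra hcon
    push Not at hcon
    have hvT : v ∈ T := (hT v).2 hv
    have hle : ∀ e ∈ T', (T.filter fun w => ρ w = e).card ≤ Module.finrank E K := by
      intro e he
      apply card_le_finrank hK hg
      intro w hw w' hw' x
      rw [Finset.mem_filter] at hw hw'
      change w.val (x : K) = w'.val (x : K)
      rw [← hρ w ((hT w).1 hw.1), ← hρ w' ((hT w').1 hw'.1), hw.2, hw'.2]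
    have hlt : (T.filter fun w => ρ w = ρ v).card < Module.finrank E K := by
      have h1 : T.filter (fun w => ρ w = ρ v) ⊆ {v} := by
        intro w hw
        rw [Finset.mem_filter] at hw
        rw [Finset.mem_singleton]
        by_contra hne
        obtain ⟨x, hx, hx'⟩ := hcon w hne
        apply hx'
        have h2 := hρ w ((hT w).1 hw.1) ⟨x, hx⟩
        rw [hw.2, hρ v hv] at h2
        exact h2.symm
      have h2 := Finset.card_le_card h1
      rw [Finset.card_singleton] at h2
      omega
    have hsum : ∑ e ∈ T', (T.filter fun w => ρ w = e).card < ∑ e ∈ T', Module.finrank E K :=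
      Finset.sum_lt_sum hle ⟨ρ v, hmaps v hvT, hlt⟩
    rw [← hcount, Finset.sum_const, smul_eq_mul, hTc, hTc', hdeg] at hsum
    exact lt_irrefl _ hsum
  have hfin : ∀ c, {v : Point K | Rs v f c}.Finite := by
    intro c
    obtain ⟨T, hT, -⟩ := zero_count_aux hK (transc_sub_const hf c)
    refine T.finite_toSet.subset fun v hv => ?_
    exact (hT v).2 hv
  refine ((finite_not_reg hK f).union ((S1 ∪ S2 ∪ S3).finite_toSet.biUnion fun c _ => hfin c)).subset ?_
  intro v hv
  by_contra hcon
  rw [Set.mem_union, not_or] at hcon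
  obtain ⟨h1, h2⟩ := hcon
  have h3 : v.val f ≤ 1 := by
    by_contra h
    exact h1 h
  obtain ⟨c, hc⟩ := Rs.exists hK h3
  refine hv (key c ?_ v hc)
  intro hcS
  apply h2
  simp only [Set.mem_iUnion]
  exact ⟨c, hcS, hc⟩

end Pool.Agent.R858.BN
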