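import Pool.Agent.R858.BN6

/-!
# Simple linear series
-/

open scoped WithZero Polynomial IntermediateField
open WithZero

set_option linter.unusedVariables false
set_option linter.unusedSectionVars false

namespace Pool.Agent.R858.BN

open Pool.Agent.Helper395.CS hiding genus
open Pool.Agent.Helper395.BC
open Pool.Agent.W525.BA
open Pool.Agent.W518.SMR (lpole lpole_val)
open Pool.Agent.W518.PC (lpow)
open Pool.Agent.W45.PCG (lpow_degree)
open Pool.Agent.TH350.J203 (mem_H0_lsub H0_lsub_le)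

variable {K : Type} [Field K] [Algebra ℂ K]

/-- elements of `ℂ(f)(h)` are polynomials in `h` with coefficients in `ℂ(f)` -/
theorem exists_poly (hK : IsCurve K) {f h : K} (hf : Transcendental ℂ f) (hgen : ℂ⟮f⟯⟮h⟯ = ⊤) (z : K) :
    ∃ q : ℂ⟮f⟯[X], z = Polynomial.aeval h q := by
  have hfd := hK.finiteDimensional hf
  have hint : IsIntegral ℂ⟮f⟯ h := IsIntegral.of_finite _ _
  have h1 : z ∈ (⊤ : IntermediateField ℂ⟮f⟯ K) := trivial
  rw [← hgen, ← IntermediateField.mem_toSubalgebra,
    IntermediateField.adjoin_simple_toSubalgebra_of_isAlgebraic hint.isAlgebraic,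
    Algebra.adjoin_singleton_eq_range_aeval] at h1
  obtain ⟨q, hq⟩ := h1
  exact ⟨q, hq.symm⟩

/-- a primitive element takes different values at the points of almost all fibres -/
theorem sep_values (hK : IsCurve K) (hg : genus K ≠ 0) {f h : K} (hf : Transcendental ℂ f)
    (hgen : ℂ⟮f⟯⟮h⟯ = ⊤) : ∃ S : Finset ℂ, ∀ c, c ∉ S → ∀ v w : Point K, Rs v f c → Rs w f c →
      v ≠ w → ∀ α, Rs v h α → Rs w h α → False := by
  classical
  have hfd := hK.finiteDimensional hf
  have hNpos : 0 < Module.finrank ℂ⟮f⟯ K := Module.finrank_pos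
  set fu : Kˣ := Units.mk0 f (ne_zero_of_transcendental hf) with hfu
  set n : ℕ := 2 * genus K + 2 with hn
  set L := lpow (lpole hK fu) (n : ℤ) with hL
  have hLd : (2 * genus K + 2 : ℤ) ≤ L.degree := by
    rw [hL, lpow_degree, Pool.Agent.W518.EG.lpole_degree]
    have h1 : degP ((fu : Kˣ) : K) = Module.finrank ℂ⟮f⟯ K := degZ_add_const hK hf
    rw [h1]
    have h2 : (n : ℤ) * 1 ≤ n * (Module.finrank ℂ⟮f⟯ K : ℤ) :=
      mul_le_mul_of_nonneg_left (by exact_mod_cast hNpos) (by positivity)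
    push_cast
    linarith
  have hfinL : FiniteDimensional ℂ (H0 L) := H0_finite hK hg L
  let b := Module.finBasis ℂ (H0 L)
  choose q hq using fun i => exists_poly hK hf hgen (b i : K)
  let A : Finset K := Finset.univ.biUnion fun i =>
    (Finset.range ((q i).natDegree + 1)).image fun j => ((q i).coeff j : K)
  have hS2 := finite_bad_set hK f A
  refine ⟨hS2.toFinset, fun c hc v w hv hw hvw α hα1 hα2 => ?_⟩
  rw [Set.Finite.mem_toFinset] at hc
  have hregA : ∀ v, Rs v f c → ∀ a ∈ A, v.val a ≤ 1 := by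
    intro v hv a ha
    by_contra hcon
    exact hc ⟨v, hv, a, ha, hcon⟩
  have hval : ∀ (p : ℂ⟮f⟯[X]), (∀ j ∈ Finset.range (p.natDegree + 1), (p.coeff j : K) ∈ A) →
      ∃ β : ℕ → ℂ, ∀ j, ∀ w : Point K, Rs w f c → Rs w (p.coeff j : K) (β j) := by
    intro p hp
    have h1 : ∀ j, ∃ β : ℂ, ∀ w : Point K, Rs w f c → Rs w (p.coeff j : K) β := by
      intro j
      by_cases hj : j ∈ Finset.range (p.natDegree + 1)
      · exact Rs.of_adj hK hf (p.coeff j).2 hv (hregA v hv _ (hp j hj))
      · refine ⟨0, fun w _ => ?_⟩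
        rw [Finset.mem_range, not_lt] at hj
        rw [Polynomial.coeff_eq_zero_of_natDegree_lt (by omega)]
        exact Rs.zero w
    choose β hβ using h1
    exact ⟨β, hβ⟩
  have hqv := fun i => hval (q i) (fun j hj => by
    rw [Finset.mem_biUnion]
    exact ⟨i, Finset.mem_univ _, Finset.mem_image_of_mem _ hj⟩)
  choose β hβ using hqv
  have hb : ∀ i, ∃ γ, Rs v (b i : K) γ ∧ Rs w (b i : K) γ := by
    intro i
    refine ⟨∑ j ∈ Finset.range ((q i).natDegree + 1), β i j * α ^ j, ?_, ?_⟩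
    · rw [hq i]
      exact Rs.aeval_poly hα1 (q i) (β i) (fun j => hβ i j v hv)
    · rw [hq i]
      exact Rs.aeval_poly hα2 (q i) (β i) (fun j => hβ i j w hw)
  choose γ hγ using hb
  -- a section which separates `v` and `w`
  have h1 := Pool.Agent.R858.SMR.h0_of_large hK hg (lsub L v) (by rw [lsub_degree]; omega)
  have h2 := Pool.Agent.R858.SMR.h0_of_large hK hg (lsub (lsub L v) w) (by
    rw [lsub_degree, lsub_degree]; omega)
  rw [lsub_degree (lsub L v)] at h2
  have hnot : ¬ H0 (lsub L v) ≤ H0 (lsub (lsub L v) w) := by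
    intro h
    have hfin : FiniteDimensional ℂ (H0 (lsub (lsub L v) w)) := H0_finite hK hg _
    have := Submodule.finrank_mono h
    omega
  obtain ⟨k, hk1, hk2⟩ := SetLike.not_le_iff_exists.1 hnot
  rw [mem_H0_lsub] at hk2
  have hk3 := (mem_H0_lsub L v k).1 hk1
  have hfr : ∀ u : Point K, Rs u f c → u.val (L.frame u : K) = 1 := by
    intro u hu
    have h3 : u.val ((fu : Kˣ) : K) ≤ 1 := hu.le
    rw [hL, lpow_val, lpole_val, max_eq_left h3, one_pow]
  have hkv : v.val k < 1 := by rw [← hfr v hv]; exact hk3.2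
  have hkw : ¬ w.val k < 1 := by
    intro h
    apply hk2
    refine ⟨hk1, ?_⟩
    rw [lsub_frame_ne L hvw.symm, hfr w hw]
    exact h
  obtain ⟨e, hrep⟩ : ∃ e : Fin (Module.finrank ℂ (H0 L)) → ℂ, k = ∑ i, e i • (b i : K) := by
    refine ⟨fun i => b.repr ⟨k, hk3.1⟩ i, ?_⟩
    have h1 := congrArg (fun x : H0 L => (x : K)) (b.sum_repr ⟨k, hk3.1⟩)
    simp only [Submodule.coe_sum, Submodule.coe_smul] at h1
    exact h1.symm
  have hk : ∃ δ, Rs v k δ ∧ Rs w k δ := by
    refine ⟨∑ i, e i * γ i, ?_, ?_⟩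
    · rw [hrep]
      apply Rs.sum
      intro i _
      rw [Algebra.smul_def]
      exact (Rs.const v _).mul (hγ i).1
    · rw [hrep]
      apply Rs.sum
      intro i _
      rw [Algebra.smul_def]
      exact (Rs.const w _).mul (hγ i).2
  obtain ⟨δ, hδ1, hδ2⟩ := hk
  exact hkw (hδ2.lt_iff.2 (hδ1.lt_iff.1 hkv))

/-- the linear system of `L` has no base points -/
def BPF (L : LineBundle K) : Prop :=
  ∀ v, Module.finrank ℂ (H0 (lsub L v)) < Module.finrank ℂ (H0 L)

/-- the linear system of `L` defines a map which is birational onto its image -/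
def Simple (L : LineBundle K) : Prop :=
  ∀ E : IntermediateField ℂ K, (∀ s ∈ H0 L, ∀ t ∈ H0 L, s / t ∈ E) → E = ⊤

theorem finite_fibre (hK : IsCurve K) {f : K} (hf : Transcendental ℂ f) (c : ℂ) :
    {v : Point K | Rs v f c}.Finite := by
  obtain ⟨T, hT, -⟩ := zero_count_aux hK (transc_sub_const hf c)
  refine T.finite_toSet.subset fun v hv => ?_
  exact (hT v).2 hv

/-- a property which holds over almost all values of `f` holds at almost all points -/
theorem generic_of (hK : IsCurve K) {f : K} (hf : Transcendental ℂ f) (S : Finset ℂ)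
    (P : Point K → Prop) (h : ∀ c, c ∉ S → ∀ v, Rs v f c → P v) : {v | ¬ P v}.Finite := by
  refine ((finite_not_reg hK f).union (S.finite_toSet.biUnion fun c _ => finite_fibre hK hf c)).subset ?_
  intro v hv
  by_contra hcon
  rw [Set.mem_union, not_or] at hcon
  obtain ⟨h1, h2⟩ := hcon
  have h3 : v.val f ≤ 1 := by
    by_contra h
    exact h1 h
  obtain ⟨c, hc⟩ := Rs.exists hK h3
  refine hv (h c ?_ v hc)
  intro hcS
  apply h2
  simp only [Set.mem_iUnion]
  exact ⟨c, hcS, hc⟩

/-- a base point free pencil inside `H⁰(L)`, in terms of functions -/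
theorem pencil_fun (hK : IsCurve K) (hg : genus K ≠ 0) {L : LineBundle K}
    (h2 : 2 ≤ Module.finrank ℂ (H0 L)) (hb : BPF L) :
    ∃ a0 f : K, a0 ≠ 0 ∧ Transcendental ℂ f ∧ a0 ∈ H0 L ∧ a0 * f ∈ H0 L ∧
      ∀ v : Point K, v.val (L.frame v : K) = v.val a0 * max 1 (v.val f) := by
  have hpos := degree_pos hK hg h2
  obtain ⟨a0, ha0, a1, ha1, hli, hgen⟩ := Pool.Agent.TH186.Low.exists_pencil hK hg L hpos hb
  have ha00 : a0 ≠ 0 := by
    rintro rfl
    exact one_ne_zero (hli 1 0 (by simp)).1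
  refine ⟨a0, a1 / a0, ha00, ?_, ha0, by rwa [mul_div_cancel₀ _ ha00], ?_⟩
  · by_contra hcon
    obtain ⟨c, hc⟩ := exists_const hcon
    have h1 : a1 = algebraMap ℂ K c * a0 := by
      rw [← hc, div_mul_cancel₀ _ ha00]
    have h2 := (hli (-c) 1 (by rw [h1, Algebra.smul_def, one_smul, map_neg]; ring)).2
    exact one_ne_zero h2
  · intro v
    have h0 : v.val a0 ≤ v.val (L.frame v : K) := ha0 v
    have h1 : v.val a1 ≤ v.val (L.frame v : K) := ha1 v
    have hpos0 := zero_lt_iff.2 (v.val_ne_zero ha00)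
    have h2 : v.val a1 = v.val a0 * v.val (a1 / a0) := by
      rw [map_div₀, mul_div_cancel₀ _ hpos0.ne']
    rcases hgen v with h | h
    · rw [← h] at h1 ⊢
      rw [max_eq_left, mul_one]
      rw [h2] at h1
      by_contra hcon
      rw [not_le] at hcon
      have := (mul_lt_mul_iff_right₀ hpos0).2 hcon
      rw [mul_one] at this
      exact absurd h1 (not_le.2 this)
    · rw [← h] at h0 ⊢
      rw [max_eq_right, h2]
      rw [h2] at h0
      by_contra hcon
      rw [not_le] at hcon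
      have := (mul_lt_mul_iff_right₀ hpos0).2 hcon
      rw [mul_one] at this
      exact absurd h0 (not_le.2 this)

/-- the points of a simple linear series have no partners -/
theorem no_partner (hK : IsCurve K) (hg : genus K ≠ 0) {L : LineBundle K}
    (h2 : 2 ≤ Module.finrank ℂ (H0 L)) (hb : BPF L) (hs : Simple L) :
    {q : Point K | ¬ ∀ w : Point K, w ≠ q → ¬ H0 (lsub L q) ≤ H0 (lsub L w)}.Finite := by
  obtain ⟨a0, f, ha0, hf, hA0, hA1, hfr⟩ := pencil_fun hK hg h2 hb
  let W : Submodule ℂ K := (H0 L).comap (LinearMap.mulLeft ℂ a0)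
  have hWmem : ∀ h, h ∈ W ↔ a0 * h ∈ H0 L := fun h => Iff.rfl
  obtain ⟨h, hhW, hgen⟩ : ∃ h ∈ W, ℂ⟮f⟯⟮h⟯ = ⊤ := by
    by_contra hcon
    push Not at hcon
    obtain ⟨E, hE, hWE⟩ := exists_proper hK hf W hcon
    apply hE
    have h1 := hs (E.restrictScalars ℂ) (by
      intro s hs t ht
      have h3 : s / a0 ∈ E := hWE _ (by rw [hWmem, mul_div_cancel₀ _ ha0]; exact hs)
      have h4 : t / a0 ∈ E := hWE _ (by rw [hWmem, mul_div_cancel₀ _ ha0]; exact ht)
      have h5 : s / t = (s / a0) / (t / a0) := by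
        rw [div_div_div_cancel_right₀ ha0]
      rw [h5]
      exact div_mem h3 h4)
    rw [eq_top_iff]
    intro x _
    have h2 : x ∈ E.restrictScalars ℂ := by rw [h1]; trivial
    exact h2
  have hhle : ∀ v : Point K, v.val h ≤ max 1 (v.val f) := by
    intro v
    have h1 : v.val (a0 * h) ≤ v.val (L.frame v : K) := (hWmem h).1 hhW v
    rw [map_mul, hfr] at h1
    exact (mul_le_mul_iff_right₀ (zero_lt_iff.2 (v.val_ne_zero ha0))).1 h1
  obtain ⟨S, hS⟩ := sep_values hK hg hf hgen
  apply generic_of hK hf S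
  intro c hc q hq w hwq hle
  have hq1 : q.val h ≤ 1 := by
    have := hhle q
    rwa [max_eq_left hq.le] at this
  obtain ⟨α, hα⟩ := Rs.exists hK hq1
  have key : ∀ x : K, (∀ v : Point K, v.val x ≤ max 1 (v.val f)) → q.val x < 1 →
      w.val x < max 1 (w.val f) := by
    intro x hx hx1
    have h1 : a0 * x ∈ H0 (lsub L q) := by
      rw [mem_H0_lsub]
      constructor
      · intro v
        change v.val (a0 * x) ≤ v.val (L.frame v : K)
        rw [map_mul, hfr]
        exact mul_le_mul' le_rfl (hx v)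
      · rw [map_mul, hfr, max_eq_left hq.le]
        exact (mul_lt_mul_iff_right₀ (zero_lt_iff.2 (q.val_ne_zero ha0))).2 hx1
    have h2 := ((mem_H0_lsub L w _).1 (hle h1)).2
    rw [map_mul, hfr] at h2
    exact (mul_lt_mul_iff_right₀ (zero_lt_iff.2 (w.val_ne_zero ha0))).1 h2
  have hsub : ∀ (x : K) (β : ℂ), (∀ v : Point K, v.val x ≤ max 1 (v.val f)) →
      ∀ v : Point K, v.val (x - algebraMap ℂ K β) ≤ max 1 (v.val f) := by
    intro x β hx v
    exact Valuation.map_sub_le _ (hx v) ((v.const_le β).trans (le_max_left _ _))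
  have hf1 := key (f - algebraMap ℂ K c) (hsub f c fun v => le_max_right _ _) hq
  have hwf : w.val f ≤ 1 := by
    by_contra hcon
    rw [not_le] at hcon
    rw [max_eq_right hcon.le] at hf1
    have h3 : w.val (algebraMap ℂ K c) < w.val f := (w.const_le c).trans_lt hcon
    have h4 : w.val (f - algebraMap ℂ K c) = w.val f := by
      rw [sub_eq_add_neg, Valuation.map_add_eq_of_lt_left]
      rwa [Valuation.map_neg]
    rw [h4] at hf1
    exact lt_irrefl _ hf1
  rw [max_eq_left hwf] at hf1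
  have hh1 := key (h - algebraMap ℂ K α) (hsub h α hhle) hα
  rw [max_eq_left hwf] at hh1
  exact hS c hc q w hq hf1 hwq.symm α hα hh1

end Pool.Agent.R858.BN
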