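import Pool.Agent.R858.BN7

/-!
# Projections of simple linear series from general points
-/

open scoped WithZero Polynomial IntermediateField
open WithZero

set_option linter.unusedVariables false
set_option linter.unusedSectionVars false

namespace Pool.Agent.R858.BN

open Pool.Agent.Helper395.CS hiding genus
open Pool.Agent.Helper395.BC
open Pool.Agent.W525.BA
open Pool.Agent.W518.SMR (lpole lpole_val)
open Pool.Agent.W518.PC (lpow)
open Pool.Agent.W45.PCG (lpow_degree)
open Pool.Agent.TH350.J203 (mem_H0_lsub H0_lsub_le val_lsub)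

variable {K : Type} [Field K] [Algebra ℂ K]

/-- the dimension of the space of sections -/
noncomputable abbrev h0 (L : LineBundle K) : ℕ := Module.finrank ℂ (H0 L)

theorem h0_lt (hK : IsCurve K) (hg : genus K ≠ 0) {M N : LineBundle K} (h : H0 N ≤ H0 M) {x : K}
    (hx : x ∈ H0 M) (hx' : x ∉ H0 N) : h0 N < h0 M := by
  have hfin : FiniteDimensional ℂ (H0 M) := H0_finite hK hg M
  exact Submodule.finrank_lt_finrank_of_lt (lt_of_le_of_ne h (fun he => hx' (he ▸ hx)))

theorem finite_zeros (hK : IsCurve K) (M : LineBundle K) {t : K} (ht : t ≠ 0) :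
    {w : Point K | ¬ w.val t = w.val (M.frame w : K)}.Finite := by
  refine (M.finite.union (finite_ord hK t)).subset fun v hv => ?_
  by_contra h
  simp only [Set.mem_union, Set.mem_ofPred_eq, not_or, not_not] at h
  have h2 := (v.val_eq_one_iff ht).2 h.2
  apply hv
  rw [h2, h.1]

theorem exists_pair (hK : IsCurve K) (hg : genus K ≠ 0) {M : LineBundle K} (h : 2 ≤ h0 M) :
    ∃ t f : K, t ≠ 0 ∧ Transcendental ℂ f ∧ t ∈ H0 M ∧ t * f ∈ H0 M := by
  obtain ⟨a0, ha0, a1, ha1, hli⟩ : ∃ a0 ∈ H0 M, ∃ a1 ∈ H0 M,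
      ∀ s t : ℂ, s • a0 + t • a1 = 0 → s = 0 ∧ t = 0 := by
    obtain ⟨v, hv⟩ := exists_linearIndependent_of_le_finrank (R := ℂ) (M := H0 M) h
    refine ⟨v 0, (v 0).2, v 1, (v 1).2, fun s t h => ?_⟩
    have h1 := LinearIndependent.pair_iff.1 (show LinearIndependent ℂ ![v 0, v 1] by
      convert hv using 1
      funext i
      fin_cases i <;> rfl)
    exact h1 s t (Subtype.ext (by simpa using h))
  have ha00 : a0 ≠ 0 := by
    rintro rfl
    exact one_ne_zero (hli 1 0 (by simp)).1
  refine ⟨a0, a1 / a0, ha00, ?_, ha0, by rwa [mul_div_cancel₀ _ ha00]⟩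
  by_contra hcon
  obtain ⟨c, hc⟩ := exists_const hcon
  have h1 : a1 = algebraMap ℂ K c * a0 := by
    rw [← hc, div_mul_cancel₀ _ ha00]
  have h2 := (hli (-c) 1 (by rw [h1, Algebra.smul_def, one_smul, map_neg]; ring)).2
  exact one_ne_zero h2

/-- vanishing at a general point, twice, imposes two conditions -/
theorem ramify (hK : IsCurve K) (hg : genus K ≠ 0) {M : LineBundle K} (h : 2 ≤ h0 M) :
    {w : Point K | ¬ h0 (lsub (lsub M w) w) + 2 ≤ h0 M}.Finite := by
  obtain ⟨t, f, ht, hf, hM0, hM1⟩ := exists_pair hK hg h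
  obtain ⟨S, hS⟩ := Pool.Agent.TH350.J203.unram hK hf
  have h1 := generic_of hK hf S (fun v => ∃ c, Rs v f c ∧ v.val (f - algebraMap ℂ K c) = exp (-1))
    (fun c hc v hv => ⟨c, hv, hS c hc v hv⟩)
  refine (h1.union (finite_zeros hK M ht)).subset ?_
  intro w hw
  by_contra hcon
  simp only [Set.mem_union, Set.mem_ofPred_eq, not_or, not_not] at hcon
  obtain ⟨⟨c, hc, hc'⟩, htw⟩ := hcon
  apply hw
  have hpos : 0 < w.val (M.frame w : K) := frame_pos M w
  have hx1 : t * (f - algebraMap ℂ K c) ∈ H0 M := by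
    have h2 : t * (f - algebraMap ℂ K c) = t * f - c • t := by rw [Algebra.smul_def]; ring
    rw [h2]
    exact Submodule.sub_mem _ hM1 (Submodule.smul_mem _ _ hM0)
  have hval : w.val (t * (f - algebraMap ℂ K c)) = w.val (M.frame w : K) * exp (-1) := by
    rw [map_mul, htw, hc']
  have hlt : w.val (M.frame w : K) * exp (-1) < w.val (M.frame w : K) := by
    calc w.val (M.frame w : K) * exp (-1) < w.val (M.frame w : K) * 1 := by
          refine (mul_lt_mul_iff_right₀ hpos).2 ?_
          rw [← exp_zero, exp_lt_exp]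
          norm_num
      _ = _ := mul_one _
  have a1 : h0 (lsub M w) < h0 M := by
    refine h0_lt hK hg (H0_lsub_le M w) hM0 ?_
    rw [mem_H0_lsub]
    rintro ⟨-, h⟩
    rw [htw] at h
    exact lt_irrefl _ h
  have hx2 : t * (f - algebraMap ℂ K c) ∈ H0 (lsub M w) := by
    rw [mem_H0_lsub]
    exact ⟨hx1, by rw [hval]; exact hlt⟩
  have a2 : h0 (lsub (lsub M w) w) < h0 (lsub M w) := by
    refine h0_lt hK hg (H0_lsub_le _ w) hx2 ?_
    rw [mem_H0_lsub]
    rintro ⟨-, h⟩
    rw [val_lsub, if_pos rfl, hval] at h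
    exact lt_irrefl _ h
  omega

/-- the projection from a general point has no base points -/
theorem bpf_lsub (hK : IsCurve K) (hg : genus K ≠ 0) {L : LineBundle K} (h2 : 2 ≤ h0 L)
    (hb : BPF L) (hs : Simple L) : {p : Point K | ¬ BPF (lsub L p)}.Finite := by
  refine ((no_partner hK hg h2 hb hs).union (ramify hK hg h2)).subset ?_
  intro p hp
  by_contra hcon
  simp only [Set.mem_union, Set.mem_ofPred_eq, not_or, not_not] at hcon
  obtain ⟨h3, h4⟩ := hcon
  apply hp
  intro w
  rcases eq_or_ne w p with rfl | hw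
  · have h5 := h0_lsub hK hg L w
    change h0 (lsub (lsub L w) w) < h0 (lsub L w)
    change h0 L ≤ h0 (lsub L w) + 1 at h5
    omega
  · obtain ⟨x, hx1, hx2⟩ := SetLike.not_le_iff_exists.1 (h3 w hw)
    refine h0_lt hK hg (H0_lsub_le _ w) hx1 ?_
    intro h5
    apply hx2
    rw [mem_H0_lsub] at h5 ⊢
    refine ⟨H0_lsub_le _ _ h5.1, ?_⟩
    rw [← lsub_frame_ne L hw]
    exact h5.2

theorem not_countable (hK : IsCurve K) {f : K} (hf : Transcendental ℂ f) {B : Set (Point K)}
    (hB : B.Countable) : ∃ q, q ∉ B := by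
  by_contra hcon
  push Not at hcon
  choose v hv using fun c => exists_point hK hf c
  have hinj : Function.Injective v := by
    intro a b hab
    have h1 := hv a
    rw [hab] at h1
    exact point_injective h1 (hv b)
  have h1 : (Set.univ : Set (Point K)).Countable := hB.mono fun q _ => hcon q
  have h2 : Countable (Point K) := Set.countable_univ_iff.1 h1
  have h3 : Countable ℂ := hinj.countable
  exact not_countable_complex Set.countable_univ

theorem partners' (hK : IsCurve K) (hg : genus K ≠ 0) {f : K} (hf : Transcendental ℂ f)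
    (E : IntermediateField ℂ K) (hE : E ≠ ⊤) (hfE : f ∈ E) :
    {v : Point K | ¬ ∃ w : Point K, w ≠ v ∧ ∀ x ∈ E, w.val x = v.val x}.Finite := by
  have hle : ℂ⟮f⟯ ≤ E := by
    rw [IntermediateField.adjoin_simple_le_iff]
    exact hfE
  have h1 := partners hK hg hf (IntermediateField.extendScalars hle) (by
    intro h
    apply hE
    rw [eq_top_iff]
    intro x _
    have h2 : x ∈ IntermediateField.extendScalars hle := by rw [h]; trivial
    rwa [IntermediateField.mem_extendScalars] at h2)
  refine h1.subset ?_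
  intro v hv h2
  apply hv
  obtain ⟨w, hw, hw'⟩ := h2
  exact ⟨w, hw, fun x hx => hw' x (by rwa [IntermediateField.mem_extendScalars])⟩

theorem frame_lsub_le (L : LineBundle K) (p v : Point K) :
    v.val ((lsub L p).frame v : K) ≤ v.val (L.frame v : K) := by
  rcases eq_or_ne v p with rfl | h
  · exact (val_lsub_lt L v).le
  · rw [lsub_frame_ne L h]

/-- the projection of a simple linear series from a general point is simple -/
theorem simple_lsub (hK : IsCurve K) (hg : genus K ≠ 0) {L : LineBundle K} (h4 : 4 ≤ h0 L)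
    (hb : BPF L) (hs : Simple L) : {p : Point K | ¬ Simple (lsub L p)}.Finite := by
  classical
  by_contra hinf
  have h2 : 2 ≤ Module.finrank ℂ (H0 L) := by
    change 2 ≤ h0 L
    omega
  have hinf2 : ({p : Point K | ¬ Simple (lsub L p)} \ {p | ¬ BPF (lsub L p)}).Infinite :=
    Set.Infinite.sdiff hinf (bpf_lsub hK hg (by omega) hb hs)
  let P : ℕ → Point K := fun n => hinf2.natEmbedding _ n
  have hPinj : Function.Injective P := fun a b hab =>
    (hinf2.natEmbedding _).injective (Subtype.ext hab)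
  have hPs : ∀ n, ¬ Simple (lsub L (P n)) := fun n => ((hinf2.natEmbedding _ n).2).1
  have hPb : ∀ n, BPF (lsub L (P n)) := fun n => by
    have := ((hinf2.natEmbedding _ n).2).2
    simpa using this
  have hE : ∀ n, ∃ E : IntermediateField ℂ K, E ≠ ⊤ ∧
      ∀ s ∈ H0 (lsub L (P n)), ∀ t ∈ H0 (lsub L (P n)), s / t ∈ E := by
    intro n
    have := hPs n
    unfold Simple at this
    push Not at this
    obtain ⟨E, h1, h2⟩ := this
    exact ⟨E, h2, h1⟩
  choose E hE1 hE2 using hE
  have hbad : ∀ n, {v : Point K | ¬ ∃ w : Point K, w ≠ v ∧ ∀ x ∈ E n, w.val x = v.val x}.Finite := by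
    intro n
    have h5 : 2 ≤ h0 (lsub L (P n)) := by
      have := h0_lsub hK hg L (P n)
      change h0 L ≤ h0 (lsub L (P n)) + 1 at this
      omega
    obtain ⟨t, f, ht, hf, hM0, hM1⟩ := exists_pair hK hg h5
    have hfE : f ∈ E n := by
      have := hE2 n _ hM1 _ hM0
      rwa [mul_div_cancel_left₀ _ ht] at this
    exact partners' hK hg hf (E n) (hE1 n) hfE
  obtain ⟨t0, f0, -, hf0, -, -⟩ := exists_pair hK hg (M := L) (show 2 ≤ h0 L by omega)
  have hcount : ((⋃ n, {v : Point K | ¬ ∃ w : Point K, w ≠ v ∧ ∀ x ∈ E n, w.val x = v.val x}) ∪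
      ({q : Point K | ¬ ∀ w : Point K, w ≠ q → ¬ H0 (lsub L q) ≤ H0 (lsub L w)} ∪
      {w : Point K | ¬ h0 (lsub (lsub L w) w) + 2 ≤ h0 L})).Countable := by
    refine (Set.countable_iUnion fun n => (hbad n).countable).union
      ((no_partner hK hg h2 hb hs).countable.union (ramify hK hg h2).countable)
  obtain ⟨q, hq⟩ := not_countable hK hf0 hcount
  simp only [Set.mem_union, Set.mem_iUnion, Set.mem_ofPred_eq, not_or, not_exists, not_not] at hq
  obtain ⟨hq1', hq2, hq3⟩ := hq
  have hq1 : ∀ n, ∃ w : Point K, w ≠ q ∧ ∀ x ∈ E n, w.val x = q.val x := fun n =>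
    not_forall_not.1 (hq1' n)
  choose w hwq hw using hq1
  -- elements which generate at `q`
  have hgen : ∀ n, ∃ t ∈ H0 (lsub L (P n)), q.val t = q.val ((lsub L (P n)).frame q : K) := by
    intro n
    have h5 := hPb n q
    have hnot : ¬ H0 (lsub L (P n)) ≤ H0 (lsub (lsub L (P n)) q) := by
      intro h
      have hfin : FiniteDimensional ℂ (H0 (lsub (lsub L (P n)) q)) := H0_finite hK hg _
      have := Submodule.finrank_mono h
      omega
    obtain ⟨t, ht1, ht2⟩ := SetLike.not_le_iff_exists.1 hnot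
    refine ⟨t, ht1, ?_⟩
    rw [mem_H0_lsub, not_and] at ht2
    exact le_antisymm (ht1 q) (not_lt.1 (ht2 ht1))
  choose t ht1 ht2 using hgen
  have htq : ∀ n, 0 < q.val (t n) := fun n => by rw [ht2]; exact frame_pos _ q
  have ht0 : ∀ n, t n ≠ 0 := fun n h => by
    have := htq n
    rw [h, map_zero] at this
    exact lt_irrefl _ this
  have trans : ∀ n, ∀ s ∈ H0 (lsub L (P n)), ∀ γ : ℤᵐ⁰,
      q.val s < q.val ((lsub L (P n)).frame q : K) * γ →
      (w n).val s < (w n).val (L.frame (w n) : K) * γ := by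
    intro n s hs γ hlt
    have hx := hw n _ (hE2 n s hs (t n) (ht1 n))
    rw [map_div₀, map_div₀] at hx
    have h5 : q.val s / q.val (t n) < γ := by
      rw [div_lt_iff₀ (htq n), mul_comm, ht2]
      exact hlt
    rw [← hx] at h5
    have hpos : 0 < (w n).val (t n) := zero_lt_iff.2 ((w n).val_ne_zero (ht0 n))
    rw [div_lt_iff₀ hpos] at h5
    have h6 : (w n).val (t n) ≤ (w n).val (L.frame (w n) : K) :=
      (ht1 n (w n)).trans (frame_lsub_le L (P n) (w n))
    calc (w n).val s < γ * (w n).val (t n) := h5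
      _ ≤ γ * (w n).val (L.frame (w n) : K) := mul_le_mul' le_rfl h6
      _ = _ := mul_comm _ _
  have hN1 : ∀ p, h0 L ≤ h0 (lsub L p) + 1 := fun p => h0_lsub hK hg L p
  -- the set of partners is infinite or not
  by_cases hfin : (Set.range w).Finite
  · obtain ⟨w0, hw0⟩ : ∃ w0, (w ⁻¹' {w0}).Infinite := by
      by_contra hcon
      push Not at hcon
      have h5 : (Set.univ : Set ℕ).Finite := by
        have h6 : (⋃ x ∈ Set.range w, w ⁻¹' {x}) = Set.univ := by
          ext n
          simp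
        rw [← h6]
        exact hfin.biUnion fun x _ => hcon x
      exact Set.infinite_univ h5
    have hw0q : w0 ≠ q := by
      obtain ⟨n, hn⟩ := hw0.nonempty
      have : w n = w0 := hn
      rw [← this]
      exact hwq n
    -- `H⁰(L - q - w0)` has dimension `h⁰(L) - 2`
    have hd1 : h0 (lsub (lsub L q) w0) + 2 ≤ h0 L := by
      obtain ⟨x, hx1, hx2⟩ := SetLike.not_le_iff_exists.1 (hq2 w0 hw0q)
      have h5 : h0 (lsub (lsub L q) w0) < h0 (lsub L q) := by
        refine h0_lt hK hg (H0_lsub_le _ _) hx1 ?_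
        intro h5
        apply hx2
        rw [mem_H0_lsub] at h5 ⊢
        refine ⟨H0_lsub_le _ _ h5.1, ?_⟩
        rw [← lsub_frame_ne L hw0q]
        exact h5.2
      have h6 : h0 (lsub L q) < h0 L := hb q
      omega
    have hle : ∀ n, w n = w0 → H0 (lsub (lsub L (P n)) q) ≤ H0 (lsub (lsub L q) w0) := by
      intro n hn s hs
      have hs' := (mem_H0_lsub _ _ _).1 hs
      have h5 := trans n s hs'.1 1 (by rw [mul_one]; exact hs'.2)
      rw [mul_one, hn] at h5
      rw [mem_H0_lsub, mem_H0_lsub]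
      exact ⟨⟨H0_lsub_le _ _ hs'.1, hs'.2.trans_le (frame_lsub_le L (P n) q)⟩, by
        rw [lsub_frame_ne L hw0q]; exact h5⟩
    have hfd : FiniteDimensional ℂ (H0 (lsub (lsub L q) w0)) := H0_finite hK hg _
    have heq : ∀ n, w n = w0 → H0 (lsub (lsub L (P n)) q) = H0 (lsub (lsub L q) w0) := by
      intro n hn
      apply Submodule.eq_of_le_of_finrank_le (hle n hn)
      have h5 := h0_lsub hK hg (lsub L (P n)) q
      have h6 := hN1 (P n)
      change h0 (lsub L (P n)) ≤ h0 (lsub (lsub L (P n)) q) + 1 at h5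
      change h0 (lsub (lsub L q) w0) ≤ h0 (lsub (lsub L (P n)) q)
      omega
    have hpos : 0 < h0 (lsub (lsub L q) w0) := by
      have h5 := hN1 q
      have h6 := h0_lsub hK hg (lsub L q) w0
      change h0 (lsub L q) ≤ h0 (lsub (lsub L q) w0) + 1 at h6
      omega
    have := Module.nontrivial_of_finrank_pos hpos
    obtain ⟨⟨s, hs⟩, hs0⟩ := exists_ne (0 : H0 (lsub (lsub L q) w0))
    have hs0' : s ≠ 0 := fun h => hs0 (Subtype.ext h)
    have hz := finite_zeros hK L hs0'
    have himg : (P '' (w ⁻¹' {w0})).Infinite := hw0.image hPinj.injOn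
    apply himg
    refine hz.subset ?_
    rintro _ ⟨n, hn, rfl⟩
    have hn' : w n = w0 := hn
    rw [← heq n hn'] at hs
    have h5 := (mem_H0_lsub _ _ _).1 (H0_lsub_le _ _ hs)
    exact h5.2.ne
  · -- infinitely many tangent lines meet the tangent line at `q`
    have hM2 : 2 ≤ h0 (lsub (lsub L q) q) := by
      have h5 := hN1 q
      have h6 := h0_lsub hK hg (lsub L q) q
      change h0 (lsub L q) ≤ h0 (lsub (lsub L q) q) + 1 at h6
      omega
    have hram := ramify hK hg hM2
    obtain ⟨x, ⟨n, rfl⟩, hx⟩ := (Set.Infinite.sdiff hfin hram).nonempty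
    simp only [Set.mem_ofPred_eq, not_not] at hx
    have hle : H0 (lsub (lsub (lsub L (P n)) q) q) ≤
        H0 (lsub (lsub (lsub (lsub L q) q) (w n)) (w n)) := by
      intro s hs
      have hs1 := (mem_H0_lsub _ _ _).1 hs
      have hs2 := (mem_H0_lsub _ _ _).1 hs1.1
      have hs3 := hs1.2
      rw [val_lsub, if_pos rfl] at hs3
      have h5 := trans n s hs2.1 (exp (-1)) hs3
      have h6 := trans n s hs2.1 1 (by rw [mul_one]; exact hs2.2)
      rw [mul_one] at h6
      have hfrw : (w n).val ((lsub (lsub L q) q).frame (w n) : K) = (w n).val (L.frame (w n) : K) := by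
        rw [lsub_frame_ne _ (hwq n), lsub_frame_ne _ (hwq n)]
      rw [mem_H0_lsub, mem_H0_lsub, mem_H0_lsub, mem_H0_lsub]
      refine ⟨⟨⟨⟨H0_lsub_le _ _ hs2.1, hs2.2.trans_le (frame_lsub_le L (P n) q)⟩, ?_⟩, ?_⟩, ?_⟩
      · rw [val_lsub, if_pos rfl]
        exact hs3.trans_le (mul_le_mul' (frame_lsub_le L (P n) q) le_rfl)
      · rw [hfrw]
        exact h6
      · rw [val_lsub, if_pos rfl, hfrw]
        exact h5
    have hfd : FiniteDimensional ℂ (H0 (lsub (lsub (lsub (lsub L q) q) (w n)) (w n))) :=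
      H0_finite hK hg _
    have h5 : h0 (lsub (lsub (lsub L (P n)) q) q) ≤
      h0 (lsub (lsub (lsub (lsub L q) q) (w n)) (w n)) := Submodule.finrank_mono hle
    have h6 := hN1 (P n)
    have h7 := h0_lsub hK hg (lsub L (P n)) q
    have h8 := h0_lsub hK hg (lsub (lsub L (P n)) q) q
    change h0 (lsub L (P n)) ≤ h0 (lsub (lsub L (P n)) q) + 1 at h7
    change h0 (lsub (lsub L (P n)) q) ≤ h0 (lsub (lsub (lsub L (P n)) q) q) + 1 at h8
    omega

end Pool.Agent.R858.BN
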