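import Pool.Agent.R858.BN8

/-!
# Castelnuovo's bound
-/

open scoped WithZero Polynomial IntermediateField
open WithZero

set_option linter.unusedVariables false
set_option linter.unusedSectionVars false

namespace Pool.Agent.R858.BN

open Pool.Agent.Helper395.CS hiding genus
open Pool.Agent.Helper395.BC
open Pool.Agent.W525.BA
open Pool.Agent.W518.SMR (lpole lpole_val)
open Pool.Agent.W518.PC (lpow)
open Pool.Agent.W45.PCG (lpow_degree)
open Pool.Agent.TH350.J203 (mem_H0_lsub H0_lsub_le val_lsub)
open Pool.Agent.TH186.Low (pmap pencil_trick range_pmap_le)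

variable {K : Type} [Field K] [Algebra ℂ K]

theorem h0_lsub' (hK : IsCurve K) (hg : genus K ≠ 0) (L : LineBundle K) (p : Point K) :
    h0 L ≤ h0 (lsub L p) + 1 := h0_lsub hK hg L p

/-- general points impose independent conditions -/
theorem generic_cond (hK : IsCurve K) (hg : genus K ≠ 0) (X : LineBundle K) :
    {p : Point K | ¬ h0 (lsub X p) = h0 X - 1}.Finite := by
  rcases Nat.eq_zero_or_pos (h0 X) with h | h
  · refine (Set.finite_empty).subset ?_
    intro p hp
    apply hp
    have hfin : FiniteDimensional ℂ (H0 X) := H0_finite hK hg X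
    have h1 : h0 (lsub X p) ≤ h0 X := Submodule.finrank_mono (H0_lsub_le X p)
    omega
  · have := Module.nontrivial_of_finrank_pos h
    obtain ⟨⟨s, hs⟩, hs0⟩ := exists_ne (0 : H0 X)
    have hs0' : s ≠ 0 := fun h => hs0 (Subtype.ext h)
    refine (finite_zeros hK X hs0').subset ?_
    intro p hp hcon
    apply hp
    have h1 := h0_lsub' hK hg X p
    have h2 : h0 (lsub X p) < h0 X := by
      refine h0_lt hK hg (H0_lsub_le X p) hs ?_
      rw [mem_H0_lsub]
      rintro ⟨-, h3⟩
      rw [hcon] at h3
      exact lt_irrefl _ h3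
    omega

theorem general_points (hK : IsCurve K) (hg : genus K ≠ 0) {L : LineBundle K} {r : ℕ}
    (hr : h0 L = r + 1) (hr2 : 2 ≤ r) (hb : BPF L) (hs : Simple L) {ι : Type} [Finite ι]
    (X : ι → LineBundle K) : ∀ k, k + 1 ≤ r → ∃ l : List (Point K), l.length = k ∧
      BPF (lsubl L l) ∧ h0 (lsubl L l) = r + 1 - k ∧ (k + 2 ≤ r → Simple (lsubl L l)) ∧
      ∀ i, h0 (lsubl (X i) l) = h0 (X i) - k := by
  intro k
  induction k with
  | zero => exact fun _ => ⟨[], rfl, hb, by change h0 L = _; rw [hr]; rfl, fun _ => hs, fun i => rfl⟩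
  | succ k ih =>
    intro hk
    obtain ⟨l, hl, hbl, hrl, hsl, hXl⟩ := ih (by omega)
    have hs' : Simple (lsubl L l) := hsl (by omega)
    have h2 : 2 ≤ h0 (lsubl L l) := by omega
    have f1 := bpf_lsub hK hg h2 hbl hs'
    have f2 : {p : Point K | ¬ (k + 3 ≤ r → Simple (lsub (lsubl L l) p))}.Finite := by
      by_cases h3 : k + 3 ≤ r
      · refine (simple_lsub hK hg (L := lsubl L l) (by omega) hbl hs').subset ?_
        intro p hp h4
        exact hp fun _ => h4
      · refine Set.finite_empty.subset ?_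
        intro p hp
        exact hp fun h => absurd h h3
    have f3 : (⋃ i, {p : Point K | ¬ h0 (lsub (lsubl (X i) l) p) = h0 (lsubl (X i) l) - 1}).Finite :=
      Set.finite_iUnion fun i => generic_cond hK hg _
    have hinf := infinite_points hK
    obtain ⟨p, hp⟩ := (f1.union (f2.union f3)).exists_notMem
    simp only [Set.mem_union, Set.mem_iUnion, Set.mem_ofPred_eq, not_or, not_exists, not_not] at hp
    obtain ⟨p1, p2, p3⟩ := hp
    refine ⟨p :: l, by rw [List.length_cons, hl], ?_, ?_, ?_, ?_⟩
    · rw [lsubl_cons]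
      exact p1
    · rw [lsubl_cons]
      have h5 := h0_lsub' hK hg (lsubl L l) p
      have h6 : h0 (lsub (lsubl L l) p) < h0 (lsubl L l) := hbl p
      omega
    · intro h7
      rw [lsubl_cons]
      exact p2 (by omega)
    · intro i
      rw [lsubl_cons, p3 i, hXl i]
      omega

/-- the divisor of the points of `l`, as local equations -/
noncomputable def dv (l : List (Point K)) (v : Point K) : ℤᵐ⁰ := by
  classical
  exact (l.map fun w => if v = w then exp (-1) else 1).prod

theorem val_lsubl (L : LineBundle K) (l : List (Point K)) (v : Point K) :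
    v.val ((lsubl L l).frame v : K) = v.val (L.frame v : K) * dv l v := by
  classical
  induction l with
  | nil => simp [lsubl, dv]
  | cons w l ih =>
    rw [lsubl_cons, val_lsub, ih]
    simp only [dv, List.map_cons, List.prod_cons]
    split_ifs <;> simp only [mul_assoc, mul_comm, mul_left_comm]

theorem dv_ne_zero (l : List (Point K)) (v : Point K) : dv l v ≠ 0 := by
  have h := val_lsubl (one K) l v
  intro h0
  rw [h0, mul_zero] at h
  exact v.val_ne_zero ((lsubl (one K) l).frame v).ne_zero h

theorem lpow_val' (L : LineBundle K) (n : ℤ) (v : Point K) :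
    v.val ((lpow L n).frame v : K) = v.val (L.frame v : K) ^ n := by
  change v.val (((L.frame v) ^ n : Kˣ) : K) = _
  rw [Units.val_zpow_eq_zpow_val, map_zpow₀]

theorem lmul_val (L M : LineBundle K) (v : Point K) :
    v.val ((lmul L M).frame v : K) = v.val (L.frame v : K) * v.val (M.frame v : K) := by
  change v.val (((L.frame v) * (M.frame v) : Kˣ) : K) = _
  rw [Units.val_mul, map_mul]

theorem linv_val (L : LineBundle K) (v : Point K) :
    v.val ((linv L).frame v : K) = (v.val (L.frame v : K))⁻¹ := by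
  change v.val (((L.frame v)⁻¹ : Kˣ) : K) = _
  rw [Units.val_inv_eq_inv_val, map_inv₀]

theorem h0_congr {L M : LineBundle K}
    (h : ∀ v : Point K, v.val (L.frame v : K) = v.val (M.frame v : K)) : h0 L = h0 M := by
  rw [h0, h0, H0_congr_val h]

theorem h0_mul_ge (hK : IsCurve K) (hg : genus K ≠ 0) {L M : LineBundle K} (hL : 0 < h0 L) :
    h0 M ≤ h0 (lmul L M) := by
  have := Module.nontrivial_of_finrank_pos hL
  obtain ⟨⟨s, hs⟩, hs0⟩ := exists_ne (0 : H0 L)
  have hs0' : s ≠ 0 := fun h => hs0 (Subtype.ext h)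
  have hfin : FiniteDimensional ℂ (H0 (lmul L M)) := H0_finite hK hg _
  have hfinM : FiniteDimensional ℂ (H0 M) := H0_finite hK hg _
  let φ : H0 M →ₗ[ℂ] K := (LinearMap.mulLeft ℂ s).comp (Submodule.subtype (H0 M))
  have hinj : Function.Injective φ := by
    intro x y hxy
    exact Subtype.ext (mul_left_cancel₀ hs0' hxy)
  rw [h0, ← LinearMap.finrank_range_of_inj hinj]
  apply Submodule.finrank_mono
  rintro _ ⟨x, rfl⟩
  exact Pool.Agent.R858.SMR.mul_mem_H0 hs x.2

/-- Castelnuovo's number `π(d, r) = ∑_{k ≥ 1} max (0, d - 1 - k (r - 1))` -/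
def castel (d r : ℕ) : ℕ := ∑ k ∈ Finset.range d, (d - 1 - (k + 1) * (r - 1))

theorem castel_mono {d d' r : ℕ} (h : d ≤ d') : castel d r ≤ castel d' r := by
  unfold castel
  calc ∑ k ∈ Finset.range d, (d - 1 - (k + 1) * (r - 1))
      ≤ ∑ k ∈ Finset.range d, (d' - 1 - (k + 1) * (r - 1)) := by
        apply Finset.sum_le_sum
        intro k _
        omega
    _ ≤ ∑ k ∈ Finset.range d', (d' - 1 - (k + 1) * (r - 1)) := by
        apply Finset.sum_le_sum_of_subset
        exact Finset.range_mono h

theorem castel_eq {d r n : ℕ} (hr : 2 ≤ r) (hn : d ≤ n) :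
    ∑ k ∈ Finset.range n, (d - 1 - (k + 1) * (r - 1)) = castel d r := by
  unfold castel
  symm
  apply Finset.sum_subset (Finset.range_mono hn)
  intro k _ hk
  rw [Finset.mem_range, not_lt] at hk
  have h1 : k + 1 ≤ (k + 1) * (r - 1) := Nat.le_mul_of_pos_right _ (by omega)
  omega

/-- Castelnuovo's bound for the genus of a curve with a simple complete linear series -/
theorem castelnuovo (hK : IsCurve K) (hg : genus K ≠ 0) {L : LineBundle K} {r d : ℕ}
    (hr : h0 L = r + 1) (hr2 : 2 ≤ r) (hd : L.degree = d) (hb : BPF L) (hs : Simple L) :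
    genus K ≤ castel d r := by
  classical
  set x : ℕ → ℕ := fun k => h0 (lpow L k) with hx
  set y : ℕ → ℕ := fun k => h0 (lmul (can hK hg) (lpow L (-(k : ℤ)))) with hy
  have hdpos : 0 < d := by
    have := degree_pos hK hg (L := L) (by change 2 ≤ h0 L; omega)
    omega
  -- Riemann-Roch
  have hRR : ∀ k, (x k : ℤ) = k * d + 1 - genus K + y k := by
    intro k
    have h1 := (rrL hK hg (lpow L (k : ℤ))).2
    have h2 : h0 (lmul (can hK hg) (linv (lpow L (k : ℤ)))) = y k := by
      apply h0_congr
      intro v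
      rw [lmul_val, lmul_val, linv_val, lpow_val', lpow_val', zpow_neg]
    rw [lpow_degree, hd] at h1
    change (x k : ℤ) - (h0 (lmul (can hK hg) (linv (lpow L (k : ℤ)))) : ℤ) = _ at h1
    rw [h2] at h1
    linarith
  have hx1 : x 1 = r + 1 := by
    rw [← hr]
    apply h0_congr
    intro v
    rw [lpow_val', Nat.cast_one, zpow_one]
  have hy0 : y 0 = genus K := by
    rw [← can_h0 hK hg]
    apply h0_congr
    intro v
    rw [lmul_val, lpow_val']
    simp
  have hxge : ∀ k, r + 1 ≤ x (k + 1) := by
    intro k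
    induction k with
    | zero => rw [zero_add, hx1]
    | succ k ih =>
      refine ih.trans ?_
      have h1 := h0_mul_ge hK hg (L := L) (M := lpow L ((k + 1 : ℕ) : ℤ)) (by omega)
      refine h1.trans (le_of_eq ?_)
      apply h0_congr
      intro v
      rw [lmul_val, lpow_val', lpow_val', Nat.cast_succ (k + 1), zpow_add_one₀, mul_comm]
      exact v.val_ne_zero (L.frame v).ne_zero
  -- general points
  set n : ℕ := 2 * genus K + d with hn
  obtain ⟨l, hl, hbl, hrl, -, hXl⟩ := general_points hK hg hr hr2 hb hs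
    (X := fun i : Fin n × Bool => if i.2 then lpow L ((i.1 : ℕ) + 2 : ℕ) else
      lmul (can hK hg) (lpow L (-((i.1 : ℕ) : ℤ)))) (r - 1) (by omega)
  have hXx : ∀ k, k < n → h0 (lsubl (lpow L ((k + 2 : ℕ) : ℤ)) l) = x (k + 2) - (r - 1) := by
    intro k hk
    exact hXl (⟨k, hk⟩, true)
  have hXy : ∀ k, k < n → h0 (lsubl (lmul (can hK hg) (lpow L (-(k : ℤ)))) l) = y k - (r - 1) := by
    intro k hk
    exact hXl (⟨k, hk⟩, false)
  set A := lsubl L l with hA
  have hAd : A.degree = d - (r - 1 : ℕ) := by rw [hA, lsubl_degree, hd, hl]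
  have hA2 : 2 ≤ h0 A := by omega
  obtain ⟨a0, ha0, a1, ha1, hli, hgen⟩ := Pool.Agent.TH186.Low.exists_pencil hK hg A
    (degree_pos hK hg hA2) hbl
  have ha00 : a0 ≠ 0 := by
    rintro rfl
    exact one_ne_zero (hli 1 0 (by simp)).1
  have hstep : ∀ k, k < n → 2 * y (k + 1) ≤ y (k + 2) + (y k - (r - 1)) := by
    intro k hk
    set M := lpow L ((k + 1 : ℕ) : ℤ) with hM
    have h1 := pencil_trick hK hg A M (W := H0 M) le_rfl ha00 hgen
    have h2 : Module.finrank ℂ (LinearMap.range (pmap (H0 M) a0 a1)) ≤ h0 (lmul A M) := by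
      have hfin : FiniteDimensional ℂ (H0 (lmul A M)) := H0_finite hK hg _
      exact Submodule.finrank_mono ((range_pmap_le ha0 ha1).trans
        Pool.Agent.R858.SMR.H0_mul_le)
    have h3 : h0 (lmul A M) = x (k + 2) - (r - 1) := by
      rw [← hXx k hk]
      apply h0_congr
      intro v
      have hne : v.val (L.frame v : K) ≠ 0 := v.val_ne_zero (L.frame v).ne_zero
      rw [lmul_val, hA, val_lsubl, val_lsubl, hM, lpow_val', lpow_val',
        show ((k + 2 : ℕ) : ℤ) = ((k + 1 : ℕ) : ℤ) + 1 by push_cast; ring, zpow_add_one₀ hne]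
      simp only [mul_assoc, mul_comm, mul_left_comm]
    have h4 : (h0 (lmul M (linv A)) : ℤ) = k * d + (r - 1 : ℕ) + 1 - genus K + ((y k - (r - 1) : ℕ) : ℤ) := by
      have h5 := (rrL hK hg (lmul M (linv A))).2
      have h6 : h0 (lmul (can hK hg) (linv (lmul M (linv A)))) = y k - (r - 1) := by
        rw [← hXy k hk]
        apply h0_congr
        intro v
        have hne : v.val (L.frame v : K) ≠ 0 := v.val_ne_zero (L.frame v).ne_zero
        have hdv := dv_ne_zero l v
        rw [lmul_val, linv_val, lmul_val, linv_val, hA, val_lsubl, val_lsubl, lmul_val, hM, lpow_val',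
          lpow_val', show ((k + 1 : ℕ) : ℤ) = (k : ℤ) + 1 by push_cast; ring, zpow_add_one₀ hne,
          zpow_neg]
        field_simp
      rw [lmul_degree, linv_degree, hM, lpow_degree, hd, hAd] at h5
      change (h0 (lmul M (linv A)) : ℤ) - (h0 (lmul (can hK hg) (linv (lmul M (linv A)))) : ℤ) = _ at h5
      rw [h6] at h5
      push_cast at h5 ⊢
      linarith
    have h7 : 2 * x (k + 1) ≤ h0 (lmul A M) + h0 (lmul M (linv A)) := by
      change 2 * x (k + 1) ≤ _ at h1
      change _ ≤ _ + h0 (lmul M (linv A)) at h1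
      omega
    have h8 := hRR (k + 1)
    have h9 := hRR (k + 2)
    have h10 := hxge (k + 1)
    rw [h3] at h7
    have h11 : (2 : ℤ) * x (k + 1) ≤ (x (k + 2) : ℤ) - ((r - 1 : ℕ) : ℤ) + h0 (lmul M (linv A)) := by
      have : ((x (k + 2) - (r - 1) : ℕ) : ℤ) = (x (k + 2) : ℤ) - ((r - 1 : ℕ) : ℤ) := by
        have h12 : x (k + 1 + 1) = x (k + 2) := rfl
        rw [Nat.cast_sub (by omega)]
      rw [← this]
      exact_mod_cast h7
    rw [h4] at h11
    push_cast at h8 h9 h11
    have h12 : (2 : ℤ) * y (k + 1) ≤ y (k + 2) + ((y k - (r - 1) : ℕ) : ℤ) := by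
      linarith
    exact_mod_cast h12
  have hdiff : ∀ k, k < n → y k ≤ y (k + 1) + (d - 1 - (k + 1) * (r - 1)) := by
    intro k
    induction k with
    | zero =>
      intro _
      have h1 := hRR 1
      rw [hx1] at h1
      rw [hy0]
      push_cast at h1
      change genus K ≤ y 1 + _
      rw [zero_add, one_mul]
      omega
    | succ k ih =>
      intro hk
      have h1 := ih (by omega)
      have h2 := hstep k (by omega)
      have h3 : (k + 1 + 1) * (r - 1) = (k + 1) * (r - 1) + (r - 1) := by ring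
      rw [h3]
      change y (k + 1) ≤ y (k + 2) + _
      omega
  have hsum : ∀ m, m ≤ n → y 0 ≤ y m + ∑ k ∈ Finset.range m, (d - 1 - (k + 1) * (r - 1)) := by
    intro m
    induction m with
    | zero => simp
    | succ m ih =>
      intro hm
      have h1 := ih (by omega)
      have h2 := hdiff m (by omega)
      rw [Finset.sum_range_succ]
      omega
  have hyn : y n = 0 := by
    have hdeg : (lmul (can hK hg) (lpow L (-(n : ℤ)))).degree < 0 := by
      rw [lmul_degree, can_degree, lpow_degree, hd]
      have h1 : (2 * genus K : ℤ) ≤ n * d := by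
        have h2 : (n : ℤ) * 1 ≤ n * d := mul_le_mul_of_nonneg_left (by exact_mod_cast hdpos) (by positivity)
        have h3 : (2 * genus K : ℤ) ≤ n := by rw [hn]; push_cast; omega
        linarith
      linarith
    change Module.finrank ℂ (H0 (lmul (can hK hg) (lpow L (-(n : ℤ))))) = 0
    rw [H0_eq_bot hK hdeg, finrank_bot]
  have h1 := hsum n le_rfl
  rw [hyn, hy0, zero_add, castel_eq hr2 (by omega)] at h1
  exact h1

end Pool.Agent.R858.BN
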