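import Pool.Agent.TH186.CliffLB
import Pool.Agent.TH829.PRLemma
import Pool.Agent.R858.BN4

/-!
# Curves with `Cliff_2(C) = Cliff(C)/2 + 2`: the line bundle computing `d_4` and its Serre dual
-/

set_option autoImplicit false

open scoped WithZero Matrix
open Pool.Agent.Helper395.CS hiding genus
open Pool.Agent.Helper395.BC
open Pool.Agent.TH186

namespace Pool.Agent.R858.Ninth

variable {K : Type} [Field K] [Algebra ℂ K]

theorem pr : PRProp := fun _ _ _ => Pool.Agent.TH829.PRL.PR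

/-- the Clifford index bounds all line bundles -/
theorem cliff_line (hK : IsCurve K) (hg : genus K ≠ 0) {γ : ℤ} (h : IsCliff K 1 (γ : ℚ))
    (L : LineBundle K) : l0 L ≤ 1 ∨ γ + 2 * ((l0 L : ℤ) - 1) ≤ L.degree ∨
      (l0 L : ℤ) + genus K ≤ L.degree + 2 := by
  obtain ⟨-, h1⟩ := rrL hK hg L
  set b := Module.finrank ℂ (H0 L) with hb
  set c := Module.finrank ℂ (H0 (lmul (can hK hg) (linv L))) with hc
  change b ≤ 1 ∨ γ + 2 * ((b : ℤ) - 1) ≤ L.degree ∨ (b : ℤ) + genus K ≤ L.degree + 2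
  by_cases h2 : b ≤ 1
  · exact Or.inl h2
  by_cases h3 : c ≤ 1
  · exact Or.inr (Or.inr (by omega))
  refine Or.inr (Or.inl ?_)
  rcases le_or_gt L.degree ((genus K : ℤ) - 1) with h4 | h4
  · have h5 := gam_one_ge hK h L (by change 2 ≤ b; omega) h4
    change (γ : ℚ) ≤ (L.degree : ℚ) - 2 * ((b : ℚ) - 1) at h5
    have h6 : ((γ + 2 * ((b : ℤ) - 1) : ℤ) : ℚ) ≤ (L.degree : ℚ) := by
      push_cast
      linarith
    exact_mod_cast h6
  · have hdeg : (lmul (can hK hg) (linv L)).degree = 2 * (genus K : ℤ) - 2 - L.degree := by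
      rw [lmul_degree, linv_degree, can_degree]
      ring
    have h5 := gam_one_ge hK h (lmul (can hK hg) (linv L)) (by change 2 ≤ c; omega) (by omega)
    change (γ : ℚ) ≤ ((lmul (can hK hg) (linv L)).degree : ℚ) - 2 * ((c : ℚ) - 1) at h5
    have h6 : ((γ + 2 * ((c : ℤ) - 1) : ℤ) : ℚ) ≤ ((lmul (can hK hg) (linv L)).degree : ℚ) := by
      push_cast
      linarith
    have h7 : γ + 2 * ((c : ℤ) - 1) ≤ (lmul (can hK hg) (linv L)).degree := by exact_mod_cast h6
    omega

/-- Curves for which `Cliff_2` has the value `Cliff / 2 + 2` have a `g^4_{Cliff + 8}`. -/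
theorem exists_four (hK : IsCurve K) {γ : ℤ} (hγ : 5 ≤ γ) (hγ2 : 2 * γ + 1 ≤ genus K)
    (h1 : IsCliff K 1 (γ : ℚ)) (h2 : IsCliff K 2 ((γ : ℚ) / 2 + 2)) :
    ∃ L : LineBundle K, L.degree = γ + 8 ∧ l0 L = 5 := by
  have hg : genus K ≠ 0 := by omega
  obtain ⟨E, hE, hEγ⟩ := h2.1
  have hdeg : E.degree = γ + 2 * (h0 E : ℤ) := by
    unfold gam at hEγ
    push_cast at hEγ
    have h3 : (E.degree : ℚ) = ((γ + 2 * (h0 E : ℤ) : ℤ) : ℚ) := by
      push_cast
      unfold h0
      linarith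
    exact_mod_cast h3
  have h4 : 4 ≤ h0 E := hE.sections
  have hsl : E.degree ≤ 2 * (genus K : ℤ) - 2 := by
    have h3 := hE.slope
    push_cast at h3
    have h5 : (E.degree : ℚ) ≤ ((2 * (genus K : ℤ) - 2 : ℤ) : ℚ) := by
      push_cast
      linarith
    exact_mod_cast h5
  have hN : NoLine E := by
    intro X i hX
    by_contra hX2
    have h3 := hE.semistable 1 X i (by norm_num) hX
    have hXd : 2 * X.degree ≤ E.degree := by
      push_cast at h3
      have h5 : ((2 * X.degree : ℤ) : ℚ) ≤ (E.degree : ℚ) := by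
        push_cast
        linarith
      exact_mod_cast h5
    obtain ⟨Y, P, hQ⟩ := exists_quot (q := 1) hK hX (by norm_num)
    have h5 := hQ.degree hK
    have h6 := hQ.h0_le hK hg
    have h7 := cliff_line hK hg h1 X.det
    have h8 := cliff_line hK hg h1 Y.det
    rw [← h0_one, Pool.Agent.W525.BNK.det_one_degree] at h7 h8
    omega
  have h5 := pr2 pr hK hg hN (by omega)
  have h6 := cliff_line hK hg h1 E.det
  have h7 : E.det.degree = E.degree := rfl
  refine ⟨E.det, ?_, ?_⟩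
  · omega
  · omega

end Pool.Agent.R858.Ninth
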