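import Pool.Agent.R858.QD2

/-!
# The points above a point and the norm
-/

open scoped WithZero Polynomial IntermediateField
open WithZero IsDedekindDomain

set_option linter.unusedVariables false
set_option linter.unusedSectionVars false
set_option linter.style.haveILetI false

namespace Pool.Agent.R858.Nm

open Pool.Agent.Helper395.CS hiding genus map_mul map_inv
open Pool.Agent.Helper395.BC
open Pool.Agent.R858.BN

section

variable {F : Type} [Field F] [Algebra ℂ F]

/-- the local ring at `p` -/
abbrev Loc (p : Point F) : ValuationSubring F := p.val.valuationSubring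

theorem mem_Loc (p : Point F) (z : F) : z ∈ Loc p ↔ p.val z ≤ 1 := Iff.rfl

instance loc_pir (p : Point F) : IsPrincipalIdealRing (Loc p) := by
  classical
  constructor
  intro I
  by_cases hI : I = ⊥
  · rw [hI]
    exact ⟨⟨0, by simp⟩⟩
  obtain ⟨a0, ha0, ha00⟩ := Submodule.exists_mem_ne_zero_of_ne_bot hI
  have hex : ∃ n : ℕ, ∃ a ∈ I, a ≠ 0 ∧ (p.ord (a : F)) = n := by
    have h1 : 0 ≤ p.ord (a0 : F) := p.ord_nonneg_of_val_le a0.2
    exact ⟨(p.ord (a0 : F)).toNat, a0, ha0, ha00, by omega⟩
  obtain ⟨a, haI, ha, hn⟩ := Nat.find_spec hex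
  have hmin : ∀ b ∈ I, b ≠ 0 → p.ord (a : F) ≤ p.ord (b : F) := by
    intro b hb hb0
    have h1 : 0 ≤ p.ord (b : F) := p.ord_nonneg_of_val_le b.2
    rw [hn]
    have h2 := Nat.find_min' hex (m := (p.ord (b : F)).toNat) ⟨b, hb, hb0, by omega⟩
    omega
  have haF : (a : F) ≠ 0 := by
    simpa using ha
  refine ⟨⟨a, ?_⟩⟩
  apply le_antisymm
  · intro b hb
    rw [Submodule.mem_span_singleton]
    rcases eq_or_ne b 0 with rfl | hb0
    · exact ⟨0, by simp⟩
    have hbF : (b : F) ≠ 0 := by simpa using hb0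
    have h1 : p.val ((b : F) / a) ≤ 1 := by
      rw [div_eq_mul_inv, map_mul, map_inv₀, p.val_eq_exp hbF, p.val_eq_exp haF, ← exp_neg,
        ← exp_add, ← exp_zero, exp_le_exp]
      have := hmin b hb hb0
      omega
    refine ⟨⟨(b : F) / a, h1⟩, ?_⟩
    apply Subtype.ext
    change (b : F) / a * a = b
    exact div_mul_cancel₀ _ haF
  · rw [Submodule.span_singleton_le_iff_mem]
    exact haI

/-- the maximal ideal of the local ring at `p` -/
abbrev mm (p : Point F) : Ideal (Loc p) := IsLocalRing.maximalIdeal (Loc p)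

theorem mem_mm (p : Point F) (z : Loc p) : z ∈ mm p ↔ p.val (z : F) < 1 := by
  rw [IsLocalRing.mem_maximalIdeal, mem_nonunits_iff]
  have hz : p.val (z : F) ≤ 1 := z.2
  constructor
  · intro h
    refine lt_of_le_of_ne hz fun h1 => h ?_
    have h0 : (z : F) ≠ 0 := by
      intro h2
      rw [h2, map_zero] at h1
      exact zero_ne_one h1
    have h2 : p.val ((z : F)⁻¹) ≤ 1 := by rw [map_inv₀, h1, inv_one]
    refine IsUnit.of_mul_eq_one ⟨(z : F)⁻¹, h2⟩ ?_
    apply Subtype.ext
    exact mul_inv_cancel₀ h0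
  · rintro h ⟨u, hu⟩
    have h1 : p.val (((u : Loc p) : F)) * p.val (((u⁻¹ : (Loc p)ˣ) : Loc p) : F) = 1 := by
      rw [← map_mul]
      have h2 : (((u : Loc p) : F)) * ((((u⁻¹ : (Loc p)ˣ) : Loc p)) : F) = 1 := by
        exact congrArg (fun x : Loc p => (x : F)) u.mul_inv
      rw [h2, map_one]
    rw [hu] at h1
    have h3 : p.val ((((u⁻¹ : (Loc p)ˣ) : Loc p)) : F) ≤ 1 := ((u⁻¹ : (Loc p)ˣ) : Loc p).2
    have h4 : p.val (z : F) * p.val ((((u⁻¹ : (Loc p)ˣ) : Loc p)) : F) < 1 :=
      (mul_le_of_le_one_right' h3).trans_lt h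
    rw [h1] at h4
    exact lt_irrefl _ h4

theorem mm_ne_bot (p : Point F) : mm p ≠ ⊥ := by
  obtain ⟨t, ht⟩ := p.surj (exp (-1))
  have h1 : p.val t < 1 := by
    rw [ht, ← exp_zero, exp_lt_exp]
    omega
  intro h
  have h2 : (⟨t, h1.le⟩ : Loc p) ∈ mm p := (mem_mm p _).2 h1
  rw [h, Ideal.mem_bot] at h2
  have h3 : t = 0 := congrArg Subtype.val h2
  rw [h3, map_zero] at ht
  exact exp_ne_zero ht.symm

end

variable {F K : Type} [Field F] [Algebra ℂ F] [Field K] [Algebra ℂ K] [Algebra F K]
  [IsScalarTower ℂ F K]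

theorem locAlg_apply (p : Point F) (z : Loc p) :
    algebraMap (Loc p) K z = algebraMap F K (z : F) := rfl

/-- the integral closure of the local ring at `p` -/
abbrev CC (p : Point F) (K : Type) [Field K] [Algebra F K] : Subalgebra (Loc p) K :=
  integralClosure (Loc p) K

/-- `v` lies above `p` -/
def Ov (p : Point F) (v : Point K) : Prop := ∀ z : F, v.val (algebraMap F K z) ≤ 1 ↔ p.val z ≤ 1

theorem int_mem (p : Point F) {v : Point K} (h : Ov p v) (b : CC p K) : v.val (b : K) ≤ 1 := by
  have hb : IsIntegral (Loc p) (b : K) := b.2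
  let φ : Loc p →+* v.val.integer :=
    (algebraMap (Loc p) K).codRestrict v.val.integer (fun z => (h (z : F)).2 z.2)
  have h1 : IsIntegral v.val.integer (b : K) := by
    have := hb.map_of_comp_eq φ (RingHom.id K) (by ext z; rfl)
    simpa using this
  exact (Valuation.integer.integers v.val).mem_of_integral h1

section fin

variable [FiniteDimensional F K]

instance charF : CharZero F := charZero_of_injective_algebraMap (algebraMap ℂ F).injective

instance cc_dedekind (p : Point F) : IsDedekindDomain (CC p K) :=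
  integralClosure.isDedekindDomain (Loc p) F K

instance cc_frac (p : Point F) : IsFractionRing (CC p K) K :=
  integralClosure.isFractionRing_of_finite_extension F K

instance cc_finite (p : Point F) : Module.Finite (Loc p) (CC p K) :=
  IsIntegralClosure.finite (Loc p) F K (CC p K)

instance cc_torsion (p : Point F) : Module.IsTorsionFree (Loc p) (CC p K) := by
  haveI : FaithfulSMul (Loc p) K := (faithfulSMul_iff_algebraMap_injective _ _).2
    ((algebraMap F K).injective.comp Subtype.val_injective)
  infer_instance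

end fin

end Pool.Agent.R858.Nm
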