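import Pool.Agent.R858.Nm1

/-!
# The points above a point and the norm
-/

open scoped WithZero Polynomial IntermediateField
open WithZero IsDedekindDomain

set_option linter.unusedVariables false
set_option linter.unusedSectionVars false
set_option linter.style.haveILetI false

namespace Pool.Agent.R858.Nm

open Pool.Agent.Helper395.CS hiding genus map_mul map_inv under above int_mem under_valuation above_under mem_under
open Pool.Agent.Helper395.BC
open Pool.Agent.R858.BN

variable {F K : Type} [Field F] [Algebra ℂ F] [Field K] [Algebra ℂ K] [Algebra F K]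
  [IsScalarTower ℂ F K] [FiniteDimensional F K] {p : Point F}

/-- the prime of `CC p K` under a point above `p` -/
def under (v : Point K) (h : Ov p v) : HeightOneSpectrum (CC p K) where
  asIdeal :=
    { carrier := {b | v.val (b : K) < 1}
      add_mem' := fun {a b} ha hb => by
        change v.val ((a + b : CC p K) : K) < 1
        push_cast
        exact Valuation.map_add_lt _ ha hb
      zero_mem' := by
        change v.val ((0 : CC p K) : K) < 1
        simp
      smul_mem' := fun c b hb => by
        change v.val ((c * b : CC p K) : K) < 1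
        push_cast
        rw [map_mul]
        exact (mul_le_of_le_one_left' (int_mem p h c)).trans_lt hb }
  isPrime := by
    refine ⟨?_, ?_⟩
    · intro htop
      have : (1 : CC p K) ∈ (⊤ : Ideal (CC p K)) := trivial
      rw [← htop] at this
      change v.val ((1 : CC p K) : K) < 1 at this
      simp at this
    · intro a b hab
      change v.val ((a * b : CC p K) : K) < 1 at hab
      push_cast at hab
      rw [map_mul] at hab
      by_contra hcon
      push Not at hcon
      have h1 : v.val (a : K) = 1 := le_antisymm (int_mem p h a) (not_lt.1 hcon.1)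
      have h2 : v.val (b : K) = 1 := le_antisymm (int_mem p h b) (not_lt.1 hcon.2)
      rw [h1, h2] at hab
      simp at hab
  ne_bot := by
    intro hbot
    obtain ⟨z, hz⟩ := v.surj (exp (-1))
    obtain ⟨a, b, hb, rfl⟩ := IsFractionRing.div_surjective (A := CC p K) z
    have key : ∀ c : CC p K, c ≠ 0 → v.val (c : K) = 1 := by
      intro c hc
      refine le_antisymm (int_mem p h c) (not_lt.1 fun hlt => hc ?_)
      have : c ∈ (⊥ : Ideal (CC p K)) := by rw [← hbot]; exact hlt
      simpa using this
    have hb0 : b ≠ 0 := nonZeroDivisors.ne_zero hb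
    have ha0 : a ≠ 0 := by
      rintro rfl
      simp at hz
      exact exp_ne_zero hz.symm
    rw [map_div₀] at hz
    change v.val (a : K) / v.val (b : K) = _ at hz
    rw [key a ha0, key b hb0, div_one, ← exp_zero, exp_inj] at hz
    omega

theorem mem_under (v : Point K) (h : Ov p v) (b : CC p K) :
    b ∈ (under v h).asIdeal ↔ v.val (b : K) < 1 := Iff.rfl

theorem under_valuation (v : Point K) (h : Ov p v) : (under v h).valuation K = v.val := by
  refine (eq_of_valuationSubring_eq v.surj ((under v h).valuation_surjective K) ?_).symm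
  rw [← HeightOneSpectrum.valuationSubringAtPrime_eq_valuationSubring]
  refine (ValuationSubring.eq_of_le_of_ne_top _ ?_ ?_).symm
  · rintro x ⟨a, s, hs, rfl⟩
    change v.val (algebraMap (CC p K) K a * (algebraMap (CC p K) K s)⁻¹) ≤ 1
    rw [map_mul, map_inv₀]
    have h1 : v.val (algebraMap (CC p K) K s) = 1 :=
      le_antisymm (int_mem p h s) (not_lt.1 hs)
    rw [h1, inv_one, mul_one]
    exact int_mem p h a
  · intro htop
    obtain ⟨z, hz⟩ := v.surj (exp 1)
    have : z ∈ v.val.valuationSubring := by rw [htop]; trivial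
    rw [Valuation.mem_valuationSubring_iff, hz, ← exp_zero, exp_le_exp] at this
    omega

/-- the point of the curve defined by a prime of `CC p K` -/
noncomputable def above (Q : HeightOneSpectrum (CC p K)) : Point K where
  val := Q.valuation K
  surj := Q.valuation_surjective K
  const := by
    intro c hc
    have hc1 : p.val (algebraMap ℂ F c) ≤ 1 := p.const_le c
    have hc2 : p.val (algebraMap ℂ F c⁻¹) ≤ 1 := p.const_le c⁻¹
    have h1 : algebraMap ℂ K c =
        algebraMap (CC p K) K (algebraMap (Loc p) (CC p K) ⟨algebraMap ℂ F c, hc1⟩) := by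
      rw [← IsScalarTower.algebraMap_apply (Loc p) (CC p K) K, locAlg_apply,
        ← IsScalarTower.algebraMap_apply ℂ F K]
    rw [h1, HeightOneSpectrum.valuation_eq_one_iff_notMem]
    intro hmem
    apply Q.isPrime.ne_top
    rw [Ideal.eq_top_iff_one]
    have h2 := Q.asIdeal.mul_mem_left (algebraMap (Loc p) (CC p K) ⟨algebraMap ℂ F c⁻¹, hc2⟩) hmem
    have h3 : (⟨algebraMap ℂ F c⁻¹, hc2⟩ : Loc p) * ⟨algebraMap ℂ F c, hc1⟩ = 1 := by
      apply Subtype.ext
      change algebraMap ℂ F c⁻¹ * algebraMap ℂ F c = 1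
      rw [← map_mul, inv_mul_cancel₀ hc, map_one]
    rwa [← map_mul, h3, map_one] at h2

theorem comap_eq (Q : HeightOneSpectrum (CC p K)) :
    Q.asIdeal.under (Loc p) = mm p := by
  have h1 : Q.asIdeal.under (Loc p) ≠ ⊥ := Ideal.under_ne_bot _ Q.ne_bot
  have h2 : (Q.asIdeal.under (Loc p)).IsPrime := Q.isPrime.comap _
  have h3 : (Q.asIdeal.under (Loc p)).IsMaximal := h2.isMaximal h1
  exact IsLocalRing.eq_maximalIdeal h3

instance liesOver (Q : HeightOneSpectrum (CC p K)) : Q.asIdeal.LiesOver (mm p) :=
  ⟨(comap_eq Q).symm⟩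

theorem above_Ov (Q : HeightOneSpectrum (CC p K)) : Ov p (above Q) := by
  have key : ∀ z : F, p.val z ≤ 1 → (above Q).val (algebraMap F K z) ≤ 1 := by
    intro z hz
    have h1 : algebraMap F K z = algebraMap (CC p K) K (algebraMap (Loc p) (CC p K) ⟨z, hz⟩) := by
      rw [← IsScalarTower.algebraMap_apply (Loc p) (CC p K) K, locAlg_apply]
    rw [h1]
    exact Q.valuation_le_one _
  intro z
  refine ⟨fun h => ?_, key z⟩
  by_contra hcon
  rw [not_le] at hcon
  have hz0 : z ≠ 0 := by
    rintro rfl
    rw [map_zero] at hcon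
    exact absurd hcon (by simp)
  have h2 : p.val z⁻¹ < 1 := by
    rw [map_inv₀]
    exact inv_lt_one_of_one_lt₀ hcon
  have h3 : (⟨z⁻¹, h2.le⟩ : Loc p) ∈ mm p := (mem_mm p _).2 h2
  rw [← comap_eq Q, Ideal.mem_comap, ← HeightOneSpectrum.valuation_lt_one_iff_mem (K := K)] at h3
  have h1 : algebraMap F K z⁻¹ =
      algebraMap (CC p K) K (algebraMap (Loc p) (CC p K) ⟨z⁻¹, h2.le⟩) := by
    rw [← IsScalarTower.algebraMap_apply (Loc p) (CC p K) K, locAlg_apply]
  change (above Q).val (algebraMap (CC p K) K (algebraMap (Loc p) (CC p K) ⟨z⁻¹, h2.le⟩)) < 1 at h3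
  rw [← h1, map_inv₀, map_inv₀] at h3
  have h4 : (above Q).val (algebraMap F K z) ≠ 0 :=
    (above Q).val_ne_zero ((map_ne_zero (algebraMap F K)).2 hz0)
  have h5 := (inv_lt_one₀ (zero_lt_iff.2 h4)).1 h3
  exact absurd h (not_le.2 h5)

theorem above_under (v : Point K) (h : Ov p v) : above (under v h) = v := by
  ext1
  exact under_valuation v h

theorem under_above (Q : HeightOneSpectrum (CC p K)) : under (above Q) (above_Ov Q) = Q := by
  apply HeightOneSpectrum.eq_of_valuation_isEquiv_valuation (K := K)
  rw [under_valuation]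
  exact Valuation.IsEquiv.refl

/-- the residue field is algebraically closed -/
theorem residue_closed (hF : IsCurve F) (p : Point F) :
    @IsAlgClosed (Loc p ⧸ mm p) (Ideal.Quotient.field (mm p)) := by
  let := Ideal.Quotient.field (mm p)
  let φ : ℂ →+* Loc p :=
    (algebraMap ℂ F).codRestrict (Loc p) (fun c => p.const_le c)
  let ψ : ℂ →+* (Loc p ⧸ mm p) := (Ideal.Quotient.mk (mm p)).comp φ
  have hψ : Function.Bijective ψ := by
    refine ⟨ψ.injective, fun x => ?_⟩
    obtain ⟨z, rfl⟩ := Ideal.Quotient.mk_surjective x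
    obtain ⟨c, hc⟩ := Rs.exists hF (show p.val (z : F) ≤ 1 from z.2)
    refine ⟨c, ?_⟩
    change Ideal.Quotient.mk (mm p) (φ c) = Ideal.Quotient.mk (mm p) z
    rw [eq_comm, Ideal.Quotient.mk_eq_mk_iff_sub_mem, mem_mm]
    exact hc
  exact IsAlgClosed.of_ringEquiv ℂ (Loc p ⧸ mm p) (RingEquiv.ofBijective ψ hψ)

theorem inertia_eq_one (hF : IsCurve F) (Q : HeightOneSpectrum (CC p K)) :
    Q.asIdeal.inertiaDeg (Loc p) = 1 := by
  have h0 : Q.asIdeal.IsMaximal := Q.isMaximal
  rw [Ideal.inertiaDeg_eq_of_isMaximal (mm p) Q.asIdeal]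
  let := Ideal.Quotient.field (mm p)
  have := residue_closed hF p
  have h := IsAlgClosed.algebraMap_bijective_of_isIntegral (k := Loc p ⧸ mm p)
    (K := CC p K ⧸ Q.asIdeal)
  have e : (Loc p ⧸ mm p) ≃ₗ[Loc p ⧸ mm p] (CC p K ⧸ Q.asIdeal) :=
    LinearEquiv.ofBijective (Algebra.linearMap (Loc p ⧸ mm p) (CC p K ⧸ Q.asIdeal)) h
  rw [← e.finrank_eq]
  exact Module.finrank_self _

end Pool.Agent.R858.Nm
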