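import Pool.Agent.R858.Nm2

/-!
# The points above a point and the norm
-/

open scoped WithZero Polynomial IntermediateField
open WithZero IsDedekindDomain

set_option linter.unusedVariables false
set_option linter.unusedSectionVars false
set_option linter.style.haveILetI false

namespace Pool.Agent.R858.Nm

open Pool.Agent.Helper395.CS hiding genus map_mul map_inv under above int_mem under_valuation above_under mem_under inertia_eq_one
open Pool.Agent.Helper395.BC
open Pool.Agent.R858.BN

variable {F K : Type} [Field F] [Algebra ℂ F] [Field K] [Algebra ℂ K] [Algebra F K]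
  [IsScalarTower ℂ F K] [FiniteDimensional F K] {p : Point F}

instance perfect (p : Point F) : PerfectField (FractionRing (Loc p)) := by
  haveI : CharZero F := charF
  haveI : CharZero (Loc p) := RingHom.charZero (algebraMap (Loc p) F)
  haveI : CharZero (FractionRing (Loc p)) :=
    charZero_of_injective_algebraMap (IsFractionRing.injective (Loc p) (FractionRing (Loc p)))
  exact PerfectField.ofCharZero

theorem relNorm_prime (hF : IsCurve F) (Q : HeightOneSpectrum (CC p K)) :
    Ideal.relNorm (Loc p) Q.asIdeal = mm p := by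
  have h0 : Q.asIdeal.IsMaximal := Q.isMaximal
  rw [Ideal.relNorm_eq_pow_of_isMaximal Q.asIdeal (mm p), inertia_eq_one hF Q, pow_one]

open UniqueFactorizationMonoid in
theorem relNorm_eq (hF : IsCurve F) (I : Ideal (CC p K)) (hI : I ≠ ⊥) :
    Ideal.relNorm (Loc p) I = mm p ^ (Multiset.card (normalizedFactors I)) := by
  have h1 : (normalizedFactors I).prod = I := by
    exact Ideal.prod_normalizedFactors_eq_self hI
  have h2 : (normalizedFactors I).map (Ideal.relNorm (Loc p)) =
      Multiset.replicate (Multiset.card (normalizedFactors I)) (mm p) := by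
    rw [Multiset.eq_replicate]
    refine ⟨Multiset.card_map _ _, ?_⟩
    intro J hJ
    rw [Multiset.mem_map] at hJ
    obtain ⟨Q, hQ, rfl⟩ := hJ
    have hQ' : Q ≠ ⊥ := ne_zero_of_mem_normalizedFactors hQ
    rw [Ideal.mem_normalizedFactors_iff hI] at hQ
    exact relNorm_prime hF ⟨Q, hQ.1, hQ'⟩
  conv_lhs => rw [← h1]
  rw [map_multiset_prod, h2, Multiset.prod_replicate]

theorem ord_of_span (p : Point F) {z : Loc p} {n : ℕ} (h : Ideal.span {z} = mm p ^ n) :
    p.ord (z : F) = n := by
  obtain ⟨t, ht⟩ := p.surj (exp (-1))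
  have h1 : p.val t < 1 := by
    rw [ht, ← exp_zero, exp_lt_exp]
    omega
  have ht0 : t ≠ 0 := by
    rintro rfl
    rw [map_zero] at ht
    exact exp_ne_zero ht.symm
  have h2 : mm p = Ideal.span {(⟨t, h1.le⟩ : Loc p)} := by
    apply le_antisymm
    · intro y hy
      rw [mem_mm] at hy
      rw [Ideal.mem_span_singleton]
      rcases eq_or_ne y 0 with rfl | hy0
      · exact dvd_zero _
      have hyF : (y : F) ≠ 0 := by simpa using hy0
      have h3 : p.val ((y : F) / t) ≤ 1 := by
        rw [div_eq_mul_inv, map_mul, map_inv₀, ht, p.val_eq_exp hyF, ← exp_neg, ← exp_add,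
          ← exp_zero, exp_le_exp]
        have := (p.val_lt_one_iff hyF).1 hy
        omega
      refine ⟨⟨(y : F) / t, h3⟩, ?_⟩
      apply Subtype.ext
      change (y : F) = t * ((y : F) / t)
      field_simp
    · rw [Ideal.span_singleton_le_iff_mem, mem_mm]
      exact h1
  rw [h2, Ideal.span_singleton_pow, Ideal.span_singleton_eq_span_singleton] at h
  obtain ⟨u, hu⟩ := h
  have hu1 : p.val ((u : Loc p) : F) = 1 := by
    have h3 : ¬ p.val ((u : Loc p) : F) < 1 := by
      intro h4
      have h5 : (u : Loc p) ∈ mm p := (mem_mm p _).2 h4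
      rw [IsLocalRing.mem_maximalIdeal, mem_nonunits_iff] at h5
      exact h5 u.isUnit
    exact le_antisymm (u : Loc p).2 (not_lt.1 h3)
  have h3 : (z : F) * ((u : Loc p) : F) = t ^ n := congrArg (fun x : Loc p => (x : F)) hu
  have h4 : p.val (z : F) = exp (-(n : ℤ)) := by
    have h5 := congrArg p.val h3
    rw [map_mul, hu1, mul_one, map_pow, ht, ← exp_nsmul] at h5
    rw [h5]
    simp
  unfold Point.ord
  rw [h4, log_exp, neg_neg]

/-- the points above `p` -/
theorem exists_fib (p : Point F) :
    ∃ T : Finset (Point K), (∀ v, v ∈ T ↔ Ov p v) ∧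
      ∃ T' : Finset (Ideal (CC p K)), (∀ Q, Q ∈ T' ↔ Q.IsPrime ∧ Q ≠ ⊥) ∧
        ∀ f : Ideal (CC p K) → ℕ, ∀ g : Point K → ℤ,
          (∀ v (hv : Ov p v), g v = f (under v hv).asIdeal) →
          ∑ v ∈ T, g v = ((∑ Q ∈ T', f Q : ℕ) : ℤ) := by
  classical
  have hfin := fun Q : Ideal (CC p K) =>
    IsDedekindDomain.mem_primesOverFinset_iff (P := Q) (mm_ne_bot p) (CC p K)
  set T' := IsDedekindDomain.primesOverFinset (mm p) (CC p K) with hT'
  have hmem : ∀ Q, Q ∈ T' ↔ Q.IsPrime ∧ Q ≠ ⊥ := by
    intro Q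
    rw [hfin]
    constructor
    · rintro ⟨h1, h2⟩
      refine ⟨h1, ?_⟩
      rintro rfl
      have := h2.over
      apply mm_ne_bot p
      rw [this]
      haveI : FaithfulSMul (Loc p) (CC p K) := by
        rw [faithfulSMul_iff_algebraMap_injective]
        intro a b hab
        have h3 := congrArg (algebraMap (CC p K) K) hab
        rw [← IsScalarTower.algebraMap_apply, ← IsScalarTower.algebraMap_apply, locAlg_apply,
          locAlg_apply] at h3
        exact Subtype.ext ((algebraMap F K).injective h3)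
      exact Ideal.under_bot (Loc p) (CC p K)
    · rintro ⟨h1, h2⟩
      exact ⟨h1, ⟨(comap_eq ⟨Q, h1, h2⟩).symm⟩⟩
  let e : {Q // Q ∈ T'} → Point K := fun Q => above ⟨Q.1, ((hmem Q.1).1 Q.2).1, ((hmem Q.1).1 Q.2).2⟩
  have he : Function.Injective e := by
    intro Q Q' h
    have h1 : under (e Q) (above_Ov _) = under (e Q') (above_Ov _) := by
      congr 1
    rw [under_above, under_above] at h1
    exact Subtype.ext (congrArg HeightOneSpectrum.asIdeal h1)
  refine ⟨Finset.univ.map ⟨e, he⟩, ?_, T', hmem, ?_⟩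
  · intro v
    rw [Finset.mem_map]
    constructor
    · rintro ⟨Q, -, rfl⟩
      exact above_Ov _
    · intro hv
      refine ⟨⟨(under v hv).asIdeal, (hmem _).2 ⟨(under v hv).isPrime, (under v hv).ne_bot⟩⟩,
        Finset.mem_univ _, ?_⟩
      exact above_under v hv
  · intro f g hfg
    rw [Finset.sum_map, Nat.cast_sum, Finset.univ_eq_attach, ← Finset.sum_attach T']
    refine Finset.sum_congr rfl fun Q _ => ?_
    change g (e Q) = _
    rw [hfg (e Q) (above_Ov _), under_above]

/-- the total order of vanishing above `p` is the order of vanishing of the norm at `p` -/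
theorem norm_ord_int (hF : IsCurve F) (p : Point F) (T : Finset (Point K))
    (hT : ∀ v, v ∈ T ↔ Ov p v) {b : CC p K} (hb : b ≠ 0) :
    p.ord (Algebra.norm F (b : K)) = ∑ v ∈ T, v.ord (b : K) := by
  classical
  obtain ⟨T1, hT1, T', hT', hsum⟩ := exists_fib (K := K) p
  have hTT : T = T1 := by
    ext v
    rw [hT, hT1]
  subst hTT
  have h1 : Ideal.span {b} ≠ ⊥ := by simpa using hb
  have h2 := relNorm_eq hF (Ideal.span {b}) h1
  rw [Ideal.relNorm_singleton] at h2
  have h3 := ord_of_span p h2
  have h4 : ((Algebra.intNorm (Loc p) (CC p K) b : Loc p) : F) = Algebra.norm F (b : K) :=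
    Algebra.algebraMap_intNorm (A := Loc p) (K := F) (L := K) (B := CC p K) b
  rw [h4] at h3
  rw [h3, hsum (fun Q => Multiset.count Q (UniqueFactorizationMonoid.normalizedFactors
    (Ideal.span {b}))) (fun v => v.ord (b : K))]
  · congr 1
    symm
    apply Multiset.sum_count_eq_card
    intro Q hQ
    have hQ' : Q ≠ ⊥ := UniqueFactorizationMonoid.ne_zero_of_mem_normalizedFactors hQ
    rw [Ideal.mem_normalizedFactors_iff h1] at hQ
    exact (hT' Q).2 ⟨hQ.1, hQ'⟩
  · intro v hv
    have h5 : (under v hv).intValuation b = v.val (b : K) := by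
      rw [← HeightOneSpectrum.valuation_of_algebraMap (K := K), under_valuation]
      rfl
    rw [HeightOneSpectrum.intValuation_if_neg _ hb, Ideal.count_associates_factors_eq h1
      (under v hv).isPrime (under v hv).ne_bot] at h5
    unfold Point.ord
    rw [← h5, log_exp, neg_neg]

/-- The total order of vanishing of `h` above `p` is the order of vanishing of its norm at `p`. -/
theorem norm_ord (hF : IsCurve F) (p : Point F) {h : K} (hh : h ≠ 0) (T : Finset (Point K))
    (hT : ∀ v, v ∈ T ↔ Ov p v) : p.ord (Algebra.norm F h) = ∑ v ∈ T, v.ord h := by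
  obtain ⟨a, b, hb, rfl⟩ := IsFractionRing.div_surjective (A := CC p K) h
  have hb0 : b ≠ 0 := nonZeroDivisors.ne_zero hb
  have ha0 : a ≠ 0 := by
    rintro rfl
    simp at hh
  have haK : (a : K) ≠ 0 := by simpa using ha0
  have hbK : (b : K) ≠ 0 := by simpa using hb0
  have h1 := norm_ord_int hF p T hT ha0
  have h2 := norm_ord_int hF p T hT hb0
  have h4 : Algebra.norm F (a : K) ≠ 0 := Algebra.norm_ne_zero_iff.2 haK
  have h5 : Algebra.norm F (b : K) ≠ 0 := Algebra.norm_ne_zero_iff.2 hbK
  have hab : (a : K) / (b : K) ≠ 0 := div_ne_zero haK hbK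
  have h6 : Algebra.norm F ((a : K) / (b : K)) ≠ 0 := Algebra.norm_ne_zero_iff.2 hab
  have h3 : Algebra.norm F ((a : K) / (b : K)) * Algebra.norm F (b : K) = Algebra.norm F (a : K) := by
    rw [← map_mul, div_mul_cancel₀ _ hbK]
  have h7 := p.ord_mul h6 h5
  rw [h3, h1, h2] at h7
  change p.ord (Algebra.norm F ((a : K) / (b : K))) = ∑ v ∈ T, v.ord ((a : K) / (b : K))
  have h8 : ∑ v ∈ T, v.ord ((a : K) / (b : K)) = ∑ v ∈ T, v.ord (a : K) - ∑ v ∈ T, v.ord (b : K) := by
    rw [← Finset.sum_sub_distrib]
    refine Finset.sum_congr rfl fun v _ => ?_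
    rw [div_eq_mul_inv, v.ord_mul haK (inv_ne_zero hbK), v.ord_inv]
    ring
  omega

end Pool.Agent.R858.Nm
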