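import Pool.Agent.R858.Nm3

/-!
# Norms for a morphism of curves
-/

open scoped WithZero Polynomial IntermediateField
open WithZero

set_option linter.unusedVariables false
set_option linter.unusedSectionVars false
set_option linter.style.haveILetI false

namespace Pool.Agent.R858.QD

open Pool.Agent.Helper395.CS hiding genus map_mul map_inv
open Pool.Agent.Helper395.BC
open Pool.Agent.R858.BN

variable {F K : Type} [Field F] [Algebra ℂ F] [Field K] [Algebra ℂ K]

theorem finiteDim (hF : IsCurve F) (hK : IsCurve K) [Algebra F K] [IsScalarTower ℂ F K] :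
    FiniteDimensional F K := by
  obtain ⟨p⟩ := point_nonempty hF
  obtain ⟨t, ht⟩ := p.surj (exp (-1))
  have ht' : Transcendental ℂ t := by
    by_contra h
    obtain ⟨c, rfl⟩ := exists_const h
    rcases eq_or_ne c 0 with rfl | hc
    · rw [map_zero, map_zero] at ht
      exact exp_ne_zero ht.symm
    · rw [p.const c hc, ← exp_zero, exp_inj] at ht
      omega
  let φ : F →ₐ[ℂ] K := IsScalarTower.toAlgHom ℂ F K
  have hφ : ∀ z, φ z = algebraMap F K z := fun z => rfl
  have htK : Transcendental ℂ (φ t) := map_transc φ ht'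
  have hfin := hK.finiteDimensional htK
  obtain ⟨s, hs⟩ := hfin.1
  refine ⟨⟨s, ?_⟩⟩
  rw [eq_top_iff]
  intro x _
  have hx : x ∈ Submodule.span ℂ⟮φ t⟯ (s : Set K) := by rw [hs]; trivial
  induction hx using Submodule.span_induction with
  | mem y hy => exact Submodule.subset_span hy
  | zero => exact zero_mem _
  | add y z _ _ h1 h2 => exact add_mem (h1 trivial) (h2 trivial)
  | smul c y _ h1 =>
    have h2 : ((c : K)) ∈ (IntermediateField.map φ (IntermediateField.adjoin ℂ {t})) := by
      rw [IntermediateField.adjoin_map, Set.image_singleton]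
      exact c.2
    rw [IntermediateField.mem_map] at h2
    obtain ⟨a, -, ha⟩ := h2
    have h3 : c • y = a • y := by
      rw [Algebra.smul_def, Algebra.smul_def, ← hφ a, ha]
      rfl
    rw [h3]
    exact Submodule.smul_mem _ _ (h1 trivial)

/-- the norm for a morphism of curves -/
theorem push (hF : IsCurve F) (hK : IsCurve K) (φ : F →ₐ[ℂ] K) :
    ∃ (n : ℕ) (N : K → F), 0 < n ∧ (∀ h, h ≠ 0 → N h ≠ 0) ∧ (∀ g, N (φ g) = g ^ n) ∧
      ∀ p : Point F, ∃ T : Finset (Point K), (∀ v, v ∈ T ↔ LiesOver φ v p) ∧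
        ∀ h, h ≠ 0 → p.ord (N h) = ∑ v ∈ T, v.ord h := by
  letI : Algebra F K := φ.toRingHom.toAlgebra
  haveI : IsScalarTower ℂ F K := IsScalarTower.of_algebraMap_eq fun c => (φ.commutes c).symm
  haveI := finiteDim hF hK
  refine ⟨Module.finrank F K, fun h => Algebra.norm F h, Module.finrank_pos, ?_, ?_, ?_⟩
  · intro h hh
    exact Algebra.norm_ne_zero_iff.2 hh
  · intro g
    exact Algebra.norm_algebraMap g
  · intro p
    obtain ⟨T, hT, -⟩ := Pool.Agent.R858.Nm.exists_fib (K := K) p
    refine ⟨T, hT, fun h hh => ?_⟩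
    exact Pool.Agent.R858.Nm.norm_ord hF p hh T hT

theorem ord_zpow (v : Point K) {z : K} (hz : z ≠ 0) (k : ℤ) : v.ord (z ^ k) = k * v.ord z := by
  have h1 : v.val (z ^ k) = exp (-(k * v.ord z)) := by
    rw [map_zpow₀, v.val_eq_exp hz, ← exp_zsmul]
    congr 1
    simp
  unfold Point.ord at h1 ⊢
  rw [h1, log_exp]
  ring

theorem ord_prod {ι : Type} (v : Point K) (S : Finset ι) (f : ι → K) (hf : ∀ i ∈ S, f i ≠ 0) :
    v.ord (∏ i ∈ S, f i) = ∑ i ∈ S, v.ord (f i) := by
  classical
  induction S using Finset.induction_on with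
  | empty => rw [Finset.prod_empty, Finset.sum_empty, v.ord_one]
  | insert i S hi ih =>
    rw [Finset.prod_insert hi, Finset.sum_insert hi, v.ord_mul (hf i (Finset.mem_insert_self _ _))
      (Finset.prod_ne_zero_iff.2 fun j hj => hf j (Finset.mem_insert_of_mem hj)),
      ih fun j hj => hf j (Finset.mem_insert_of_mem hj)]

open Classical in
/-- Let `f_i : C → E` be morphisms of curves such that the divisors `∑_i (f_i(v))` are all linearly
equivalent to `m (e)`, and let `a_v` (`v ∈ C`) be integers, almost all zero, such that for every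
`i` the divisor `∑ a_v v` is, up to torsion, the pull back of `∑ l_p p`. Then `∑ l_p p` is up to torsion a
multiple of `e`. -/
theorem commens (hF : IsCurve F) (hK : IsCurve K) {m : ℕ} (hm : 0 < m)
    (φ : Fin m → F →ₐ[ℂ] K) (e : Point F)
    (hr : ∀ v : Point K, ∃ c : F, c ≠ 0 ∧ ∀ p : Point F,
      p.ord c = (Nat.card {i : Fin m // LiesOver (φ i) v p} : ℤ) - if p = e then (m : ℤ) else 0)
    (l : Point F → F) (hl : ∀ p, l p ≠ 0) (hlf : {p : Point F | p.ord (l p) ≠ 0}.Finite)
    (a : Point K → ℤ) (ha : {v : Point K | a v ≠ 0}.Finite)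
    (hpull : ∀ i, ∃ t : ℕ, 0 < t ∧ ∃ c : K, c ≠ 0 ∧ ∀ v p, LiesOver (φ i) v p →
      v.ord c + t * v.ord (φ i (l p)) = t * a v) :
    ∃ t : ℕ, 0 < t ∧ ∃ c : F, c ≠ 0 ∧ ∀ p : Point F,
      p.ord c + t * p.ord (l p) = if p = e then t * ∑ᶠ q : Point F, q.ord (l q) else 0 := by
  choose c hc0 hc using hr
  choose t ht b hb0 hb using hpull
  choose n N hn hN0 hNφ hNT using fun i => push hF hK (φ i)
  choose T hT hTN using hNT
  set A := ha.toFinset with hA
  set t0 : ℕ := ∏ i, t i with ht0
  have ht0pos : 0 < t0 := Finset.prod_pos fun i _ => ht i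
  have hdiv : ∀ i, t i ∣ t0 := fun i => Finset.dvd_prod_of_mem t (Finset.mem_univ i)
  choose s hs using hdiv
  -- the function on `E`
  let G1 : F := ∏ v ∈ A, c v ^ ((t0 : ℤ) * a v)
  let G2 : F := ∏ i, N i (b i ^ s i)
  have hG1 : G1 ≠ 0 := Finset.prod_ne_zero_iff.2 fun v _ => zpow_ne_zero _ (hc0 v)
  have hG2 : G2 ≠ 0 := Finset.prod_ne_zero_iff.2 fun i _ => hN0 i _ (pow_ne_zero _ (hb0 i))
  set S : ℤ := ∑ v ∈ A, a v with hS
  set n0 : ℕ := ∑ i, n i with hn0
  have hn0pos : 0 < n0 := by
    refine Finset.sum_pos (fun i _ => hn i) ?_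
    exact ⟨⟨0, hm⟩, Finset.mem_univ _⟩
  have key : ∀ p : Point F, p.ord G1 + (if p = e then (t0 : ℤ) * m * S else 0) =
      p.ord G2 + t0 * n0 * p.ord (l p) := by
    intro p
    -- the sum over the points above `p`
    have h1 : ∀ i, ∑ v ∈ T i p, (t0 : ℤ) * a v = p.ord (N i (b i ^ s i)) + t0 * n i * p.ord (l p) := by
      intro i
      have h2 : ∀ v ∈ T i p, (t0 : ℤ) * a v = v.ord (b i ^ s i) + t0 * v.ord (φ i (l p)) := by
        intro v hv
        have h3 := hb i v p ((hT i p v).1 hv)
        have h4 : (t0 : ℤ) = s i * t i := by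
          rw [hs i]
          push_cast
          ring
        rw [v.ord_pow, h4]
        linear_combination (-(s i : ℤ)) * h3
      rw [Finset.sum_congr rfl h2, Finset.sum_add_distrib, ← Finset.mul_sum,
        ← hTN i p _ (pow_ne_zero _ (hb0 i)),
        ← hTN i p _ ((map_ne_zero (φ i)).2 (hl p)), hNφ, p.ord_pow]
      ring
    have h5 : ∑ i, ∑ v ∈ T i p, (t0 : ℤ) * a v = p.ord G2 + t0 * n0 * p.ord (l p) := by
      rw [Finset.sum_congr rfl fun i _ => h1 i, Finset.sum_add_distrib,
        ord_prod p Finset.univ _ (fun i _ => hN0 i _ (pow_ne_zero _ (hb0 i))), hn0]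
      push_cast
      rw [Finset.mul_sum, Finset.sum_mul]
    rw [← h5]
    -- exchange the sums
    have h6 : ∀ i, ∑ v ∈ T i p, (t0 : ℤ) * a v =
        ∑ v ∈ A, if LiesOver (φ i) v p then (t0 : ℤ) * a v else 0 := by
      intro i
      rw [← Finset.sum_filter, ← Finset.sum_filter_of_ne (p := fun v => a v ≠ 0)]
      · refine Finset.sum_congr ?_ fun v _ => rfl
        ext v
        rw [Finset.mem_filter, Finset.mem_filter, hT, hA, Set.Finite.mem_toFinset, and_comm]
        rfl
      · intro v _ h h0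
        exact h (by rw [h0, mul_zero])
    have h7 : ∑ i, ∑ v ∈ T i p, (t0 : ℤ) * a v =
        ∑ v ∈ A, (t0 : ℤ) * a v * (p.ord (c v) + if p = e then (m : ℤ) else 0) := by
      rw [Finset.sum_congr rfl fun i _ => h6 i, Finset.sum_comm]
      refine Finset.sum_congr rfl fun v _ => ?_
      rw [hc v p, ← Finset.sum_filter, Finset.sum_const, Nat.card_eq_fintype_card,
        Fintype.card_subtype]
      rw [nsmul_eq_mul]
      ring
    rw [h7, ord_prod p A _ (fun v _ => zpow_ne_zero _ (hc0 v))]
    rw [Finset.sum_congr rfl fun v (_ : v ∈ A) => ord_zpow p (hc0 v) ((t0 : ℤ) * a v)]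
    rw [Finset.sum_congr rfl fun v (_ : v ∈ A) => mul_add ((t0 : ℤ) * a v) (p.ord (c v))
      (if p = e then (m : ℤ) else 0), Finset.sum_add_distrib]
    congr 1
    split_ifs with hpe
    · rw [← Finset.sum_mul, ← Finset.mul_sum]
      ring
    · simp
  -- the degrees
  have hdeg : (t0 : ℤ) * m * S = t0 * n0 * ∑ᶠ q : Point F, q.ord (l q) := by
    have h1 := finsum_congr key
    have hf1 : (Function.support fun p : Point F => p.ord G1).Finite := finite_ord hF G1
    have hf2 : (Function.support fun p : Point F => p.ord G2).Finite := finite_ord hF G2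
    have hf3 : (Function.support fun p : Point F => if p = e then (t0 : ℤ) * m * S else 0).Finite := by
      refine (Set.finite_singleton e).subset fun p hp => ?_
      by_contra hpe
      exact hp (if_neg hpe)
    have hf4 : (Function.support fun p : Point F => (t0 : ℤ) * n0 * p.ord (l p)).Finite := by
      refine hlf.subset fun p hp h0 => hp ?_
      change (t0 : ℤ) * n0 * p.ord (l p) = 0
      rw [h0, mul_zero]
    rw [finsum_add_distrib hf1 hf3, finsum_add_distrib hf2 hf4, sum_ord hF, sum_ord hF, zero_add,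
      zero_add, ← mul_finsum] at h1
    rw [← h1, finsum_eq_single _ e]
    · rw [if_pos rfl]
    · intro p hp
      rw [if_neg hp]
  refine ⟨t0 * n0, Nat.mul_pos ht0pos hn0pos, G2 * G1⁻¹, mul_ne_zero hG2 (inv_ne_zero hG1), ?_⟩
  intro p
  rw [p.ord_mul hG2 (inv_ne_zero hG1), p.ord_inv]
  have h1 := key p
  push_cast
  rw [← hdeg]
  linarith

end Pool.Agent.R858.QD
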