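import Pool.Agent.R858.HypGenus
import Pool.Agent.R858.BN2

/-!
# Morphisms of curves: the image of a point, pull back of line bundles
-/

open scoped WithZero Polynomial IntermediateField
open WithZero

set_option linter.unusedVariables false
set_option linter.unusedSectionVars false

namespace Pool.Agent.R858.QD

open Pool.Agent.Helper395.CS hiding genus map_mul map_inv
open Pool.Agent.Helper395.BC
open Pool.Agent.R858.BN

variable {F K : Type} [Field F] [Algebra ℂ F] [Field K] [Algebra ℂ K]

/-- The nonconstant morphism of curves given by the embedding `φ` of function fields maps the point `v`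
to the point `p`: the local ring at `p` consists of the functions whose pull backs are regular at
`v`. -/
def LiesOver (φ : F →ₐ[ℂ] K) (v : Point K) (p : Point F) : Prop :=
  ∀ z : F, v.val (φ z) ≤ 1 ↔ p.val z ≤ 1

theorem LiesOver.unique {φ : F →ₐ[ℂ] K} {v : Point K} {p q : Point F} (hp : LiesOver φ v p)
    (hq : LiesOver φ v q) : p = q := by
  apply Point.ext
  apply eq_of_valuationSubring_eq p.surj q.surj
  ext z
  rw [Valuation.mem_valuationSubring_iff, Valuation.mem_valuationSubring_iff, ← hp z, ← hq z]

theorem map_transc (φ : F →ₐ[ℂ] K) {t : F} (ht : Transcendental ℂ t) : Transcendental ℂ (φ t) := by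
  rintro ⟨p, hp, h⟩
  refine ht ⟨p, hp, ?_⟩
  rw [Polynomial.aeval_algHom_apply] at h
  exact (map_eq_zero φ).1 h

/-- a function on the target whose pull back has positive order at `v` -/
theorem exists_pos (hF : IsCurve F) (hK : IsCurve K) (φ : F →ₐ[ℂ] K) (v : Point K) :
    ∃ z : F, z ≠ 0 ∧ 0 < v.ord (φ z) := by
  obtain ⟨p⟩ := point_nonempty hF
  obtain ⟨t, ht⟩ := p.surj (exp (-1))
  have ht0 : t ≠ 0 := by
    rintro rfl
    rw [map_zero] at ht
    exact exp_ne_zero ht.symm
  have hφ : ∀ z : F, z ≠ 0 → φ z ≠ 0 := fun z hz => (map_ne_zero φ).2 hz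
  rcases le_or_gt (v.val (φ t)) 1 with h | h
  · obtain ⟨c, hc⟩ := Rs.exists hK h
    have h1 : t - algebraMap ℂ F c ≠ 0 := by
      intro h2
      rw [sub_eq_zero] at h2
      have h3 := p.const_le c
      rcases eq_or_ne c 0 with rfl | hc0
      · rw [map_zero] at h2
        exact ht0 h2
      · have h4 := p.const c hc0
        rw [← h2, ht, ← exp_zero, exp_inj] at h4
        omega
    refine ⟨t - algebraMap ℂ F c, h1, ?_⟩
    rw [← Point.val_lt_one_iff v (hφ _ h1), map_sub, AlgHom.commutes]
    exact hc
  · refine ⟨t⁻¹, inv_ne_zero ht0, ?_⟩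
    rw [map_inv₀, Point.ord_inv]
    have := (Point.one_lt_val_iff v (hφ t ht0)).1 h
    omega

/-- Every point of the source has exactly one image. -/
theorem existsUnique_image (hF : IsCurve F) (hK : IsCurve K) (φ : F →ₐ[ℂ] K) (v : Point K) :
    ∃! p : Point F, LiesOver φ v p := by
  classical
  have hφ : ∀ z : F, z ≠ 0 → φ z ≠ 0 := fun z hz => (map_ne_zero φ).2 hz
  let S : AddSubgroup ℤ :=
    { carrier := {n | ∃ z : F, z ≠ 0 ∧ v.ord (φ z) = n}
      zero_mem' := ⟨1, one_ne_zero, by rw [map_one, Point.ord_one]⟩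
      add_mem' := by
        rintro a b ⟨z, hz, rfl⟩ ⟨w, hw, rfl⟩
        exact ⟨z * w, mul_ne_zero hz hw, by rw [map_mul, Point.ord_mul v (hφ z hz) (hφ w hw)]⟩
      neg_mem' := by
        rintro a ⟨z, hz, rfl⟩
        exact ⟨z⁻¹, inv_ne_zero hz, by rw [map_inv₀, Point.ord_inv]⟩ }
  obtain ⟨e, hS, he⟩ : ∃ e : ℤ, S = AddSubgroup.zmultiples e ∧ 0 < e := by
    obtain ⟨e, he⟩ := Int.subgroup_cyclic S
    rw [← AddSubgroup.zmultiples_eq_closure] at he
    obtain ⟨z, hz, hz1⟩ := exists_pos hF hK φ v
    have he0 : e ≠ 0 := by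
      rintro rfl
      have h1 : v.ord (φ z) ∈ S := ⟨z, hz, rfl⟩
      rw [he, AddSubgroup.zmultiples_zero_eq_bot, AddSubgroup.mem_bot] at h1
      omega
    rcases lt_or_gt_of_ne he0 with h | h
    · exact ⟨-e, by rw [he, AddSubgroup.zmultiples_neg], by omega⟩
    · exact ⟨e, he, h⟩
  have hdvd : ∀ z : F, z ≠ 0 → e * (v.ord (φ z) / e) = v.ord (φ z) := by
    intro z hz
    have h1 : v.ord (φ z) ∈ S := ⟨z, hz, rfl⟩
    rw [hS, Int.mem_zmultiples_iff] at h1
    exact Int.mul_ediv_cancel' h1
  let w : F → ℤᵐ⁰ := fun z => if z = 0 then 0 else exp (-(v.ord (φ z) / e))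
  have hw0 : w 0 = 0 := by simp [w]
  have hw : ∀ z : F, z ≠ 0 → w z = exp (-(v.ord (φ z) / e)) := fun z hz => by simp [w, hz]
  let val : Valuation F ℤᵐ⁰ :=
    { toFun := w
      map_zero' := hw0
      map_one' := by
        rw [hw 1 one_ne_zero, map_one, Point.ord_one]
        simp
      map_mul' := by
        intro a b
        rcases eq_or_ne a 0 with rfl | ha
        · rw [zero_mul, hw0, zero_mul]
        rcases eq_or_ne b 0 with rfl | hb
        · rw [mul_zero, hw0, mul_zero]
        rw [hw _ (mul_ne_zero ha hb), hw a ha, hw b hb, ← exp_add, map_mul,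
          Point.ord_mul v (hφ a ha) (hφ b hb)]
        congr 1
        have h1 := hdvd a ha
        have h2 := hdvd b hb
        rw [Int.add_ediv_of_dvd_left ⟨_, h1.symm⟩]
        ring
      map_add_le_max' := by
        intro a b
        rcases eq_or_ne a 0 with rfl | ha
        · rw [zero_add, hw0]
          exact le_max_right _ _
        rcases eq_or_ne b 0 with rfl | hb
        · rw [add_zero, hw0]
          exact le_max_left _ _
        rcases eq_or_ne (a + b) 0 with hab | hab
        · rw [hab, hw0]
          exact zero_le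
        rw [hw _ hab, hw a ha, hw b hb, le_max_iff, exp_le_exp, exp_le_exp]
        have h3 : v.val (φ a + φ b) ≤ max (v.val (φ a)) (v.val (φ b)) := v.val.map_add _ _
        rw [← map_add, le_max_iff, Point.val_le_val_iff v (hφ _ hab) (hφ a ha),
          Point.val_le_val_iff v (hφ _ hab) (hφ b hb)] at h3
        have h4 : ∀ x y : ℤ, x ≤ y → x / e ≤ y / e := fun x y h => Int.ediv_le_ediv he h
        rcases h3 with h3 | h3
        · exact Or.inl (neg_le_neg (h4 _ _ h3))
        · exact Or.inr (neg_le_neg (h4 _ _ h3)) }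
  have hval : ∀ z, val z = w z := fun z => rfl
  let p : Point F :=
    { val := val
      surj := by
        intro x
        rcases eq_or_ne x 0 with rfl | hx
        · exact ⟨0, map_zero _⟩
        have h1 : e ∈ S := by
          rw [hS]
          exact AddSubgroup.mem_zmultiples e
        obtain ⟨z, hz, hze⟩ := h1
        refine ⟨z ^ (-log x), ?_⟩
        rw [hval, hw _ (zpow_ne_zero _ hz), map_zpow₀]
        have h2 : v.ord (φ z ^ (-log x)) = -log x * e := by
          rw [← hze]
          have h3 : v.val (φ z ^ (-log x)) = exp (-v.ord (φ z)) ^ (-log x) := by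
            rw [map_zpow₀, ← Point.val_eq_exp v (hφ z hz)]
          rw [← exp_zsmul] at h3
          have h4 := Point.val_eq_exp v (a := φ z ^ (-log x)) (zpow_ne_zero _ (hφ z hz))
          rw [h3, exp_inj] at h4
          simp only [smul_eq_mul] at h4
          linarith
        rw [h2, Int.mul_ediv_cancel _ he.ne']
        simp [exp_log hx]
      const := by
        intro c hc
        rw [hval, hw _ (by simpa using hc), AlgHom.commutes, Point.ord_const]
        simp }
  refine ⟨p, ?_, fun q hq => LiesOver.unique hq ?_⟩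
  all_goals
    intro z
    rcases eq_or_ne z 0 with rfl | hz
    · rw [map_zero, map_zero, map_zero]
    change v.val (φ z) ≤ 1 ↔ w z ≤ 1
    rw [hw z hz, ← exp_zero, exp_le_exp, exp_zero, Point.val_le_one_iff v (hφ z hz)]
    have h1 := hdvd z hz
    constructor
    · intro h
      have := Int.ediv_nonneg h he.le
      omega
    · intro h
      have h2 : 0 ≤ v.ord (φ z) / e := by omega
      rw [← h1]
      exact mul_nonneg he.le h2

end Pool.Agent.R858.QD
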