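import Pool.Agent.R858.QD1

/-!
# The points of a hyperelliptic curve
-/

open scoped WithZero Polynomial IntermediateField
open WithZero

set_option linter.unusedVariables false
set_option linter.unusedSectionVars false

namespace Pool.Agent.R858.QD

open Pool.Agent.Helper395.CS hiding genus map_mul map_inv
open Pool.Agent.Helper395.BC
open Pool.Agent.R858.BN

variable {K : Type} [Field K] [Algebra ℂ K]

theorem Rs.neg {v : Point K} {z : K} {α : ℂ} (h : Rs v z α) : Rs v (-z) (-α) := by
  have := (Rs.const v (-1)).mul h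
  simpa using this

theorem Rs.sub {v : Point K} {z w : K} {α β : ℂ} (h : Rs v z α) (h' : Rs v w β) :
    Rs v (z - w) (α - β) := by
  rw [sub_eq_add_neg, sub_eq_add_neg]
  exact h.add (Rs.neg h')

theorem Rs.val_one {v : Point K} {z : K} {α : ℂ} (h : Rs v z α) (hα : α ≠ 0) : v.val z = 1 := by
  have h1 := h.le
  have h2 : ¬ v.val z < 1 := fun h3 => hα (h.lt_iff.1 h3)
  exact le_antisymm h1 (not_lt.1 h2)

theorem Rs.ne_zero {v : Point K} {z : K} {α : ℂ} (h : Rs v z α) (hα : α ≠ 0) : z ≠ 0 := by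
  rintro rfl
  exact hα (h.unique (Rs.zero v))

theorem Rs.inv {v : Point K} {z : K} {α : ℂ} (h : Rs v z α) (hα : α ≠ 0) : Rs v z⁻¹ α⁻¹ := by
  have h1 := Rs.val_one h hα
  have h2 := Rs.ne_zero h hα
  have h3 : z⁻¹ - algebraMap ℂ K α⁻¹ = -(z⁻¹ * algebraMap ℂ K α⁻¹) * (z - algebraMap ℂ K α) := by
    have h4 : algebraMap ℂ K α ≠ 0 := by simpa using hα
    rw [map_inv₀]
    field_simp
    ring
  change v.val (z⁻¹ - algebraMap ℂ K α⁻¹) < 1
  rw [h3, map_mul, Valuation.map_neg, map_mul, map_inv₀, h1, inv_one, one_mul,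
    v.const _ (inv_ne_zero hα), one_mul]
  exact h

theorem Rs.div {v : Point K} {z w : K} {α β : ℂ} (h : Rs v z α) (h' : Rs v w β) (hβ : β ≠ 0) :
    Rs v (z / w) (α / β) := by
  rw [div_eq_mul_inv, div_eq_mul_inv]
  exact h.mul (Rs.inv h' hβ)

theorem transc_sub {x : K} (hx : Transcendental ℂ x) (c : ℂ) :
    Transcendental ℂ (x - algebraMap ℂ K c) := by
  intro h
  apply hx
  have := h.add (isAlgebraic_algebraMap (A := K) c)
  rwa [sub_add_cancel] at this

theorem adjoin_sub (x : K) (c : ℂ) : ℂ⟮x - algebraMap ℂ K c⟯ = ℂ⟮x⟯ := by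
  apply le_antisymm
  · rw [IntermediateField.adjoin_simple_le_iff]
    exact sub_mem (IntermediateField.mem_adjoin_simple_self ℂ x) (algebraMap_mem _ c)
  · rw [IntermediateField.adjoin_simple_le_iff]
    have h := add_mem (IntermediateField.mem_adjoin_simple_self ℂ (x - algebraMap ℂ K c))
      (algebraMap_mem ℂ⟮x - algebraMap ℂ K c⟯ c)
    rwa [sub_add_cancel] at h

/-- the zeros of `x - c` have total multiplicity two -/
theorem sum_le_two {x y : K} {f : ℂ[X]} {ι : K ≃ₐ[ℂ] K} (H : Hyp x y f ι) (c : ℂ)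
    (T : Finset (Point K)) (hT : ∀ v ∈ T, Rs v x c) :
    ∑ v ∈ T, v.ord (x - algebraMap ℂ K c) ≤ 2 := by
  classical
  have hxc := transc_sub H.trans c
  have hx0 : x - algebraMap ℂ K c ≠ 0 := fun h => by
    rw [h] at hxc
    exact hxc (isAlgebraic_zero)
  obtain ⟨S, hS, hsum⟩ := zero_count_aux H.curve hxc
  have h1 : (Module.finrank ℂ⟮x - algebraMap ℂ K c⟯ K : ℤ) = 2 := by
    rw [adjoin_sub]
    exact_mod_cast H.finrank_eq
  rw [h1] at hsum
  rw [← hsum]
  refine Finset.sum_le_sum_of_subset_of_nonneg (fun v hv => (hS v).2 (hT v hv)) fun v hv _ => ?_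
  exact ((Point.val_lt_one_iff v hx0).1 ((hS v).1 hv)).le

theorem ord_pos {v : Point K} {x : K} (hx : Transcendental ℂ x) {c : ℂ} (h : Rs v x c) :
    1 ≤ v.ord (x - algebraMap ℂ K c) := by
  have hxc := transc_sub hx c
  have hx0 : x - algebraMap ℂ K c ≠ 0 := fun h => by
    rw [h] at hxc
    exact hxc (isAlgebraic_zero)
  exact (Point.val_lt_one_iff v hx0).1 h

theorem rs_comap {x y : K} {f : ℂ[X]} {ι : K ≃ₐ[ℂ] K} (H : Hyp x y f ι) {v : Point K} {c b : ℂ}
    (hx : Rs v x c) (hy : Rs v y b) : Rs (v.comap ι) x c ∧ Rs (v.comap ι) y (-b) := by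
  constructor
  · change v.val (ι (x - algebraMap ℂ K c)) < 1
    rw [map_sub, H.inv_x, AlgEquiv.commutes]
    exact hx
  · change v.val (ι (y - algebraMap ℂ K (-b))) < 1
    rw [map_sub, H.inv_y, AlgEquiv.commutes]
    exact Rs.neg hy

/-- the equation at a point -/
theorem value_eq {x y : K} {f : ℂ[X]} {ι : K ≃ₐ[ℂ] K} (H : Hyp x y f ι) {v : Point K} {c b : ℂ}
    (hx : Rs v x c) (hy : Rs v y b) : b ^ 2 = f.eval c := by
  have h1 := hy.pow 2
  rw [H.eq] at h1
  exact h1.unique (aeval_sub_lt hx f)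

/-- at a zero of `y` the function `y` is a uniformizer -/
theorem ord_y {x y : K} {f : ℂ[X]} {ι : K ≃ₐ[ℂ] K} (H : Hyp x y f ι) {v : Point K} {c : ℂ}
    (hx : Rs v x c) (hy : Rs v y 0) : v.ord y = 1 ∧ v.ord (x - algebraMap ℂ K c) = 2 := by
  have h0 : f.eval c = 0 := by
    rw [← value_eq H hx hy]
    ring
  have h1 : v.ord (y ^ 2) = f.rootMultiplicity c * v.ord (x - algebraMap ℂ K c) := by
    rw [H.eq]
    exact ord_aeval H.trans hx f H.f_ne
  have h2 : f.rootMultiplicity c = 1 := by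
    have h3 := Polynomial.rootMultiplicity_le_one_of_separable H.sep c
    have h4 := (Polynomial.rootMultiplicity_pos H.f_ne).2 h0
    omega
  rw [h2, Point.ord_pow] at h1
  have h3 := ord_pos H.trans hx
  have h4 := sum_le_two H c {v} (by simpa using hx)
  rw [Finset.sum_singleton] at h4
  push_cast at h1
  omega

theorem comap_ne {x y : K} {f : ℂ[X]} {ι : K ≃ₐ[ℂ] K} (H : Hyp x y f ι) {v w : Point K} {c b : ℂ}
    (hx : Rs v x c) (hy : Rs v y b) (hy' : Rs w y b) (hb : b ≠ 0) : v.comap ι ≠ w := by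
  rintro rfl
  have h1 := (rs_comap H hx hy).2.unique hy'
  apply hb
  linear_combination (-1 / 2 : ℂ) * h1

/-- away from the zeros of `y` the function `x - c` is a uniformizer -/
theorem ord_x {x y : K} {f : ℂ[X]} {ι : K ≃ₐ[ℂ] K} (H : Hyp x y f ι) {v : Point K} {c b : ℂ}
    (hx : Rs v x c) (hy : Rs v y b) (hb : b ≠ 0) : v.ord (x - algebraMap ℂ K c) = 1 := by
  classical
  have h1 := rs_comap H hx hy
  have hne := comap_ne H hx hy hy hb
  have h4 := sum_le_two H c {v.comap ι, v} (by
    intro w hw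
    rw [Finset.mem_insert, Finset.mem_singleton] at hw
    rcases hw with rfl | rfl
    · exact h1.1
    · exact hx)
  rw [Finset.sum_pair hne] at h4
  have h5 := ord_pos H.trans hx
  have h6 := ord_pos H.trans h1.1
  omega

/-- A point of a hyperelliptic curve is determined by its coordinates. -/
theorem point_eq {x y : K} {f : ℂ[X]} {ι : K ≃ₐ[ℂ] K} (H : Hyp x y f ι) {v w : Point K} {c b : ℂ}
    (hx : Rs v x c) (hy : Rs v y b) (hx' : Rs w x c) (hy' : Rs w y b) : v = w := by
  classical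
  by_contra hvw
  rcases eq_or_ne b 0 with rfl | hb
  · have h1 := (ord_y H hx hy).2
    have h2 := (ord_y H hx' hy').2
    have h4 := sum_le_two H c {v, w} (by
      intro u hu
      rw [Finset.mem_insert, Finset.mem_singleton] at hu
      rcases hu with rfl | rfl
      · exact hx
      · exact hx')
    rw [Finset.sum_pair hvw] at h4
    omega
  · have h1 := rs_comap H hx hy
    have h4 := sum_le_two H c {v.comap ι, v, w} (by
      intro u hu
      rw [Finset.mem_insert, Finset.mem_insert, Finset.mem_singleton] at hu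
      rcases hu with rfl | rfl | rfl
      · exact h1.1
      · exact hx
      · exact hx')
    rw [Finset.sum_insert, Finset.sum_pair hvw] at h4
    · have h5 := ord_pos H.trans hx
      have h6 := ord_pos H.trans h1.1
      have h7 := ord_pos H.trans hx'
      omega
    · rw [Finset.mem_insert, Finset.mem_singleton, not_or]
      exact ⟨comap_ne H hx hy hy hb, comap_ne H hx hy hy' hb⟩

end Pool.Agent.R858.QD
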