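import Pool.Agent.R858.QD2

/-!
# The curve `y² = x⁶ + 1` and the elliptic curve `v² = u (u + 2) (u² - 3)`
-/

open scoped WithZero Polynomial IntermediateField
open WithZero

set_option linter.unusedVariables false
set_option linter.unusedSectionVars false

namespace Pool.Agent.R858.QD

open Pool.Agent.Helper395.CS hiding genus map_mul map_inv
open Pool.Agent.Helper395.BC
open Pool.Agent.R858.BN
open Pool.Agent.Y803.FD (Kf xf yf Pf Pf_irreducible hypf ιf phi phi_x phi_y yf_sq xf_transcendental)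
open Pool.Agent.W518.SMR (lpole lpole_val)

/-- `x⁶ + 1` -/
noncomputable def f6 : ℂ[X] := Polynomial.X ^ 6 + 1

/-- `(u + 2) (u³ - 3 u)` -/
noncomputable def f4 : ℂ[X] := (Polynomial.X + 2) * (Polynomial.X ^ 3 - 3 * Polynomial.X)

theorem f6_natDegree : f6.natDegree = 2 * (2 + 1) := by
  unfold f6
  compute_degree!

theorem f4_natDegree : f4.natDegree = 2 * (1 + 1) := by
  have : f4 = Polynomial.X ^ 4 + 2 * Polynomial.X ^ 3 - 3 * Polynomial.X ^ 2 - 6 * Polynomial.X := by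
    unfold f4
    ring
  rw [this]
  compute_degree!

theorem f6_sep : f6.Separable := by
  have h1 : f6 = Polynomial.X ^ 6 - Polynomial.C (-1 : ℂ) := by
    unfold f6
    simp
  rw [h1]
  exact Polynomial.separable_X_pow_sub_C _ (by norm_num) (by norm_num)

theorem f4_sep : f4.Separable := by
  rw [Polynomial.separable_def']
  refine ⟨Polynomial.C (7 / 3) + Polynomial.C (2 / 3) * Polynomial.X
    - Polynomial.C (8 / 3) * Polynomial.X ^ 2,
    -Polynomial.C (1 / 6) - Polynomial.C (13 / 6) * Polynomial.X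
    + Polynomial.C (1 / 6) * Polynomial.X ^ 2 + Polynomial.C (2 / 3) * Polynomial.X ^ 3, ?_⟩
  have h1 : f4 = Polynomial.X ^ 4 + Polynomial.C 2 * Polynomial.X ^ 3
      - Polynomial.C 3 * Polynomial.X ^ 2 - Polynomial.C 6 * Polynomial.X := by
    unfold f4
    have h2 : Polynomial.C (2 : ℂ) = 2 := rfl
    have h3 : Polynomial.C (3 : ℂ) = 3 := rfl
    have h6 : Polynomial.C (6 : ℂ) = 6 := rfl
    rw [h2, h3, h6]
    ring
  rw [h1]
  simp only [Polynomial.derivative_add, Polynomial.derivative_sub, Polynomial.derivative_mul,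
    Polynomial.derivative_C, Polynomial.derivative_X_pow, Polynomial.derivative_X]
  apply Polynomial.funext
  intro r
  simp
  ring

variable {K : Type} [Field K] [Algebra ℂ K] {x y : K} {ι : K ≃ₐ[ℂ] K}

theorem aeval_f6 (z : K) : Polynomial.aeval z f6 = z ^ 6 + 1 := by
  simp [f6]

theorem aeval_f4 (z : K) : Polynomial.aeval z f4 = (z + 2) * (z ^ 3 - 3 * z) := by
  have h2 : Polynomial.aeval z (2 : ℂ[X]) = 2 := map_ofNat _ 2
  have h3 : Polynomial.aeval z (3 : ℂ[X]) = 3 := map_ofNat _ 3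
  simp [f4, h2, h3]

theorem eval_f6 (c : ℂ) : f6.eval c = c ^ 6 + 1 := by
  simp [f6]

/-- the coordinates at infinity -/
theorem swap6 (H : Hyp x y f6 ι) : Hyp x⁻¹ (y / x ^ 3) f6 ι where
  curve := H.curve
  trans := transcendental_inv H.trans
  eq := by
    have hx := H.x_ne
    rw [div_pow, H.eq, aeval_f6, aeval_f6]
    field_simp
    ring
  sep := H.sep
  span := by
    intro z
    obtain ⟨a, ha, b, hb, rfl⟩ := H.span z
    rw [adjoin_inv]
    have hx : x ∈ ℂ⟮x⟯ := IntermediateField.mem_adjoin_simple_self ℂ x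
    refine ⟨a, ha, b * x ^ 3, mul_mem hb (pow_mem hx 3), ?_⟩
    have := H.x_ne
    field_simp
  inv_x := by rw [map_inv₀, H.inv_x]
  inv_y := by rw [map_div₀, map_pow, H.inv_x, H.inv_y, neg_div]

/-- the three kinds of points -/
theorem cases6 (H : Hyp x y f6 ι) (v : Point K) :
    (∃ c b : ℂ, c ≠ 0 ∧ Rs v x c ∧ Rs v y b ∧ b ^ 2 = c ^ 6 + 1) ∨
    (∃ b : ℂ, b ^ 2 = 1 ∧ Rs v x 0 ∧ Rs v y b) ∨
    (∃ b : ℂ, b ^ 2 = 1 ∧ Rs v x⁻¹ 0 ∧ Rs v (y / x ^ 3) b) := by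
  have key : ∀ {x' y' : K} (H' : Hyp x' y' f6 ι), v.val x' ≤ 1 →
      ∃ c b : ℂ, Rs v x' c ∧ Rs v y' b ∧ b ^ 2 = c ^ 6 + 1 := by
    intro x' y' H' h
    obtain ⟨c, hc⟩ := Rs.exists H'.curve h
    have h1 : v.val (y' ^ 2) ≤ 1 := by
      rw [H'.eq]
      exact aeval_le h f6
    rw [map_pow] at h1
    obtain ⟨b, hb⟩ := Rs.exists H'.curve ((pow_le_one_iff two_ne_zero).1 h1)
    refine ⟨c, b, hc, hb, ?_⟩
    rw [value_eq H' hc hb, eval_f6]
  rcases le_or_gt (v.val x) 1 with h | h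
  · obtain ⟨c, b, hc, hb, hcb⟩ := key H h
    rcases eq_or_ne c 0 with rfl | hc0
    · exact Or.inr (Or.inl ⟨b, by rw [hcb]; norm_num, hc, hb⟩)
    · exact Or.inl ⟨c, b, hc0, hc, hb, hcb⟩
  · have h2 : v.val x⁻¹ < 1 := by
      rw [map_inv₀]
      exact inv_lt_one_of_one_lt₀ h
    obtain ⟨c, b, hc, hb, hcb⟩ := key (swap6 H) h2.le
    have h3 : c = 0 := hc.lt_iff.1 h2
    subst h3
    exact Or.inr (Or.inr ⟨b, by rw [hcb]; norm_num, hc, hb⟩)

/-- `t + 1 / t` for `t = ω x` -/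
noncomputable def Uf (x : K) (ω : ℂ) : K := algebraMap ℂ K ω * x + (algebraMap ℂ K ω * x)⁻¹

/-- `y (1 + t) / t²` for `t = ω x` -/
noncomputable def Vf (x y : K) (ω : ℂ) : K :=
  y * (1 + algebraMap ℂ K ω * x) / (algebraMap ℂ K ω * x) ^ 2

theorem t_ne (hx : x ≠ 0) {ω : ℂ} (hω : ω ≠ 0) : algebraMap ℂ K ω * x ≠ 0 :=
  mul_ne_zero (by simpa using hω) hx

theorem Vf_sq (H : Hyp x y f6 ι) {ω : ℂ} (hω : ω ^ 6 = 1) :
    Vf x y ω ^ 2 = Polynomial.aeval (Uf x ω) f4 := by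
  have hω0 : ω ≠ 0 := by
    rintro rfl
    norm_num at hω
  have ht := t_ne H.x_ne hω0
  have h6 : (algebraMap ℂ K ω * x) ^ 6 = x ^ 6 := by
    rw [mul_pow, ← map_pow, hω, map_one, one_mul]
  have hy : y ^ 2 = (algebraMap ℂ K ω * x) ^ 6 + 1 := by rw [h6, H.eq, aeval_f6]
  rw [aeval_f4, Uf, Vf]
  set t := algebraMap ℂ K ω * x
  rw [div_pow, mul_pow, hy]
  field_simp
  ring

theorem Uf_transc (H : Hyp x y f6 ι) {ω : ℂ} (hω : ω ≠ 0) : Transcendental ℂ (Uf x ω) := by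
  by_contra h
  obtain ⟨c, hc⟩ := exists_const h
  have ht := t_ne H.x_ne hω
  have h1 : (algebraMap ℂ K ω * x) ^ 2 - algebraMap ℂ K c * (algebraMap ℂ K ω * x) + 1 = 0 := by
    rw [← hc, Uf]
    set t := algebraMap ℂ K ω * x
    field_simp
    ring
  apply H.trans
  refine ⟨Polynomial.C (ω ^ 2) * Polynomial.X ^ 2 - Polynomial.C (c * ω) * Polynomial.X + 1, ?_, ?_⟩
  · intro h2
    have h3 := congrArg (Polynomial.eval 0) h2
    simp at h3
  · simp only [map_add, map_sub, map_mul, map_pow, Polynomial.aeval_C, Polynomial.aeval_X, map_one]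
    rw [← h1]
    ring

/-- the values of the coordinates at a general point -/
theorem rs_U {v : Point K} {c : ℂ} (hc : Rs v x c) (hc0 : c ≠ 0) {ω : ℂ} (hω : ω ≠ 0) :
    Rs v (Uf x ω) (ω * c + (ω * c)⁻¹) := by
  have h1 := (Rs.const v ω).mul hc
  exact h1.add (Rs.inv h1 (mul_ne_zero hω hc0))

theorem rs_V {v : Point K} {c b : ℂ} (hc : Rs v x c) (hb : Rs v y b) (hc0 : c ≠ 0) {ω : ℂ}
    (hω : ω ≠ 0) : Rs v (Vf x y ω) (b * (1 + ω * c) / (ω * c) ^ 2) := by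
  have h1 := (Rs.const v ω).mul hc
  have h2 : Rs v (1 : K) 1 := by simpa using Rs.const v 1
  exact Rs.div (hb.mul (h2.add h1)) (h1.pow 2) (pow_ne_zero 2 (mul_ne_zero hω hc0))

/-- the points above `x = 0` -/
theorem rs_Uinv_zero (hx : x ≠ 0) {v : Point K} (hc : Rs v x 0) {ω : ℂ} (hω : ω ≠ 0) :
    Rs v (Uf x ω)⁻¹ 0 := by
  have ht := t_ne hx hω
  have h1 := (Rs.const v ω).mul hc
  have h2 : Rs v (1 : K) 1 := by simpa using Rs.const v 1
  have h3 : (Uf x ω)⁻¹ = (algebraMap ℂ K ω * x) / ((algebraMap ℂ K ω * x) ^ 2 + 1) := by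
    rw [Uf]
    set t := algebraMap ℂ K ω * x
    have : t + t⁻¹ = (t ^ 2 + 1) / t := by
      field_simp
    rw [this, inv_div]
  rw [h3]
  have h4 := Rs.div h1 ((h1.pow 2).add h2) (by simp)
  simpa using h4

theorem rs_W_zero (hx : x ≠ 0) {v : Point K} {b : ℂ} (hc : Rs v x 0) (hb : Rs v y b) {ω : ℂ}
    (hω : ω ≠ 0) : Rs v (Vf x y ω * (Uf x ω)⁻¹ ^ 2) b := by
  have ht := t_ne hx hω
  have h1 := (Rs.const v ω).mul hc
  have h2 : Rs v (1 : K) 1 := by simpa using Rs.const v 1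
  have h3 : Vf x y ω * (Uf x ω)⁻¹ ^ 2 =
      y * (1 + algebraMap ℂ K ω * x) / ((algebraMap ℂ K ω * x) ^ 2 + 1) ^ 2 := by
    rw [Uf, Vf]
    set t := algebraMap ℂ K ω * x
    have : t + t⁻¹ = (t ^ 2 + 1) / t := by
      field_simp
    rw [this, inv_div, div_pow]
    field_simp
  rw [h3]
  have h4 := Rs.div (hb.mul (h2.add h1)) (((h1.pow 2).add h2).pow 2) (by simp)
  simpa using h4

/-- the points at infinity -/
theorem rs_Uinv_inf (hx : x ≠ 0) {v : Point K} (hc : Rs v x⁻¹ 0) {ω : ℂ} (hω : ω ≠ 0) :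
    Rs v (Uf x ω)⁻¹ 0 := by
  have ht := t_ne hx hω
  have h1 := (Rs.const v ω⁻¹).mul hc
  have h2 : Rs v (1 : K) 1 := by simpa using Rs.const v 1
  have hωK : algebraMap ℂ K ω ≠ 0 := by simpa using hω
  have h3 : (Uf x ω)⁻¹ = (algebraMap ℂ K ω⁻¹ * x⁻¹) / (1 + (algebraMap ℂ K ω⁻¹ * x⁻¹) ^ 2) := by
    rw [Uf, map_inv₀, ← mul_inv]
    set t := algebraMap ℂ K ω * x
    have h5 : t + t⁻¹ = (1 + t⁻¹ ^ 2) / t⁻¹ := by
      field_simp
    rw [h5, inv_div]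
  rw [h3]
  have h4 := Rs.div h1 (h2.add (h1.pow 2)) (by simp)
  simpa using h4

theorem rs_W_inf (hx : x ≠ 0) {v : Point K} {b : ℂ} (hc : Rs v x⁻¹ 0) (hb : Rs v (y / x ^ 3) b)
    {ω : ℂ} (hω : ω ≠ 0) : Rs v (Vf x y ω * (Uf x ω)⁻¹ ^ 2) (b * (ω⁻¹) ^ 3) := by
  have ht := t_ne hx hω
  have h1 := (Rs.const v ω⁻¹).mul hc
  have h2 : Rs v (1 : K) 1 := by simpa using Rs.const v 1
  have hωK : algebraMap ℂ K ω ≠ 0 := by simpa using hω
  have hωi := (Rs.const v ω⁻¹).pow 3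
  have h3 : Vf x y ω * (Uf x ω)⁻¹ ^ 2 =
      (y / x ^ 3) * (algebraMap ℂ K ω⁻¹) ^ 3 * (1 + algebraMap ℂ K ω⁻¹ * x⁻¹) /
        (1 + (algebraMap ℂ K ω⁻¹ * x⁻¹) ^ 2) ^ 2 := by
    have h6 : (y / x ^ 3) * (algebraMap ℂ K ω⁻¹) ^ 3 = y * (algebraMap ℂ K ω * x)⁻¹ ^ 3 := by
      rw [map_inv₀]
      field_simp
    rw [h6, Uf, Vf, map_inv₀, ← mul_inv]
    set t := algebraMap ℂ K ω * x
    have h5 : t + t⁻¹ = (1 + t⁻¹ ^ 2) / t⁻¹ := by
      field_simp
    rw [h5, inv_div, div_pow]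
    field_simp
    ring
  rw [h3]
  have h4 := Rs.div ((hb.mul hωi).mul (h2.add h1)) ((h2.add (h1.pow 2)).pow 2) (by simp)
  simpa using h4

end Pool.Agent.R858.QD
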