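import Pool.Agent.R858.QD3

/-!
# The curve `y² = x⁶ + 1` in the square of `v² = u (u + 2) (u² - 3)`
-/

open scoped WithZero Polynomial IntermediateField
open WithZero

set_option linter.unusedVariables false
set_option linter.unusedSectionVars false

namespace Pool.Agent.R858.QD

open Pool.Agent.Helper395.CS hiding genus map_mul map_inv
open Pool.Agent.Helper395.BC
open Pool.Agent.R858.BN

variable {F K : Type} [Field F] [Algebra ℂ F] [Field K] [Algebra ℂ K] {x y : K} {ι : K ≃ₐ[ℂ] K}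

theorem rs_one (v : Point K) : Rs v (1 : K) 1 := by simpa using Rs.const v 1

theorem no_pole {v : Point K} {z : K} {α : ℂ} (h : Rs v z α) (h0 : z ≠ 0) (h' : Rs v z⁻¹ 0) :
    False := by
  have h1 := h.mul h'
  rw [mul_inv_cancel₀ h0, mul_zero] at h1
  exact one_ne_zero ((rs_one v).unique h1)

/-- `v` and `w` have the same image: a function with a value at `v` has the same value at `w` -/
theorem LiesOver.rs {φ : F →ₐ[ℂ] K} {v w : Point K} {p : Point F} (hv : LiesOver φ v p)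
    (hw : LiesOver φ w p) {z : F} {α : ℂ} (h : Rs v (φ z) α) : Rs w (φ z) α := by
  have h1 : ∀ u : F, w.val (φ u) ≤ 1 → v.val (φ u) ≤ 1 := fun u hu => (hv u).2 ((hw u).1 hu)
  have h2 : φ z - algebraMap ℂ K α = φ (z - algebraMap ℂ F α) := by
    rw [map_sub, AlgHom.commutes]
  change w.val (φ z - algebraMap ℂ K α) < 1
  change v.val (φ z - algebraMap ℂ K α) < 1 at h
  rw [h2] at h ⊢
  by_contra hcon
  rw [not_lt] at hcon
  rcases eq_or_ne (z - algebraMap ℂ F α) 0 with h0 | h0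
  · rw [h0, map_zero, map_zero] at hcon
    exact absurd hcon (by simp)
  have h3 := h1 (z - algebraMap ℂ F α)⁻¹ (by
    rw [map_inv₀, map_inv₀]
    exact inv_le_one_of_one_le₀ hcon)
  rw [map_inv₀, map_inv₀] at h3
  have h4 : v.val (φ (z - algebraMap ℂ F α)) ≠ 0 := v.val_ne_zero ((map_ne_zero φ).2 h0)
  have h5 : 1 ≤ v.val (φ (z - algebraMap ℂ F α)) := (inv_le_one₀ (zero_lt_iff.2 h4)).1 h3
  exact absurd h (not_lt.2 h5)

theorem sum_inv_eq {a b : ℂ} (ha : a ≠ 0) (hb : b ≠ 0) (h : a + a⁻¹ = b + b⁻¹) :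
    a = b ∨ a * b = 1 := by
  have h1 : (a - b) * (a * b - 1) = 0 := by
    field_simp at h
    linear_combination h
  rcases mul_eq_zero.1 h1 with h2 | h2
  · exact Or.inl (sub_eq_zero.1 h2)
  · exact Or.inr (sub_eq_zero.1 h2)

/-- the two functions to `E` separate the points -/
theorem inj6 (H : Hyp x y f6 ι) {ω : ℂ} (hω3 : ω ^ 3 = -1) (hω2 : ω ^ 2 ≠ 1) {v w : Point K}
    (h : ∀ ε : ℂ, (ε = 1 ∨ ε = ω) → ∀ α : ℂ, (Rs v (Uf x ε) α → Rs w (Uf x ε) α) ∧
      (Rs v (Vf x y ε) α → Rs w (Vf x y ε) α) ∧ (Rs v (Uf x ε)⁻¹ α → Rs w (Uf x ε)⁻¹ α) ∧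
      (Rs v (Vf x y ε * (Uf x ε)⁻¹ ^ 2) α → Rs w (Vf x y ε * (Uf x ε)⁻¹ ^ 2) α)) : v = w := by
  have hω0 : ω ≠ 0 := by
    rintro rfl
    norm_num at hω3
  have hωi : (ω⁻¹) ^ 3 = -1 := by
    rw [inv_pow, hω3]
    norm_num
  have hx := H.x_ne
  have hU : ∀ ε : ℂ, ε ≠ 0 → Uf x ε ≠ 0 := fun ε hε h0 => by
    have := Uf_transc H hε
    rw [h0] at this
    exact this isAlgebraic_zero
  have h10 : (1 : ℂ) ≠ 0 := one_ne_zero
  have hb0 : ∀ b : ℂ, b ^ 2 = 1 → b ≠ 0 := by
    rintro b hb rfl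
    norm_num at hb
  rcases cases6 H v with ⟨c, b, hc0, hc, hb, hcb⟩ | ⟨b, hb1, hc, hb⟩ | ⟨b, hb1, hc, hb⟩
  · have hw1 := (h 1 (Or.inl rfl) _).1 (rs_U hc hc0 h10)
    have hw2 := (h ω (Or.inr rfl) _).1 (rs_U hc hc0 hω0)
    have hv1 := (h 1 (Or.inl rfl) _).2.1 (rs_V hc hb hc0 h10)
    have hv2 := (h ω (Or.inr rfl) _).2.1 (rs_V hc hb hc0 hω0)
    rcases cases6 H w with ⟨c', b', hc0', hc', hb', hcb'⟩ | ⟨b', hb1', hc', hb'⟩ |
      ⟨b', hb1', hc', hb'⟩
    · have e1 := hw1.unique (rs_U hc' hc0' h10)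
      have e2 := hw2.unique (rs_U hc' hc0' hω0)
      have e3 := hv1.unique (rs_V hc' hb' hc0' h10)
      have e4 := hv2.unique (rs_V hc' hb' hc0' hω0)
      rw [one_mul, one_mul] at e1 e3
      have hcc : c = c' := by
        rcases sum_inv_eq hc0 hc0' e1 with h1 | h1
        · exact h1
        rcases sum_inv_eq (mul_ne_zero hω0 hc0) (mul_ne_zero hω0 hc0') e2 with h2 | h2
        · exact mul_left_cancel₀ hω0 h2
        · exfalso
          apply hω2
          have h3 : ω * c * (ω * c') = ω ^ 2 * (c * c') := by ring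
          rw [h3, h1, mul_one] at h2
          exact h2
      subst hcc
      have hbb : b = b' := by
        rcases eq_or_ne (1 + c) 0 with h1 | h1
        · have hc1 : c = -1 := by linear_combination h1
          have h2 : 1 + ω * c ≠ 0 := by
            rw [hc1]
            intro h3
            apply hω2
            have h4 : ω = 1 := by linear_combination -h3
            rw [h4]
            norm_num
          have h5 := (div_left_inj' (pow_ne_zero 2 (mul_ne_zero hω0 hc0))).1 e4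
          exact mul_right_cancel₀ h2 h5
        · have h5 := (div_left_inj' (pow_ne_zero 2 hc0)).1 e3
          exact mul_right_cancel₀ h1 h5
      subst hbb
      exact point_eq H hc hb hc' hb'
    · exact (no_pole hw1 (hU 1 h10) (rs_Uinv_zero hx hc' h10)).elim
    · exact (no_pole hw1 (hU 1 h10) (rs_Uinv_inf hx hc' h10)).elim
  · have hw1 := (h 1 (Or.inl rfl) _).2.2.1 (rs_Uinv_zero hx hc h10)
    have hv1 := (h 1 (Or.inl rfl) _).2.2.2 (rs_W_zero hx hc hb h10)
    have hv2 := (h ω (Or.inr rfl) _).2.2.2 (rs_W_zero hx hc hb hω0)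
    rcases cases6 H w with ⟨c', b', hc0', hc', hb', hcb'⟩ | ⟨b', hb1', hc', hb'⟩ |
      ⟨b', hb1', hc', hb'⟩
    · exact (no_pole (rs_U hc' hc0' h10) (hU 1 h10) hw1).elim
    · have e1 := hv1.unique (rs_W_zero hx hc' hb' h10)
      subst e1
      exact point_eq H hc hb hc' hb'
    · have e1 := hv1.unique (rs_W_inf hx hc' hb' h10)
      have e2 := hv2.unique (rs_W_inf hx hc' hb' hω0)
      rw [inv_one, one_pow, mul_one] at e1
      rw [hωi] at e2
      exfalso
      apply hb0 b hb1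
      linear_combination (1 / 2 : ℂ) * e1 + (1 / 2 : ℂ) * e2
  · have hw1 := (h 1 (Or.inl rfl) _).2.2.1 (rs_Uinv_inf hx hc h10)
    have hv1 := (h 1 (Or.inl rfl) _).2.2.2 (rs_W_inf hx hc hb h10)
    have hv2 := (h ω (Or.inr rfl) _).2.2.2 (rs_W_inf hx hc hb hω0)
    rw [inv_one, one_pow, mul_one] at hv1
    rw [hωi] at hv2
    rcases cases6 H w with ⟨c', b', hc0', hc', hb', hcb'⟩ | ⟨b', hb1', hc', hb'⟩ |
      ⟨b', hb1', hc', hb'⟩
    · exact (no_pole (rs_U hc' hc0' h10) (hU 1 h10) hw1).elim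
    · have e1 := hv1.unique (rs_W_zero hx hc' hb' h10)
      have e2 := hv2.unique (rs_W_zero hx hc' hb' hω0)
      exfalso
      apply hb0 b hb1
      linear_combination (1 / 2 : ℂ) * e1 - (1 / 2 : ℂ) * e2
    · have e1 := hv1.unique (rs_W_inf hx hc' hb' h10)
      rw [inv_one, one_pow, mul_one] at e1
      subst e1
      exact point_eq (swap6 H) hc hb hc' hb'

theorem ord_mul_unit {v : Point K} {z u : K} {γ : ℂ} (hz : z ≠ 0) (hu : Rs v u γ) (hγ : γ ≠ 0) :
    v.ord (z * u) = v.ord z := by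
  have h1 := Rs.ne_zero hu hγ
  rw [v.ord_mul hz h1, (v.val_eq_one_iff h1).1 (Rs.val_one hu hγ), add_zero]

/-- at each point one of the two functions to `E` is unramified -/
theorem imm6 (H : Hyp x y f6 ι) {ω : ℂ} (hω0 : ω ≠ 0) (hω2 : ω ^ 2 ≠ 1) (v : Point K) :
    ∃ ε : ℂ, (ε = 1 ∨ ε = ω) ∧ ((∃ α : ℂ, v.ord (Uf x ε - algebraMap ℂ K α) = 1) ∨
      v.ord (Vf x y ε) = 1 ∨ v.ord (Uf x ε)⁻¹ = 1) := by
  have hx := H.x_ne
  rcases cases6 H v with ⟨c, b, hc0, hc, hb, hcb⟩ | ⟨b, hb1, hc, hb⟩ | ⟨b, hb1, hc, hb⟩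
  · rcases eq_or_ne b 0 with rfl | hb0
    · refine ⟨1, Or.inl rfl, Or.inr (Or.inl ?_)⟩
      have h1 : Vf x y 1 = y * ((1 + x) / x ^ 2) := by
        rw [Vf, map_one, one_mul, mul_div_assoc]
      have hc1 : 1 + c ≠ 0 := by
        intro h2
        have h3 : c = -1 := by linear_combination h2
        rw [h3] at hcb
        norm_num at hcb
      rw [h1, ord_mul_unit H.y_ne (Rs.div ((rs_one v).add hc) (hc.pow 2) (pow_ne_zero 2 hc0))
        (div_ne_zero hc1 (pow_ne_zero 2 hc0))]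
      exact (ord_y H hc hb).1
    · have key : ∀ ε : ℂ, ε ≠ 0 → (ε * c) ^ 2 ≠ 1 →
          v.ord (Uf x ε - algebraMap ℂ K (ε * c + (ε * c)⁻¹)) = 1 := by
        intro ε hε hεc
        have ht := t_ne hx hε
        have ha : ε * c ≠ 0 := mul_ne_zero hε hc0
        have haK : algebraMap ℂ K ε * algebraMap ℂ K c ≠ 0 := by
          rw [← map_mul]
          simpa using ha
        have h1 : Uf x ε - algebraMap ℂ K (ε * c + (ε * c)⁻¹) = (x - algebraMap ℂ K c) *
            (algebraMap ℂ K ε * (1 - (algebraMap ℂ K ε * x)⁻¹ * algebraMap ℂ K (ε * c)⁻¹)) := by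
          rw [Uf, map_add, map_inv₀, map_mul]
          have h2 : (x - algebraMap ℂ K c) * (algebraMap ℂ K ε *
              (1 - (algebraMap ℂ K ε * x)⁻¹ * (algebraMap ℂ K ε * algebraMap ℂ K c)⁻¹)) =
              (algebraMap ℂ K ε * x - algebraMap ℂ K ε * algebraMap ℂ K c) *
              (1 - (algebraMap ℂ K ε * x)⁻¹ * (algebraMap ℂ K ε * algebraMap ℂ K c)⁻¹) := by
            ring
          rw [h2]
          set t := algebraMap ℂ K ε * x
          set a := algebraMap ℂ K ε * algebraMap ℂ K c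
          field_simp
          ring
        have h3 : Rs v (algebraMap ℂ K ε *
            (1 - (algebraMap ℂ K ε * x)⁻¹ * algebraMap ℂ K (ε * c)⁻¹))
            (ε * (1 - (ε * c)⁻¹ * (ε * c)⁻¹)) :=
          (Rs.const v ε).mul (Rs.sub (rs_one v)
            ((Rs.inv ((Rs.const v ε).mul hc) ha).mul (Rs.const v _)))
        have h4 : ε * (1 - (ε * c)⁻¹ * (ε * c)⁻¹) ≠ 0 := by
          apply mul_ne_zero hε
          intro h5
          apply hεc
          have h6 : (ε * c)⁻¹ * (ε * c)⁻¹ = 1 := by linear_combination -h5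
          have h7 : ((ε * c) ^ 2)⁻¹ = 1 := by
            rw [← h6]
            ring
          exact inv_eq_one.1 h7
        have hxc : x - algebraMap ℂ K c ≠ 0 := fun h => by
          have := transc_sub H.trans c
          rw [h] at this
          exact this isAlgebraic_zero
        rw [h1, ord_mul_unit hxc h3 h4]
        exact ord_x H hc hb hb0
      by_cases hc2 : c ^ 2 = 1
      · refine ⟨ω, Or.inr rfl, Or.inl ⟨_, key ω hω0 ?_⟩⟩
        rw [mul_pow, hc2, mul_one]
        exact hω2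
      · refine ⟨1, Or.inl rfl, Or.inl ⟨_, key 1 one_ne_zero ?_⟩⟩
        rw [one_mul]
        exact hc2
  · refine ⟨1, Or.inl rfl, Or.inr (Or.inr ?_)⟩
    have hb0 : b ≠ 0 := by
      rintro rfl
      norm_num at hb1
    have h1 : (Uf x 1)⁻¹ = x * (1 / (x ^ 2 + 1)) := by
      rw [Uf, map_one, one_mul]
      have : x + x⁻¹ = (x ^ 2 + 1) / x := by
        field_simp
      rw [this, inv_div, mul_one_div]
    rw [h1, ord_mul_unit hx (Rs.div (rs_one v) ((hc.pow 2).add (rs_one v)) (by norm_num))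
      (by norm_num)]
    have := ord_x H hc hb hb0
    rwa [map_zero, sub_zero] at this
  · refine ⟨1, Or.inl rfl, Or.inr (Or.inr ?_)⟩
    have hb0 : b ≠ 0 := by
      rintro rfl
      norm_num at hb1
    have h1 : (Uf x 1)⁻¹ = x⁻¹ * (1 / (x⁻¹ ^ 2 + 1)) := by
      rw [Uf, map_one, one_mul]
      have : x + x⁻¹ = (x⁻¹ ^ 2 + 1) / x⁻¹ := by
        field_simp
        ring
      rw [this, inv_div, mul_one_div]
    rw [h1, ord_mul_unit (inv_ne_zero hx)
      (Rs.div (rs_one v) ((hc.pow 2).add (rs_one v)) (by norm_num)) (by norm_num)]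
    have := ord_x (swap6 H) hc hb hb0
    rwa [map_zero, sub_zero] at this

theorem max_val (H : Hyp x y f6 ι) (v : Point K) {ε : ℂ} (hε : ε ≠ 0) :
    max 1 (v.val (Uf x ε)) = max (v.val x) (v.val x)⁻¹ := by
  have hx := H.x_ne
  have ht := t_ne hx hε
  have hvt : v.val (algebraMap ℂ K ε * x) = v.val x := by
    rw [map_mul, v.const ε hε, one_mul]
  have hv0 : v.val x ≠ 0 := v.val_ne_zero hx
  unfold Uf
  rcases lt_trichotomy (v.val x) 1 with h | h | h
  · have h1 : 1 < (v.val x)⁻¹ := (one_lt_inv₀ (zero_lt_iff.2 hv0)).2 h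
    have h2 : v.val (algebraMap ℂ K ε * x + (algebraMap ℂ K ε * x)⁻¹) = (v.val x)⁻¹ := by
      rw [Valuation.map_add_eq_of_lt_right, map_inv₀, hvt]
      rw [map_inv₀, hvt]
      exact h.trans h1
    rw [h2, max_eq_right h1.le, max_eq_right (h.trans h1).le]
  · have h2 : v.val (algebraMap ℂ K ε * x + (algebraMap ℂ K ε * x)⁻¹) ≤ 1 := by
      refine Valuation.map_add_le _ ?_ ?_
      · rw [hvt, h]
      · rw [map_inv₀, hvt, h, inv_one]
    rw [max_eq_left h2, h, inv_one, max_self]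
  · have h1 : (v.val x)⁻¹ < 1 := inv_lt_one_of_one_lt₀ h
    have h2 : v.val (algebraMap ℂ K ε * x + (algebraMap ℂ K ε * x)⁻¹) = v.val x := by
      rw [Valuation.map_add_eq_of_lt_left, hvt]
      rw [map_inv₀, hvt]
      exact h1.trans h
    rw [h2, max_eq_right h.le, max_eq_left (h1.trans h).le]

end Pool.Agent.R858.QD
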