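import Pool.Agent.R858.QD4
import Pool.Agent.R858.Nm4

/-!
# The fibres of the double cover of the line
-/

open scoped WithZero Polynomial IntermediateField
open WithZero

set_option linter.unusedVariables false
set_option linter.unusedSectionVars false

namespace Pool.Agent.R858.QD

open Pool.Agent.Helper395.CS hiding genus map_mul map_inv
open Pool.Agent.Helper395.BC
open Pool.Agent.R858.BN

variable {F K : Type} [Field F] [Algebra ℂ F] [Field K] [Algebra ℂ K] {x y : K} {f : ℂ[X]}
  {ι : K ≃ₐ[ℂ] K}

theorem sum_le_two_inf (H : Hyp x y f ι) (T : Finset (Point K)) (hT : ∀ v ∈ T, 1 < v.val x) :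
    ∑ v ∈ T, v.ord x⁻¹ ≤ 2 := by
  classical
  have hxc := transcendental_inv H.trans
  have hx0 := inv_ne_zero H.x_ne
  obtain ⟨S, hS, hsum⟩ := zero_count_aux H.curve hxc
  have h1 : (Module.finrank ℂ⟮x⁻¹⟯ K : ℤ) = 2 := by
    rw [adjoin_inv]
    exact_mod_cast H.finrank_eq
  rw [h1] at hsum
  rw [← hsum]
  have hlt : ∀ v : Point K, 1 < v.val x → v.val x⁻¹ < 1 := by
    intro v hv
    rw [map_inv₀]
    exact inv_lt_one_of_one_lt₀ hv
  refine Finset.sum_le_sum_of_subset_of_nonneg (fun v hv => (hS v).2 (hlt v (hT v hv)))
    fun v hv _ => ?_
  exact ((Point.val_lt_one_iff v hx0).1 ((hS v).1 hv)).le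

theorem ord_inf (H : Hyp x y f ι) {v : Point K} (hv : 1 < v.val x) : 1 ≤ v.ord x⁻¹ := by
  have h1 : v.val x⁻¹ < 1 := by
    rw [map_inv₀]
    exact inv_lt_one_of_one_lt₀ hv
  exact (Point.val_lt_one_iff v (inv_ne_zero H.x_ne)).1 h1

theorem comap_ne_inf (H : Hyp x y f ι) {m : ℕ} (hm : f.natDegree = 2 * m) {v : Point K}
    (hv : 1 < v.val x) : v.comap ι ≠ v := by
  intro h
  have h1 := hyp_val_y H hm hv
  have hx := H.x_ne
  have h2 : v.val (y / x ^ m) = 1 := by
    rw [map_div₀, map_pow, h1, div_self]
    exact pow_ne_zero _ (v.val_ne_zero hx)
  obtain ⟨b, hb⟩ := Rs.exists H.curve h2.le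
  have h3 : Rs (v.comap ι) (y / x ^ m) (-b) := by
    change v.val (ι (y / x ^ m - algebraMap ℂ K (-b))) < 1
    rw [map_sub, map_div₀, map_pow, H.inv_x, H.inv_y, AlgEquiv.commutes, neg_div]
    exact Rs.neg hb
  rw [h] at h3
  have h4 := hb.unique h3
  have h5 : b = 0 := by linear_combination (1 / 2 : ℂ) * h4
  have h6 := hb.lt_iff.2 h5
  rw [h2] at h6
  exact lt_irrefl _ h6

open Classical in
/-- the divisor of a fibre of `x` -/
theorem exists_pair (H : Hyp x y f ι) {m : ℕ} (hm : f.natDegree = 2 * m) (P : Point K) :
    ∃ g : K, g ≠ 0 ∧ ∀ R : Point K, R.ord g =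
      (if P = R then 1 else 0) + (if P.comap ι = R then 1 else 0) - max (-R.ord x) 0 := by
  have hx := H.x_ne
  rcases le_or_gt (P.val x) 1 with hP | hP
  · obtain ⟨c, hc⟩ := Rs.exists H.curve hP
    have h1 : P.val (y ^ 2) ≤ 1 := by
      rw [H.eq]
      exact aeval_le hP f
    rw [map_pow] at h1
    obtain ⟨b, hb⟩ := Rs.exists H.curve ((pow_le_one_iff two_ne_zero).1 h1)
    have hxc : x - algebraMap ℂ K c ≠ 0 := fun h => by
      have := transc_sub H.trans c
      rw [h] at this
      exact this isAlgebraic_zero
    have hco := rs_comap H hc hb
    refine ⟨x - algebraMap ℂ K c, hxc, fun R => ?_⟩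
    rcases le_or_gt (R.val x) 1 with hR | hR
    · have h2 : max (-R.ord x) 0 = 0 := by
        have := (R.val_le_one_iff hx).1 hR
        omega
      rw [h2, sub_zero]
      obtain ⟨c', hc'⟩ := Rs.exists H.curve hR
      rcases eq_or_ne c' c with rfl | hcc
      · rcases eq_or_ne b 0 with rfl | hb0
        · have h3 : P.comap ι = P := point_eq H hco.1 (by simpa using hco.2) hc hb
          rw [h3]
          by_cases hPR : P = R
          · subst hPR
            rw [if_pos rfl, (ord_y H hc hb).2]
            norm_num
          · exfalso
            have h4 := sum_le_two H c' {P, R} (by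
              intro w hw
              rw [Finset.mem_insert, Finset.mem_singleton] at hw
              rcases hw with rfl | rfl
              · exact hc
              · exact hc')
            rw [Finset.sum_pair hPR, (ord_y H hc hb).2] at h4
            have := ord_pos H.trans hc'
            omega
        · have h3 := comap_ne H hc hb hb hb0
          by_cases hPR : P = R
          · subst hPR
            rw [if_pos rfl, if_neg h3, ord_x H hc hb hb0]
            norm_num
          · by_cases hPR' : P.comap ι = R
            · subst hPR'
              rw [if_neg hPR, if_pos rfl, ord_x H hco.1 hco.2 (neg_ne_zero.2 hb0)]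
              norm_num
            · exfalso
              have h4 := sum_le_two H c' {P.comap ι, P, R} (by
                intro w hw
                rw [Finset.mem_insert, Finset.mem_insert, Finset.mem_singleton] at hw
                rcases hw with rfl | rfl | rfl
                · exact hco.1
                · exact hc
                · exact hc')
              rw [Finset.sum_insert, Finset.sum_pair hPR] at h4
              · have h5 := ord_pos H.trans hc
                have h6 := ord_pos H.trans hco.1
                have h7 := ord_pos H.trans hc'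
                omega
              · rw [Finset.mem_insert, Finset.mem_singleton, not_or]
                exact ⟨h3, hPR'⟩
      · have h3 : Rs R (x - algebraMap ℂ K c) (c' - c) := Rs.sub hc' (Rs.const R c)
        have h4 : P ≠ R := by
          rintro rfl
          exact hcc (hc'.unique hc)
        have h5 : P.comap ι ≠ R := by
          rintro rfl
          exact hcc (hc'.unique hco.1)
        rw [if_neg h4, if_neg h5, (R.val_eq_one_iff hxc).1 (Rs.val_one h3 (sub_ne_zero.2 hcc))]
        norm_num
    · have h2 : R.val (x - algebraMap ℂ K c) = R.val x := by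
        rw [sub_eq_add_neg]
        apply Valuation.map_add_eq_of_lt_left
        rw [Valuation.map_neg]
        exact (R.const_le c).trans_lt hR
      have h3 : R.ord (x - algebraMap ℂ K c) = R.ord x := by
        unfold Point.ord
        rw [h2]
      have h4 : P ≠ R := by
        rintro rfl
        exact absurd hP (not_le.2 hR)
      have h5 : P.comap ι ≠ R := by
        rintro rfl
        exact absurd hco.1.le (not_le.2 hR)
      have h6 := (R.one_lt_val_iff hx).1 hR
      rw [h3, if_neg h4, if_neg h5]
      omega
  · refine ⟨1, one_ne_zero, fun R => ?_⟩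
    rw [R.ord_one]
    have hP' : 1 < (P.comap ι).val x := by
      rw [H.comap_x]
      exact hP
    have h3 := comap_ne_inf H hm hP
    rcases le_or_gt (R.val x) 1 with hR | hR
    · have h2 : max (-R.ord x) 0 = 0 := by
        have := (R.val_le_one_iff hx).1 hR
        omega
      have h4 : P ≠ R := by
        rintro rfl
        exact absurd hR (not_le.2 hP)
      have h5 : P.comap ι ≠ R := by
        rintro rfl
        exact absurd hR (not_le.2 hP')
      rw [h2, if_neg h4, if_neg h5]
      norm_num
    · have h6 := (R.one_lt_val_iff hx).1 hR
      have h7 := ord_inf H hP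
      have h8 := ord_inf H hP'
      have h9 := ord_inf H hR
      rw [Point.ord_inv] at h7 h8 h9
      by_cases hPR : P = R
      · subst hPR
        have h4 := sum_le_two_inf H {P.comap ι, P} (by
          intro w hw
          rw [Finset.mem_insert, Finset.mem_singleton] at hw
          rcases hw with rfl | rfl
          · exact hP'
          · exact hP)
        rw [Finset.sum_pair h3, Point.ord_inv, Point.ord_inv] at h4
        rw [if_pos rfl, if_neg h3]
        omega
      · by_cases hPR' : P.comap ι = R
        · subst hPR'
          have h4 := sum_le_two_inf H {P.comap ι, P} (by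
            intro w hw
            rw [Finset.mem_insert, Finset.mem_singleton] at hw
            rcases hw with rfl | rfl
            · exact hP'
            · exact hP)
          rw [Finset.sum_pair h3, Point.ord_inv, Point.ord_inv] at h4
          rw [if_neg hPR, if_pos rfl]
          omega
        · exfalso
          have h4 := sum_le_two_inf H {P.comap ι, P, R} (by
            intro w hw
            rw [Finset.mem_insert, Finset.mem_insert, Finset.mem_singleton] at hw
            rcases hw with rfl | rfl | rfl
            · exact hP'
            · exact hP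
            · exact hR)
          rw [Finset.sum_insert, Finset.sum_pair hPR, Point.ord_inv, Point.ord_inv,
            Point.ord_inv] at h4
          · omega
          · rw [Finset.mem_insert, Finset.mem_singleton, not_or]
            exact ⟨h3, hPR'⟩

/-- the image under the composition with an automorphism -/
theorem LiesOver.comap {φ : F →ₐ[ℂ] K} {v : Point K} {p : Point F} (h : LiesOver φ v p)
    (τ : F ≃ₐ[ℂ] F) : LiesOver (φ.comp (τ : F →ₐ[ℂ] F)) v (p.comap τ) := by
  intro z
  exact h (τ z)

end Pool.Agent.R858.QD
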