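import Pool.Agent.R858.QD2
import Pool.Agent.R858.SMR1

/-!
# Curves of genus one: the Weierstrass equation
-/

open scoped WithZero Polynomial IntermediateField
open WithZero

set_option linter.unusedVariables false
set_option linter.unusedSectionVars false

namespace Pool.Agent.R858.QE

open Pool.Agent.Helper395.CS hiding genus map_mul map_inv
open Pool.Agent.Helper395.BC
open Pool.Agent.R858.BN
open Pool.Agent.R858.QD
open Pool.Agent.W518.PC (lpow)
open Pool.Agent.W45.PCG (lpow_degree)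

variable {F : Type} [Field F] [Algebra ℂ F]

/-- `z` is regular away from `e` -/
def Reg (e : Point F) (z : F) : Prop := ∀ v : Point F, v ≠ e → v.val z ≤ 1

theorem Reg.add {e : Point F} {z w : F} (h : Reg e z) (h' : Reg e w) : Reg e (z + w) :=
  fun v hv => Valuation.map_add_le _ (h v hv) (h' v hv)

theorem Reg.mul {e : Point F} {z w : F} (h : Reg e z) (h' : Reg e w) : Reg e (z * w) := by
  intro v hv
  rw [map_mul]
  exact mul_le_one' (h v hv) (h' v hv)

theorem Reg.const (e : Point F) (c : ℂ) : Reg e (algebraMap ℂ F c) := fun v _ => v.const_le c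

theorem Reg.neg {e : Point F} {z : F} (h : Reg e z) : Reg e (-z) := by
  intro v hv
  rw [Valuation.map_neg]
  exact h v hv

theorem Reg.sub {e : Point F} {z w : F} (h : Reg e z) (h' : Reg e w) : Reg e (z - w) := by
  rw [sub_eq_add_neg]
  exact h.add h'.neg

theorem Reg.pow {e : Point F} {z : F} (h : Reg e z) (n : ℕ) : Reg e (z ^ n) := by
  intro v hv
  rw [map_pow]
  exact pow_le_one' (h v hv) n

/-- the line bundle `O(n e)` -/
noncomputable def Ln (e : Point F) (n : ℕ) : LineBundle F := lpow (lpt e) n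

theorem val_unif (e : Point F) : e.val (unif e) = exp (-1) := by
  rw [e.val_eq_exp (unif_ne_zero e), ord_unif]

theorem mem_Ln {e : Point F} {n : ℕ} {z : F} :
    z ∈ H0 (Ln e n) ↔ Reg e z ∧ e.val z ≤ exp (n : ℤ) := by
  have h1 : ∀ v : Point F, v ≠ e → v.val ((Ln e n).frame v : F) = 1 := by
    intro v hv
    have := lpow_val (lpt e) n v
    rw [lpt_frame_ne hv, Units.val_one, map_one, one_pow] at this
    exact this
  have h2 : e.val ((Ln e n).frame e : F) = exp (n : ℤ) := by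
    have := lpow_val (lpt e) n e
    rw [lpt_frame_self, map_inv₀, val_unif, ← exp_neg, neg_neg, ← exp_nsmul] at this
    unfold Ln
    simpa using this
  constructor
  · intro h
    refine ⟨fun v hv => ?_, ?_⟩
    · have := h v
      change v.val z ≤ v.val ((Ln e n).frame v : F) at this
      rwa [h1 v hv] at this
    · have := h e
      change e.val z ≤ e.val ((Ln e n).frame e : F) at this
      rwa [h2] at this
  · rintro ⟨ha, hb⟩ v
    change v.val z ≤ v.val ((Ln e n).frame v : F)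
    by_cases hv : v = e
    · subst hv
      rwa [h2]
    · rw [h1 v hv]
      exact ha v hv

theorem finrank_Ln (hF : IsCurve F) (hg : genus F = 1) (e : Point F) {n : ℕ} (hn : 1 ≤ n) :
    Module.finrank ℂ (H0 (Ln e n)) = n := by
  have h1 := Pool.Agent.R858.SMR.h0_of_large hF (by rw [hg]; norm_num) (Ln e n) (by
    rw [hg, Ln, lpow_degree, lpt_degree]
    push_cast
    omega)
  rw [hg, Ln, lpow_degree, lpt_degree] at h1
  rw [Ln]
  push_cast at h1
  omega

theorem const_of_Reg (hF : IsCurve F) (hg : genus F = 1) {e : Point F} {z : F} (hz : Reg e z)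
    (hz' : e.val z ≤ exp 1) : ∃ c : ℂ, z = algebraMap ℂ F c := by
  have h1 := finrank_Ln hF hg e le_rfl
  have hfin : FiniteDimensional ℂ (H0 (Ln e 1)) := by
    apply Module.finite_of_finrank_pos
    rw [h1]
    norm_num
  have h2 : (1 : F) ∈ H0 (Ln e 1) := by
    rw [mem_Ln]
    refine ⟨by simpa using Reg.const e 1, ?_⟩
    rw [map_one, ← exp_zero, exp_le_exp]
    norm_num
  have h3 : z ∈ H0 (Ln e 1) := mem_Ln.2 ⟨hz, hz'⟩
  obtain ⟨⟨v, hv⟩, hv1⟩ := finrank_eq_one_iff'.1 h1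
  obtain ⟨a, ha⟩ := hv1.2 ⟨1, h2⟩
  obtain ⟨b, hb⟩ := hv1.2 ⟨z, h3⟩
  have ha' : a • v = 1 := congrArg Subtype.val ha
  have hb' : b • v = z := congrArg Subtype.val hb
  have ha0 : a ≠ 0 := by
    rintro rfl
    rw [zero_smul] at ha'
    exact zero_ne_one ha'
  refine ⟨b / a, ?_⟩
  have h4 : v = a⁻¹ • (1 : F) := by
    rw [← ha', smul_smul, inv_mul_cancel₀ ha0, one_smul]
  rw [← hb', h4, smul_smul, Algebra.smul_def, mul_one, div_eq_mul_inv]

/-- there is a function with a pole of order exactly `n` at `e` and no other poles -/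
theorem exists_Reg (hF : IsCurve F) (hg : genus F = 1) (e : Point F) {n : ℕ} (hn : 2 ≤ n) :
    ∃ z : F, Reg e z ∧ e.val z = exp (n : ℤ) := by
  obtain ⟨m, rfl⟩ : ∃ m, n = m + 1 := ⟨n - 1, by omega⟩
  by_contra hcon
  push Not at hcon
  have h1 := finrank_Ln hF hg e (n := m + 1) (by omega)
  have h2 := finrank_Ln hF hg e (n := m) (by omega)
  have hfin : FiniteDimensional ℂ (H0 (Ln e m)) := by
    apply Module.finite_of_finrank_pos
    rw [h2]
    omega
  have h3 : H0 (Ln e (m + 1)) ≤ H0 (Ln e m) := by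
    intro z hz
    rw [mem_Ln] at hz ⊢
    refine ⟨hz.1, ?_⟩
    rcases eq_or_ne z 0 with rfl | hz0
    · rw [map_zero]
      exact zero_le
    have h4 := hcon z hz.1
    have h5 := hz.2
    rw [e.val_eq_exp hz0] at h4 h5 ⊢
    rw [ne_eq, exp_inj] at h4
    rw [exp_le_exp] at h5 ⊢
    push_cast at h4 h5
    omega
  have h4 := Submodule.finrank_mono h3
  omega

/-- subtract the leading term -/
theorem exists_sub (hF : IsCurve F) {e : Point F} {z t : F} {n : ℤ} (ht : e.val t = exp n)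
    (hz : e.val z ≤ exp n) :
    ∃ c : ℂ, e.val (z - algebraMap ℂ F c * t) ≤ exp (n - 1) := by
  have ht0 : t ≠ 0 := by
    rintro rfl
    rw [map_zero] at ht
    exact exp_ne_zero ht.symm
  obtain ⟨c, hc⟩ := Rs.exists hF (v := e) (z := z / t) (by
    rw [map_div₀, ht]
    exact div_le_one_of_le₀ hz zero_le)
  refine ⟨c, ?_⟩
  have h1 : z - algebraMap ℂ F c * t = (z / t - algebraMap ℂ F c) * t := by
    rw [sub_mul, div_mul_cancel₀ _ ht0]
  rcases eq_or_ne (z / t - algebraMap ℂ F c) 0 with h0 | h0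
  · rw [h1, h0, zero_mul, map_zero]
    exact zero_le
  have h2 : e.val (z / t - algebraMap ℂ F c) < 1 := hc
  rw [h1, map_mul, ht]
  rw [e.val_eq_exp h0] at h2 ⊢
  rw [← exp_zero, exp_lt_exp] at h2
  rw [← exp_add, exp_le_exp]
  omega

/-- the Weierstrass equation -/
theorem weierstrass (hF : IsCurve F) (hg : genus F = 1) (e : Point F) :
    ∃ (s w : F) (p q : ℂ), Reg e s ∧ Reg e w ∧ e.val s = exp 2 ∧ e.val w = exp 3 ∧
      w ^ 2 = s ^ 3 + algebraMap ℂ F p * s + algebraMap ℂ F q := by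
  obtain ⟨s, hs, hs2⟩ := exists_Reg hF hg e (n := 2) le_rfl
  obtain ⟨w, hw, hw3⟩ := exists_Reg hF hg e (n := 3) (by norm_num)
  have hs2' : e.val s = exp (2 : ℤ) := hs2
  have hw3' : e.val w = exp (3 : ℤ) := hw3
  have e6 : e.val (s ^ 3) = exp (6 : ℤ) := by
    rw [map_pow, hs2', ← exp_nsmul]
    norm_num
  have e6' : e.val (w ^ 2) = exp (6 : ℤ) := by
    rw [map_pow, hw3', ← exp_nsmul]
    norm_num
  have e5 : e.val (s * w) = exp (5 : ℤ) := by
    rw [map_mul, hs2', hw3', ← exp_add]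
    norm_num
  have e4 : e.val (s ^ 2) = exp (4 : ℤ) := by
    rw [map_pow, hs2', ← exp_nsmul]
    norm_num
  obtain ⟨c6, h6⟩ := exists_sub hF e6 e6'.le
  obtain ⟨c5, h5⟩ := exists_sub hF e5 (z := w ^ 2 - algebraMap ℂ F c6 * s ^ 3) (by
    simpa using h6)
  obtain ⟨c4, h4⟩ := exists_sub hF e4 (z := w ^ 2 - algebraMap ℂ F c6 * s ^ 3
    - algebraMap ℂ F c5 * (s * w)) (by simpa using h5)
  obtain ⟨c3, h3⟩ := exists_sub hF hw3' (z := w ^ 2 - algebraMap ℂ F c6 * s ^ 3
    - algebraMap ℂ F c5 * (s * w) - algebraMap ℂ F c4 * s ^ 2) (by simpa using h4)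
  obtain ⟨c2, h2⟩ := exists_sub hF hs2' (z := w ^ 2 - algebraMap ℂ F c6 * s ^ 3
    - algebraMap ℂ F c5 * (s * w) - algebraMap ℂ F c4 * s ^ 2 - algebraMap ℂ F c3 * w)
    (by simpa using h3)
  obtain ⟨c0, h0⟩ := const_of_Reg hF hg (e := e) (z := w ^ 2 - algebraMap ℂ F c6 * s ^ 3
    - algebraMap ℂ F c5 * (s * w) - algebraMap ℂ F c4 * s ^ 2 - algebraMap ℂ F c3 * w
    - algebraMap ℂ F c2 * s) (by
      have hc := Reg.const e
      exact ((((((hw.pow 2).sub ((hc c6).mul (hs.pow 3))).sub ((hc c5).mul (hs.mul hw))).sub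
        ((hc c4).mul (hs.pow 2))).sub ((hc c3).mul hw)).sub ((hc c2).mul hs)))
    (by simpa using h2)
  have hc6 : c6 ≠ 0 := by
    rintro rfl
    rw [map_zero, zero_mul, sub_zero, e6', exp_le_exp] at h6
    norm_num at h6
  obtain ⟨γ, hγ⟩ := IsAlgClosed.exists_pow_nat_eq c6 (n := 2) (by norm_num)
  have hγ0 : γ ≠ 0 := by
    rintro rfl
    apply hc6
    rw [← hγ]
    norm_num
  set A : ℂ := (c4 + c5 ^ 2 / 4) / c6 with hA
  set B : ℂ := (c2 + c5 * c3 / 2) / c6 with hB
  set C : ℂ := (c0 + c3 ^ 2 / 4) / c6 with hC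
  have hchar : CharZero F := charZero_of_injective_algebraMap (algebraMap ℂ F).injective
  let m := algebraMap ℂ F
  have hm2 : m 2 = 2 := map_ofNat _ 2
  have hm3 : m 3 = 3 := map_ofNat _ 3
  have hm4 : m 4 = 4 := map_ofNat _ 4
  have hm27 : m 27 = 27 := map_ofNat _ 27
  have h20 : (2 : F) ≠ 0 := by rw [← hm2]; simp [m]
  have h30 : (3 : F) ≠ 0 := by rw [← hm3]; simp [m]
  have h40 : (4 : F) ≠ 0 := by rw [← hm4]; simp [m]
  have h270 : (27 : F) ≠ 0 := by rw [← hm27]; simp [m]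
  have hmγ : m γ ≠ 0 := by simpa [m] using hγ0
  have hm6 : m c6 = m γ ^ 2 := by rw [← hγ, map_pow]
  have hm60 : m c6 ≠ 0 := by rw [hm6]; exact pow_ne_zero 2 hmγ
  have hval : ∀ {a b : F} {n : ℤ}, e.val a = exp n → e.val b < exp n → e.val (a + b) = exp n := by
    intro a b n ha hb
    rw [Valuation.map_add_eq_of_lt_left _ (by rw [ha]; exact hb), ha]
  refine ⟨s + m (A / 3), m γ⁻¹ * w + -(m (γ⁻¹ / 2) * (m c5 * s + m c3)), B - A ^ 2 / 3,
    C - A * B / 3 + 2 * A ^ 3 / 27, hs.add (Reg.const e _),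
    ((Reg.const e _).mul hw).add ((Reg.const e _).mul (((Reg.const e _).mul hs).add
      (Reg.const e _))).neg, ?_, ?_, ?_⟩
  · refine hval hs2' ((e.const_le _).trans_lt ?_)
    rw [← exp_zero, exp_lt_exp]
    norm_num
  · refine hval ?_ ?_
    · rw [map_mul, e.const _ (inv_ne_zero hγ0), one_mul, hw3']
    · rw [Valuation.map_neg, map_mul]
      have h7 : e.val (m c5 * s + m c3) ≤ exp (2 : ℤ) := by
        refine Valuation.map_add_le _ ?_ ?_
        · rw [map_mul, hs2']
          calc e.val (m c5) * exp 2 ≤ 1 * exp 2 := mul_le_mul_left (e.const_le c5) _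
            _ = exp 2 := one_mul _
        · refine (e.const_le c3).trans ?_
          rw [← exp_zero, exp_le_exp]
          norm_num
      calc e.val (m (γ⁻¹ / 2)) * e.val (m c5 * s + m c3) ≤ 1 * exp 2 :=
            mul_le_mul' (e.const_le _) h7
        _ = exp 2 := one_mul _
        _ < exp 3 := by rw [exp_lt_exp]; norm_num
  · have h8 : w ^ 2 = m c6 * s ^ 3 + m c5 * (s * w) + m c4 * s ^ 2 + m c3 * w + m c2 * s
        + m c0 := by
      linear_combination h0
    have hAm : m A * m c6 = m c4 + m c5 ^ 2 / 4 := by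
      rw [← map_mul, hA, div_mul_cancel₀ _ hc6, map_add, map_div₀, map_pow, hm4]
    have hBm : m B * m c6 = m c2 + m c5 * m c3 / 2 := by
      rw [← map_mul, hB, div_mul_cancel₀ _ hc6, map_add, map_div₀, map_mul, hm2]
    have hCm : m C * m c6 = m c0 + m c3 ^ 2 / 4 := by
      rw [← map_mul, hC, div_mul_cancel₀ _ hc6, map_add, map_div₀, map_pow, hm4]
    have h9 : (m γ⁻¹ * w + -(m (γ⁻¹ / 2) * (m c5 * s + m c3))) ^ 2 =
        s ^ 3 + m A * s ^ 2 + m B * s + m C := by
      rw [map_div₀, map_inv₀, hm2]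
      have h10 : ((m γ)⁻¹ * w + -((m γ)⁻¹ / 2 * (m c5 * s + m c3))) ^ 2 =
          (w - (m c5 * s + m c3) / 2) ^ 2 / m c6 := by
        rw [hm6]
        field_simp
        ring
      rw [h10, div_eq_iff hm60]
      linear_combination h8 - s ^ 2 * hAm - s * hBm - hCm
    change (m γ⁻¹ * w + -(m (γ⁻¹ / 2) * (m c5 * s + m c3))) ^ 2 =
      (s + m (A / 3)) ^ 3 + m (B - A ^ 2 / 3) * (s + m (A / 3)) + m (C - A * B / 3 + 2 * A ^ 3 / 27)
    rw [h9]
    simp only [map_add, map_sub, map_div₀, map_mul, map_pow, hm2, hm3, hm27]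
    field_simp
    ring

end Pool.Agent.R858.QE
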