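import Pool.Agent.R858.QE1

/-!
# Curves of genus one: the normal form `v² = (u + 2) (u³ - 3 u + a)`
-/

open scoped WithZero Polynomial IntermediateField
open WithZero

set_option linter.unusedVariables false
set_option linter.unusedSectionVars false

namespace Pool.Agent.R858.QE

open Pool.Agent.Helper395.CS hiding genus map_mul map_inv
open Pool.Agent.Helper395.BC
open Pool.Agent.R858.BN
open Pool.Agent.R858.QD

variable {F : Type} [Field F] [Algebra ℂ F]

theorem transc_of_val {e : Point F} {z : F} {n : ℤ} (hn : 0 < n) (hz : e.val z = exp n) :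
    Transcendental ℂ z := by
  by_contra h
  obtain ⟨c, rfl⟩ := exists_const h
  have h1 := e.const_le c
  rw [hz, ← exp_zero, exp_le_exp] at h1
  omega

/-- the degree of a function with only one pole -/
theorem finrank_of_Reg (hF : IsCurve F) {e : Point F} {z : F} (hz : Reg e z) {n : ℕ} (hn : 0 < n)
    (hz' : e.val z = exp (n : ℤ)) : Module.finrank ℂ⟮z⟯ F = n := by
  have ht := transc_of_val (by omega) hz'
  have hz0 : z ≠ 0 := ne_zero_of_transcendental ht
  obtain ⟨S, hS, hsum⟩ := zero_count_aux hF (transcendental_inv ht)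
  rw [adjoin_inv] at hsum
  have h1 : S = {e} := by
    ext v
    rw [hS, Finset.mem_singleton]
    constructor
    · intro h
      by_contra hv
      have h2 := hz v hv
      rw [map_inv₀] at h
      have h3 : v.val z ≠ 0 := v.val_ne_zero hz0
      have h4 : 1 ≤ (v.val z)⁻¹ := (one_le_inv₀ (zero_lt_iff.2 h3)).2 h2
      exact absurd h (not_lt.2 h4)
    · rintro rfl
      rw [map_inv₀, hz', ← exp_neg, ← exp_zero, exp_lt_exp]
      omega
  rw [h1, Finset.sum_singleton, e.ord_inv] at hsum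
  have h2 : e.ord z = -(n : ℤ) := by
    rw [e.val_eq_exp hz0, exp_inj] at hz'
    omega
  rw [h2, neg_neg] at hsum
  exact_mod_cast hsum.symm

theorem adjoin_top (hF : IsCurve F) {e : Point F} {s w : F} (hs : Reg e s) (hw : Reg e w)
    (hs2 : e.val s = exp 2) (hw3 : e.val w = exp 3) :
    IntermediateField.adjoin ℂ {s, w} = ⊤ := by
  have h2 := finrank_of_Reg hF hs (n := 2) (by norm_num) hs2
  have h3 := finrank_of_Reg hF hw (n := 3) (by norm_num) hw3
  set M := IntermediateField.adjoin ℂ {s, w} with hM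
  have hsM : ℂ⟮s⟯ ≤ M := IntermediateField.adjoin.mono ℂ _ _ (by simp)
  have hwM : ℂ⟮w⟯ ≤ M := IntermediateField.adjoin.mono ℂ _ _ (by simp)
  have d2 : Module.finrank M F ∣ 2 := h2 ▸ IntermediateField.finrank_dvd_of_le_left hsM
  have d3 : Module.finrank M F ∣ 3 := h3 ▸ IntermediateField.finrank_dvd_of_le_left hwM
  have h1 : Module.finrank M F = 1 := by
    have := Nat.dvd_sub d3 d2
    simpa using this
  exact IntermediateField.finrank_eq_one_iff_eq_top.1 h1

/-- the discriminant does not vanish -/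
theorem no_double (hF : IsCurve F) (hg : genus F = 1) {e : Point F} {s w : F} {p q : ℂ}
    (hs : Reg e s) (hw : Reg e w) (hs2 : e.val s = exp 2) (hw3 : e.val w = exp 3)
    (h : w ^ 2 = s ^ 3 + algebraMap ℂ F p * s + algebraMap ℂ F q) (r : ℂ)
    (h1 : r ^ 3 + p * r + q = 0) (h2 : 3 * r ^ 2 + p = 0) : False := by
  let m := algebraMap ℂ F
  have hm2 : m 2 = 2 := map_ofNat _ 2
  have hm3 : m 3 = 3 := map_ofNat _ 3
  have hp : p = -3 * r ^ 2 := by linear_combination h2
  have hq : q = 2 * r ^ 3 := by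
    rw [hp] at h1
    linear_combination h1
  have hsr : s - m r ≠ 0 := by
    intro h0
    have h3 : s = m r := sub_eq_zero.1 h0
    have h4 := e.const_le r
    rw [h3] at hs2
    rw [hs2, ← exp_zero, exp_le_exp] at h4
    norm_num at h4
  have h3 : w ^ 2 = (s - m r) ^ 2 * (s + m (2 * r)) := by
    rw [h, hp, hq]
    simp only [map_mul, map_neg, map_pow, map_ofNat, m]
    ring
  set t := w / (s - m r) with ht
  have h4 : t ^ 2 = s + m (2 * r) := by
    rw [ht, div_pow, h3, mul_comm, mul_div_assoc, div_self (pow_ne_zero 2 hsr), mul_one]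
  have h5 : Reg e t := by
    intro v hv
    have h6 := (hs.add (Reg.const e (2 * r))) v hv
    change v.val (s + m (2 * r)) ≤ 1 at h6
    rw [← h4, map_pow] at h6
    exact (pow_le_one_iff two_ne_zero).1 h6
  have h7 : e.val (s + m (2 * r)) = exp 2 := by
    rw [Valuation.map_add_eq_of_lt_left, hs2]
    rw [hs2]
    refine (e.const_le _).trans_lt ?_
    rw [← exp_zero, exp_lt_exp]
    norm_num
  have ht0 : t ≠ 0 := by
    intro h0
    rw [h0] at h4
    rw [← h4, zero_pow two_ne_zero, map_zero] at h7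
    exact exp_ne_zero h7.symm
  have h8 : e.val t = exp 1 := by
    rw [← h4, map_pow, e.val_eq_exp ht0, ← exp_nsmul, exp_inj] at h7
    rw [e.val_eq_exp ht0, exp_inj]
    simp only [nsmul_eq_mul] at h7
    push_cast at h7
    omega
  obtain ⟨c, hc⟩ := const_of_Reg hF hg h5 h8.le
  have h9 := e.const_le c
  rw [← hc, h8, ← exp_zero, exp_le_exp] at h9
  norm_num at h9

/-- the abscissa of a point of order three -/
theorem exists_three {p q : ℂ} (hns : ∀ r : ℂ, r ^ 3 + p * r + q = 0 → 3 * r ^ 2 + p ≠ 0) :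
    ∃ s : ℂ, (3 * s ^ 2 + p) ^ 2 = 12 * s * (s ^ 3 + p * s + q) ∧ s ^ 3 + p * s + q ≠ 0 ∧
      3 * s ^ 2 + p ≠ 0 := by
  have key : ∀ s : ℂ, (3 * s ^ 2 + p) ^ 2 = 12 * s * (s ^ 3 + p * s + q) →
      s ^ 3 + p * s + q ≠ 0 := by
    intro s h1 h2
    rw [h2, mul_zero] at h1
    exact hns s h2 (pow_eq_zero_iff two_ne_zero |>.1 h1)
  rcases eq_or_ne p 0 with rfl | hp
  · have hq : q ≠ 0 := by
      rintro rfl
      exact hns 0 (by ring) (by ring)
    obtain ⟨s, hs⟩ := IsAlgClosed.exists_pow_nat_eq (-4 * q) (n := 3) (by norm_num)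
    have hs0 : s ≠ 0 := by
      rintro rfl
      apply hq
      linear_combination (1 / 4 : ℂ) * hs
    have h1 : (3 * s ^ 2 + 0) ^ 2 = 12 * s * (s ^ 3 + 0 * s + q) := by
      linear_combination (-3 * s) * hs
    refine ⟨s, h1, key s h1, ?_⟩
    rw [add_zero]
    exact mul_ne_zero (by norm_num) (pow_ne_zero 2 hs0)
  · let f : ℂ[X] := Polynomial.C 3 * Polynomial.X ^ 4 + Polynomial.C (6 * p) * Polynomial.X ^ 2
      + Polynomial.C (12 * q) * Polynomial.X + Polynomial.C (-p ^ 2)
    have hdeg : f.degree ≠ 0 := by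
      have : f.degree = 4 := by
        simp only [f]
        compute_degree!
      rw [this]
      norm_num
    obtain ⟨s, hs⟩ := IsAlgClosed.exists_root f hdeg
    have hs' : 3 * s ^ 4 + 6 * p * s ^ 2 + 12 * q * s + -p ^ 2 = 0 := by
      simpa [f, Polynomial.IsRoot] using hs
    have h1 : (3 * s ^ 2 + p) ^ 2 = 12 * s * (s ^ 3 + p * s + q) := by
      linear_combination -hs'
    refine ⟨s, h1, key s h1, fun h2 => ?_⟩
    rw [h2] at h1
    have h3 : s = 0 := by
      have h4 : 12 * s * (s ^ 3 + p * s + q) = 0 := by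
        rw [← h1]
        norm_num
      rcases mul_eq_zero.1 h4 with h5 | h5
      · rcases mul_eq_zero.1 h5 with h6 | h6
        · norm_num at h6
        · exact h6
      · exact absurd h5 (key s (by rw [h2]; exact h1))
    subst h3
    apply hp
    linear_combination h2

/-- the normal form -/
theorem normal_form (hF : IsCurve F) (hg : genus F = 1) (e : Point F) :
    ∃ (u w : F) (a : ℂ), a ^ 2 ≠ 4 ∧ Transcendental ℂ u ∧
      w ^ 2 = (u + 2) * (u ^ 3 - 3 * u + algebraMap ℂ F a) ∧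
      IntermediateField.adjoin ℂ {u, w} = ⊤ := by
  obtain ⟨s, w, p, q, hs, hw, hs2, hw3, hsw⟩ := weierstrass hF hg e
  have hns : ∀ r : ℂ, r ^ 3 + p * r + q = 0 → 3 * r ^ 2 + p ≠ 0 := fun r h1 h2 =>
    no_double hF hg hs hw hs2 hw3 hsw r h1 h2
  obtain ⟨s₀, h1, hP, hP'⟩ := exists_three hns
  obtain ⟨γ, hγ⟩ := IsAlgClosed.exists_pow_nat_eq (s₀ ^ 3 + p * s₀ + q) (n := 2) (by norm_num)
  set P := s₀ ^ 3 + p * s₀ + q with hPdef
  set P' := 3 * s₀ ^ 2 + p with hPdef'
  have hγ0 : γ ≠ 0 := by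
    rintro rfl
    apply hP
    rw [← hγ]
    norm_num
  set κ := -6 * P / P' with hκ
  have hκ0 : κ ≠ 0 := div_ne_zero (mul_ne_zero (by norm_num) hP) hP'
  have k1 : κ * P' = -6 * P := div_mul_cancel₀ _ hP'
  have k2 : s₀ * κ ^ 2 = 3 * P := by
    have h3 : s₀ * κ ^ 2 * P' ^ 2 = 3 * P * P' ^ 2 := by
      have h4 : s₀ * κ ^ 2 * P' ^ 2 = s₀ * (κ * P') ^ 2 := by ring
      rw [h4, k1, h1]
      ring
    exact mul_right_cancel₀ (pow_ne_zero 2 hP') h3
  let m := algebraMap ℂ F
  have hchar : CharZero F := charZero_of_injective_algebraMap (algebraMap ℂ F).injective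
  have hst := transc_of_val (by norm_num) hs2
  have hσ : s - m s₀ ≠ 0 := ne_zero_of_transcendental (transc_sub hst s₀)
  have hmκ : m κ ≠ 0 := by simpa [m] using hκ0
  have hmγ : m γ ≠ 0 := by simpa [m] using hγ0
  have hmP : m P ≠ 0 := by simpa [m] using hP
  set a := 2 + κ ^ 3 / P with ha
  have ka : (a - 2) * P = κ ^ 3 := by
    rw [ha]
    field_simp
    ring
  set u : F := -2 + m κ / (s - m s₀) with hu
  set V : F := m κ ^ 2 * w / ((s - m s₀) ^ 2 * m γ) with hV
  have hu2 : (u + 2) * (s - m s₀) = m κ := by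
    rw [hu]
    field_simp
    ring
  have hu20 : u + 2 ≠ 0 := by
    intro h0
    rw [h0, zero_mul] at hu2
    exact hmκ hu2.symm
  have hσ2 : s = m s₀ + m κ / (u + 2) := by
    rw [← hu2, mul_comm, mul_div_assoc, div_self hu20]
    ring
  have hV2 : w = V * (s - m s₀) ^ 2 * m γ / m κ ^ 2 := by
    rw [hV]
    field_simp
  have hmγ2 : m γ ^ 2 = m P := by rw [← map_pow, hγ]
  have K1 : m κ * m P' = -6 * m P := by
    rw [← map_mul, k1, map_mul, map_neg]
    congr 2
    exact map_ofNat _ 6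
  have K2 : m s₀ * m κ ^ 2 = 3 * m P := by
    rw [← map_pow, ← map_mul, k2, map_mul]
    congr 1
    exact map_ofNat _ 3
  have K3 : (m a - 2) * m P = m κ ^ 3 := by
    have : m a - 2 = m (a - 2) := by
      rw [map_sub]
      congr 1
      exact (map_ofNat _ 2).symm
    rw [this, ← map_mul, ka, map_pow]
  refine ⟨u, V, a, ?_, ?_, ?_, ?_⟩
  · intro h3
    have h4 : (a - 2) * (a + 2) = 0 := by linear_combination h3
    rcases mul_eq_zero.1 h4 with h5 | h5
    · rw [h5, zero_mul] at ka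
      exact pow_ne_zero 3 hκ0 ka.symm
    · have h6 : κ ^ 3 = -4 * P := by
        rw [← ka]
        linear_combination P * h5
      refine hns (s₀ + κ) ?_ ?_
      · have : (s₀ + κ) ^ 3 + p * (s₀ + κ) + q = P + κ * P' + 3 * (s₀ * κ ^ 2) + κ ^ 3 := by
          rw [hPdef, hPdef']
          ring
        rw [this, k1, k2, h6]
        ring
      · have h7 : κ * (3 * (s₀ + κ) ^ 2 + p) = κ * P' + 6 * (s₀ * κ ^ 2) + 3 * κ ^ 3 := by
          rw [hPdef']
          ring
        have h8 : κ * (3 * (s₀ + κ) ^ 2 + p) = 0 := by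
          rw [h7, k1, k2, h6]
          ring
        exact (mul_eq_zero.1 h8).resolve_left hκ0
  · by_contra h3
    obtain ⟨c, hc⟩ := exists_const h3
    apply hst
    rw [hσ2, hc]
    have : m s₀ + m κ / (m c + 2) = m (s₀ + κ / (c + 2)) := by
      have h5 := map_div₀ m κ (c + 2)
      rw [map_add m s₀, h5, map_add m c, show m 2 = 2 from map_ofNat _ 2]
    change IsAlgebraic ℂ (m s₀ + m κ / (m c + 2))
    rw [this]
    exact isAlgebraic_algebraMap _
  · have h3 : w ^ 2 = m P + m P' * (s - m s₀) + 3 * m s₀ * (s - m s₀) ^ 2 + (s - m s₀) ^ 3 := by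
      rw [hsw, hPdef, hPdef']
      simp only [map_add, map_mul, map_pow, map_ofNat, m]
      ring
    have h4 : V ^ 2 * m P = (u + 2) ^ 4 * w ^ 2 := by
      rw [hV, div_pow, mul_pow, mul_pow _ (m γ), hmγ2]
      have h5 : m κ = (u + 2) * (s - m s₀) := hu2.symm
      rw [h5]
      field_simp
    have h5 : (u + 2) ^ 4 * w ^ 2 = (u + 2) * (m P * (u + 2) ^ 3 + m P' * m κ * (u + 2) ^ 2
        + 3 * (m s₀ * m κ ^ 2) * (u + 2) + m κ ^ 3) := by
      rw [h3, ← hu2]
      ring
    have h6 : V ^ 2 * m P = (u + 2) * (u ^ 3 - 3 * u + m a) * m P := by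
      rw [h4, h5, mul_comm (m P') (m κ), K1, K2, ← K3]
      ring
    exact mul_right_cancel₀ hmP h6
  · rw [eq_top_iff, ← adjoin_top hF hs hw hs2 hw3, IntermediateField.adjoin_le_iff]
    have hu' : u ∈ IntermediateField.adjoin ℂ {u, V} :=
      IntermediateField.subset_adjoin ℂ _ (by simp)
    have hV' : V ∈ IntermediateField.adjoin ℂ {u, V} :=
      IntermediateField.subset_adjoin ℂ _ (by simp)
    have hc' : ∀ c : ℂ, m c ∈ IntermediateField.adjoin ℂ {u, V} := fun c => algebraMap_mem _ c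
    have h2' : (2 : F) ∈ IntermediateField.adjoin ℂ {u, V} := by
      have := hc' 2
      rwa [show m 2 = 2 from map_ofNat _ 2] at this
    have hs' : s ∈ IntermediateField.adjoin ℂ {u, V} := by
      rw [hσ2]
      exact add_mem (hc' _) (div_mem (hc' _) (add_mem hu' h2'))
    rintro z (rfl | rfl)
    · exact hs'
    · rw [hV2]
      exact div_mem (mul_mem (mul_mem hV' (pow_mem (sub_mem hs' (hc' _)) 2)) (hc' _))
        (pow_mem (hc' _) 2)

end Pool.Agent.R858.QE
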