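import Pool.Agent.R858.QD5

/-!
# The curve `y² = x⁶ + a x³ + 1` and the function `y - x³` of degree three
-/

open scoped WithZero Polynomial IntermediateField
open WithZero

set_option linter.unusedVariables false
set_option linter.unusedSectionVars false

namespace Pool.Agent.R858.QE

open Pool.Agent.Helper395.CS hiding genus map_mul map_inv
open Pool.Agent.Helper395.BC
open Pool.Agent.R858.BN
open Pool.Agent.R858.QD

/-- `x⁶ + a x³ + 1` -/
noncomputable def g6 (a : ℂ) : ℂ[X] := Polynomial.X ^ 6 + Polynomial.C a * Polynomial.X ^ 3 + 1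

/-- `(u + 2) (u³ - 3 u + a)` -/
noncomputable def g4 (a : ℂ) : ℂ[X] :=
  (Polynomial.X + Polynomial.C 2) * (Polynomial.X ^ 3 - Polynomial.C 3 * Polynomial.X + Polynomial.C a)

theorem g6_natDegree (a : ℂ) : (g6 a).natDegree = 2 * (2 + 1) := by
  unfold g6
  compute_degree!

theorem g4_natDegree (a : ℂ) : (g4 a).natDegree = 2 * (1 + 1) := by
  have : g4 a = Polynomial.X ^ 4 + Polynomial.C 2 * Polynomial.X ^ 3 - Polynomial.C 3 * Polynomial.X ^ 2
      + Polynomial.C (a - 6) * Polynomial.X + Polynomial.C (2 * a) := by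
    apply Polynomial.funext
    intro r
    simp [g4]
    ring
  rw [this]
  compute_degree!

theorem g6_sep {a : ℂ} (ha : a ^ 2 ≠ 4) : (g6 a).Separable := by
  have hD : 4 - a ^ 2 ≠ 0 := fun h => ha (by linear_combination -h)
  rw [Polynomial.separable_def']
  refine ⟨Polynomial.C (4 - a ^ 2)⁻¹ * (4 - (2 * Polynomial.X ^ 3 + Polynomial.C a) ^ 2),
    Polynomial.C (4 - a ^ 2)⁻¹ * (Polynomial.C (1 / 3) * Polynomial.X *
      (Polynomial.X ^ 3 + Polynomial.C a) * (2 * Polynomial.X ^ 3 + Polynomial.C a)), ?_⟩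
  apply Polynomial.funext
  intro r
  simp [g6, Polynomial.derivative_X_pow]
  field_simp
  ring

theorem g4_sep {a : ℂ} (ha : a ^ 2 ≠ 4) : (g4 a).Separable := by
  have hD : a ^ 2 - 4 ≠ 0 := fun h => ha (by linear_combination h)
  have h2 : a - 2 ≠ 0 := fun h => ha (by linear_combination (a + 2) * h)
  unfold g4
  refine Polynomial.Separable.mul (Polynomial.separable_X_add_C 2) ?_ ?_
  · rw [Polynomial.separable_def']
    refine ⟨Polynomial.C (a ^ 2 - 4)⁻¹ * (2 * Polynomial.X + Polynomial.C a),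
      Polynomial.C (a ^ 2 - 4)⁻¹ * (Polynomial.C (1 / 3) * (4 - 2 * Polynomial.X ^ 2 -
        Polynomial.C a * Polynomial.X)), ?_⟩
    apply Polynomial.funext
    intro r
    simp [Polynomial.derivative_X_pow]
    field_simp
    ring
  · refine ⟨-(Polynomial.C (a - 2)⁻¹ * (Polynomial.X - 1) ^ 2), Polynomial.C (a - 2)⁻¹, ?_⟩
    apply Polynomial.funext
    intro r
    simp
    field_simp
    ring

theorem eval_g6 (a c : ℂ) : (g6 a).eval c = c ^ 6 + a * c ^ 3 + 1 := by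
  simp [g6]

variable {K : Type} [Field K] [Algebra ℂ K] {x y : K} {ι : K ≃ₐ[ℂ] K} {a : ℂ}

theorem aeval_g6 (a : ℂ) (z : K) :
    Polynomial.aeval z (g6 a) = z ^ 6 + algebraMap ℂ K a * z ^ 3 + 1 := by
  simp [g6]

theorem aeval_g4 (a : ℂ) (z : K) :
    Polynomial.aeval z (g4 a) = (z + 2) * (z ^ 3 - 3 * z + algebraMap ℂ K a) := by
  have h2 : algebraMap ℂ K 2 = 2 := map_ofNat _ 2
  have h3 : algebraMap ℂ K 3 = 3 := map_ofNat _ 3
  simp [g4, h2, h3]

/-- the coordinates at infinity -/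
theorem swap (H : Hyp x y (g6 a) ι) : Hyp x⁻¹ (y / x ^ 3) (g6 a) ι where
  curve := H.curve
  trans := transcendental_inv H.trans
  eq := by
    have hx := H.x_ne
    rw [div_pow, H.eq, aeval_g6, aeval_g6]
    field_simp
    ring
  sep := H.sep
  span := by
    intro z
    obtain ⟨a, ha, b, hb, rfl⟩ := H.span z
    rw [adjoin_inv]
    have hx : x ∈ ℂ⟮x⟯ := IntermediateField.mem_adjoin_simple_self ℂ x
    refine ⟨a, ha, b * x ^ 3, mul_mem hb (pow_mem hx 3), ?_⟩
    have := H.x_ne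
    field_simp
  inv_x := by rw [map_inv₀, H.inv_x]
  inv_y := by rw [map_div₀, map_pow, H.inv_x, H.inv_y, neg_div]

/-- the three kinds of points -/
theorem cases_point (H : Hyp x y (g6 a) ι) (v : Point K) :
    (∃ c b : ℂ, c ≠ 0 ∧ Rs v x c ∧ Rs v y b ∧ b ^ 2 = c ^ 6 + a * c ^ 3 + 1) ∨
    (∃ b : ℂ, b ^ 2 = 1 ∧ Rs v x 0 ∧ Rs v y b) ∨
    (∃ b : ℂ, b ^ 2 = 1 ∧ Rs v x⁻¹ 0 ∧ Rs v (y / x ^ 3) b) := by
  have key : ∀ {x' y' : K} (H' : Hyp x' y' (g6 a) ι), v.val x' ≤ 1 →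
      ∃ c b : ℂ, Rs v x' c ∧ Rs v y' b ∧ b ^ 2 = c ^ 6 + a * c ^ 3 + 1 := by
    intro x' y' H' h
    obtain ⟨c, hc⟩ := Rs.exists H'.curve h
    have h1 : v.val (y' ^ 2) ≤ 1 := by
      rw [H'.eq]
      exact aeval_le h (g6 a)
    rw [map_pow] at h1
    obtain ⟨b, hb⟩ := Rs.exists H'.curve ((pow_le_one_iff two_ne_zero).1 h1)
    refine ⟨c, b, hc, hb, ?_⟩
    rw [value_eq H' hc hb, eval_g6]
  rcases le_or_gt (v.val x) 1 with h | h
  · obtain ⟨c, b, hc, hb, hcb⟩ := key H h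
    rcases eq_or_ne c 0 with rfl | hc0
    · exact Or.inr (Or.inl ⟨b, by rw [hcb]; norm_num, hc, hb⟩)
    · exact Or.inl ⟨c, b, hc0, hc, hb, hcb⟩
  · have h2 : v.val x⁻¹ < 1 := by
      rw [map_inv₀]
      exact inv_lt_one_of_one_lt₀ h
    obtain ⟨c, b, hc, hb, hcb⟩ := key (swap H) h2.le
    have h3 : c = 0 := hc.lt_iff.1 h2
    subst h3
    exact Or.inr (Or.inr ⟨b, by rw [hcb]; norm_num, hc, hb⟩)

theorem V_sq (H : Hyp x y (g6 a) ι) {ω : ℂ} (hω : ω ^ 3 = 1) :
    Vf x y ω ^ 2 = Polynomial.aeval (Uf x ω) (g4 a) := by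
  have hω0 : ω ≠ 0 := by
    rintro rfl
    norm_num at hω
  have ht := t_ne H.x_ne hω0
  have h3 : (algebraMap ℂ K ω * x) ^ 3 = x ^ 3 := by
    rw [mul_pow, ← map_pow, hω, map_one, one_mul]
  have hy : y ^ 2 = (algebraMap ℂ K ω * x) ^ 6 + algebraMap ℂ K a * (algebraMap ℂ K ω * x) ^ 3 + 1 := by
    have h6 : (algebraMap ℂ K ω * x) ^ 6 = x ^ 6 := by
      calc (algebraMap ℂ K ω * x) ^ 6 = ((algebraMap ℂ K ω * x) ^ 3) ^ 2 := by ring
        _ = x ^ 6 := by rw [h3]; ring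
    rw [h3, h6, H.eq, aeval_g6]
  rw [aeval_g4, Uf, Vf]
  set t := algebraMap ℂ K ω * x
  rw [div_pow, mul_pow, hy]
  field_simp
  ring

theorem U_transc (hx : Transcendental ℂ x) {ω : ℂ} (hω : ω ≠ 0) : Transcendental ℂ (Uf x ω) := by
  by_contra h
  obtain ⟨c, hc⟩ := exists_const h
  have ht := t_ne (ne_zero_of_transcendental hx) hω
  have h1 : (algebraMap ℂ K ω * x) ^ 2 - algebraMap ℂ K c * (algebraMap ℂ K ω * x) + 1 = 0 := by
    rw [← hc, Uf]
    set t := algebraMap ℂ K ω * x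
    field_simp
    ring
  apply hx
  refine ⟨Polynomial.C (ω ^ 2) * Polynomial.X ^ 2 - Polynomial.C (c * ω) * Polynomial.X + 1, ?_, ?_⟩
  · intro h2
    have h3 := congrArg (Polynomial.eval 0) h2
    simp at h3
  · simp only [map_add, map_sub, map_mul, map_pow, Polynomial.aeval_C, Polynomial.aeval_X, map_one]
    rw [← h1]
    ring

/-! ### the function `y - x³` -/

/-- the value of `y - x³` at the finite points -/
theorem rs_tau {v : Point K} {c b : ℂ} (hc : Rs v x c) (hb : Rs v y b) :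
    Rs v (y - x ^ 3) (b - c ^ 3) := Rs.sub hb (hc.pow 3)

/-- the order of `y - x³ - b` at the points above `x = 0` -/
theorem ord_tau_zero (H : Hyp x y (g6 a) ι) (ha : a ^ 2 ≠ 4) {v : Point K} {b : ℂ} (hb1 : b ^ 2 = 1)
    (hc : Rs v x 0) (hb : Rs v y b) : v.ord (y - x ^ 3 - algebraMap ℂ K b) = 3 := by
  have hb0 : b ≠ 0 := by
    rintro rfl
    norm_num at hb1
  have hx := H.x_ne
  have h1 : v.ord x = 1 := by
    have := ord_x H hc hb hb0
    rwa [map_zero, sub_zero] at this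
  have h2 : Rs v (y + algebraMap ℂ K b) (b + b) := hb.add (Rs.const v b)
  have h2' : b + b ≠ 0 := by
    intro h
    apply hb0
    linear_combination (1 / 2 : ℂ) * h
  have h2K := Rs.ne_zero h2 h2'
  have h3 : y - x ^ 3 - algebraMap ℂ K b =
      x ^ 3 * ((x ^ 3 + algebraMap ℂ K a) / (y + algebraMap ℂ K b) - 1) := by
    have h4 : (y - algebraMap ℂ K b) * (y + algebraMap ℂ K b) = x ^ 3 * (x ^ 3 + algebraMap ℂ K a) := by
      have h5 : algebraMap ℂ K b ^ 2 = 1 := by rw [← map_pow, hb1, map_one]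
      have h6 := H.eq
      rw [aeval_g6] at h6
      linear_combination h6 - h5
    have h7 : y - algebraMap ℂ K b = x ^ 3 * (x ^ 3 + algebraMap ℂ K a) / (y + algebraMap ℂ K b) := by
      rw [eq_div_iff h2K, h4]
    rw [mul_sub, mul_div_assoc'] 
    linear_combination h7
  have h4 : Rs v ((x ^ 3 + algebraMap ℂ K a) / (y + algebraMap ℂ K b) - 1)
      ((0 ^ 3 + a) / (b + b) - 1) :=
    Rs.sub (Rs.div ((hc.pow 3).add (Rs.const v a)) h2 h2') (rs_one v)
  have h5 : (0 ^ 3 + a) / (b + b) - 1 ≠ 0 := by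
    intro h
    have h6 : a = b + b := by
      field_simp at h
      linear_combination h
    apply ha
    rw [h6]
    linear_combination (4 : ℂ) * hb1
  rw [h3, ord_mul_unit (pow_ne_zero 3 hx) h4 h5, v.ord_pow, h1]
  norm_num

/-- the order of `y - x³ - a / 2` at the first point at infinity -/
theorem ord_tau_inf (H : Hyp x y (g6 a) ι) (ha : a ^ 2 ≠ 4) {v : Point K}
    (hc : Rs v x⁻¹ 0) (hb : Rs v (y / x ^ 3) 1) :
    Rs v (y - x ^ 3) (a / 2) ∧ v.ord (y - x ^ 3 - algebraMap ℂ K (a / 2)) = 3 := by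
  have hx := H.x_ne
  have hchar : CharZero K := charZero_of_injective_algebraMap (algebraMap ℂ K).injective
  have h1 : v.ord x⁻¹ = 1 := by
    have := ord_x (swap H) hc hb one_ne_zero
    rwa [map_zero, sub_zero] at this
  have h2 : Rs v (y / x ^ 3 + 1) (1 + 1) := hb.add (rs_one v)
  have h2' : (1 : ℂ) + 1 ≠ 0 := by norm_num
  have h2K := Rs.ne_zero h2 h2'
  set s := x⁻¹ with hs
  set Y := y / x ^ 3 with hY
  have hs0 : s ≠ 0 := inv_ne_zero hx
  have hxs : x = s⁻¹ := by rw [hs, inv_inv]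
  have hyY : y = Y * x ^ 3 := by
    rw [hY, div_mul_cancel₀ _ (pow_ne_zero 3 hx)]
  have h3 : (Y - 1) * (Y + 1) = s ^ 3 * (algebraMap ℂ K a + s ^ 3) := by
    have h6 := (swap H).eq
    rw [aeval_g6] at h6
    linear_combination h6
  have h4 : y - x ^ 3 = (algebraMap ℂ K a + s ^ 3) / (Y + 1) := by
    rw [eq_div_iff h2K, hyY, hxs]
    field_simp
    linear_combination h3
  have h2K2 : algebraMap ℂ K 2 = 2 := map_ofNat _ 2
  refine ⟨?_, ?_⟩
  · rw [h4]
    have := Rs.div ((Rs.const v a).add (hc.pow 3)) h2 h2'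
    norm_num at this
    exact this
  · have h5 : y - x ^ 3 - algebraMap ℂ K (a / 2) =
        s ^ 3 * ((2 - algebraMap ℂ K a * (algebraMap ℂ K a + s ^ 3) / (Y + 1)) / (2 * (Y + 1))) := by
      rw [h4, map_div₀, h2K2]
      have h6 : Y - 1 = s ^ 3 * (algebraMap ℂ K a + s ^ 3) / (Y + 1) := by
        rw [eq_div_iff h2K, h3]
      have h7 : s ^ 3 * ((2 - algebraMap ℂ K a * (algebraMap ℂ K a + s ^ 3) / (Y + 1)) / (2 * (Y + 1)))
          = (2 * s ^ 3 - algebraMap ℂ K a * (s ^ 3 * (algebraMap ℂ K a + s ^ 3) / (Y + 1))) /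
            (2 * (Y + 1)) := by
        ring
      rw [h7, ← h6]
      field_simp
      ring
    have h2c : Rs v (2 : K) 2 := by
      have := Rs.const v 2
      rwa [h2K2] at this
    have h6 : Rs v ((2 - algebraMap ℂ K a * (algebraMap ℂ K a + s ^ 3) / (Y + 1)) / (2 * (Y + 1)))
        ((2 - a * (a + 0 ^ 3) / (1 + 1)) / (2 * (1 + 1))) :=
      Rs.div (Rs.sub h2c (Rs.div ((Rs.const v a).mul ((Rs.const v a).add (hc.pow 3))) h2 h2'))
        (h2c.mul h2) (by norm_num)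
    have h7 : (2 - a * (a + 0 ^ 3) / (1 + 1)) / (2 * (1 + 1)) ≠ 0 := by
      intro h8
      apply ha
      have h9 : (2 - a * (a + 0 ^ 3) / (1 + 1)) = 0 := by
        rcases div_eq_zero_iff.1 h8 with h9 | h9
        · exact h9
        · norm_num at h9
      linear_combination -2 * h9
    rw [h5, ord_mul_unit (pow_ne_zero 3 hs0) h6 h7, v.ord_pow, h1]
    norm_num

/-- the order of `y - x³` at the second point at infinity -/
theorem ord_tau_pole (H : Hyp x y (g6 a) ι) {v : Point K}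
    (hc : Rs v x⁻¹ 0) (hb : Rs v (y / x ^ 3) (-1)) : v.ord (y - x ^ 3) = -3 := by
  have hx := H.x_ne
  have h1 : v.ord x⁻¹ = 1 := by
    have := ord_x (swap H) hc hb (by norm_num)
    rwa [map_zero, sub_zero] at this
  have h3 : y - x ^ 3 = x ^ 3 * (y / x ^ 3 - 1) := by
    field_simp
  have h4 : Rs v (y / x ^ 3 - 1) (-1 - 1) := Rs.sub hb (rs_one v)
  rw [h3, ord_mul_unit (pow_ne_zero 3 hx) h4 (by norm_num), v.ord_pow]
  rw [v.ord_inv] at h1
  omega

end Pool.Agent.R858.QE
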