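import Pool.Agent.R858.QE3

/-!
# The orbits of the automorphism of order three
-/

open scoped WithZero Polynomial IntermediateField
open WithZero

set_option linter.unusedVariables false
set_option linter.unusedSectionVars false

namespace Pool.Agent.R858.QE

open Pool.Agent.Helper395.CS hiding genus map_mul map_inv
open Pool.Agent.Helper395.BC
open Pool.Agent.R858.BN
open Pool.Agent.R858.QD

variable {K : Type} [Field K] [Algebra ℂ K] {x y : K} {ι : K ≃ₐ[ℂ] K} {a : ℂ}

/-- the second point at infinity -/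
theorem exists_pole (H : Hyp x y (g6 a) ι) : ∃ v : Point K, Rs v x⁻¹ 0 ∧ Rs v (y / x ^ 3) (-1) := by
  obtain ⟨v, hv⟩ := exists_point H.curve (transcendental_inv H.trans) 0
  have hv' : Rs v x⁻¹ 0 := hv
  have key : ∀ b : ℂ, Rs v (y / x ^ 3) b → b ^ 2 = 1 := by
    intro b hb
    have := value_eq (swap H) hv' hb
    rw [this, eval_g6]
    ring
  have h1 : v.val (y / x ^ 3) ≤ 1 := by
    have h2 : v.val ((y / x ^ 3) ^ 2) ≤ 1 := by
      rw [(swap H).eq]
      exact aeval_le hv'.le (g6 a)
    rw [map_pow] at h2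
    exact (pow_le_one_iff two_ne_zero).1 h2
  obtain ⟨b, hb⟩ := Rs.exists H.curve h1
  have hb2 := key b hb
  have h3 : (b - 1) * (b + 1) = 0 := by linear_combination hb2
  rcases mul_eq_zero.1 h3 with h4 | h4
  · have h5 : b = 1 := by linear_combination h4
    subst h5
    exact ⟨v.comap ι, rs_comap (swap H) hv' hb⟩
  · have h5 : b = -1 := by linear_combination h4
    subst h5
    exact ⟨v, hv', hb⟩

/-- the poles of `y - x³` -/
theorem pole_iff (H : Hyp x y (g6 a) ι) (ha : a ^ 2 ≠ 4) {v : Point K} (hv : 1 < v.val (y - x ^ 3)) :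
    Rs v x⁻¹ 0 ∧ Rs v (y / x ^ 3) (-1) := by
  rcases cases_point H v with ⟨c, b, hc0, hc, hb, hcb⟩ | ⟨b, hb1, hc, hb⟩ | ⟨b, hb1, hc, hb⟩
  · exact absurd (rs_tau hc hb).le (not_le.2 hv)
  · exact absurd (rs_tau hc hb).le (not_le.2 hv)
  · have h3 : (b - 1) * (b + 1) = 0 := by linear_combination hb1
    rcases mul_eq_zero.1 h3 with h4 | h4
    · have h5 : b = 1 := by linear_combination h4
      subst h5
      exact absurd (ord_tau_inf H ha hc hb).1.le (not_le.2 hv)
    · have h5 : b = -1 := by linear_combination h4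
      subst h5
      exact ⟨hc, hb⟩

theorem tau_ne (H : Hyp x y (g6 a) ι) : y - x ^ 3 ≠ 0 := by
  obtain ⟨v, h1, h2⟩ := exists_pole H
  intro h0
  have h3 := ord_tau_pole H h1 h2
  rw [h0, Point.ord, map_zero, log_zero] at h3
  norm_num at h3

theorem tau_transc (H : Hyp x y (g6 a) ι) : Transcendental ℂ (y - x ^ 3) := by
  obtain ⟨v, h1, h2⟩ := exists_pole H
  by_contra h
  obtain ⟨c, hc⟩ := exists_const h
  have h3 := ord_tau_pole H h1 h2
  rw [hc, v.ord_const] at h3
  norm_num at h3

/-- the function `y - x³` has degree three -/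
theorem tau_degree (H : Hyp x y (g6 a) ι) (ha : a ^ 2 ≠ 4) :
    Module.finrank ℂ⟮y - x ^ 3⟯ K = 3 := by
  obtain ⟨S, hS, hsum⟩ := zero_count_aux H.curve (transcendental_inv (tau_transc H))
  rw [adjoin_inv] at hsum
  obtain ⟨w, hw1, hw2⟩ := exists_pole H
  have hτ := tau_ne H
  have h1 : S = {w} := by
    ext v
    rw [hS, Finset.mem_singleton]
    constructor
    · intro h
      rw [map_inv₀] at h
      have h3 : v.val (y - x ^ 3) ≠ 0 := v.val_ne_zero hτ
      have h4 : 1 < v.val (y - x ^ 3) := by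
        by_contra h5
        have h6 : 1 ≤ (v.val (y - x ^ 3))⁻¹ := (one_le_inv₀ (zero_lt_iff.2 h3)).2 (not_lt.1 h5)
        exact absurd h (not_lt.2 h6)
      obtain ⟨h5, h6⟩ := pole_iff H ha h4
      exact point_eq (swap H) h5 h6 hw1 hw2
    · rintro rfl
      rw [Point.val_lt_one_iff v (inv_ne_zero hτ), v.ord_inv, ord_tau_pole H hw1 hw2]
      norm_num
  rw [h1, Finset.sum_singleton, w.ord_inv, ord_tau_pole H hw1 hw2] at hsum
  have h2 : (Module.finrank ℂ⟮y - x ^ 3⟯ K : ℤ) = 3 := by
    rw [← hsum]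
    norm_num
  exact_mod_cast h2

theorem sum_le_three (H : Hyp x y (g6 a) ι) (ha : a ^ 2 ≠ 4) (c : ℂ)
    (T : Finset (Point K)) (hT : ∀ v ∈ T, Rs v (y - x ^ 3) c) :
    ∑ v ∈ T, v.ord (y - x ^ 3 - algebraMap ℂ K c) ≤ 3 := by
  classical
  have hxc := transc_sub (tau_transc H) c
  have hx0 : y - x ^ 3 - algebraMap ℂ K c ≠ 0 := ne_zero_of_transcendental hxc
  obtain ⟨S, hS, hsum⟩ := zero_count_aux H.curve hxc
  have h1 : (Module.finrank ℂ⟮y - x ^ 3 - algebraMap ℂ K c⟯ K : ℤ) = 3 := by
    rw [adjoin_sub]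
    exact_mod_cast tau_degree H ha
  rw [h1] at hsum
  rw [← hsum]
  refine Finset.sum_le_sum_of_subset_of_nonneg (fun v hv => (hS v).2 (hT v hv)) fun v hv _ => ?_
  exact ((Point.val_lt_one_iff v hx0).1 ((hS v).1 hv)).le

/-- the divisor of `y - x³ - t`, if the orbit of `P` is the fibre above `t` -/
theorem triple_aux (H : Hyp x y (g6 a) ι) (ha : a ^ 2 ≠ 4) (m : Point K → ℤ) (O : Finset (Point K))
    (hm0 : ∀ R, R ∉ O → m R = 0) (t : ℂ) (hO : ∀ R ∈ O, Rs R (y - x ^ 3) t)
    (hm : ∀ R ∈ O, m R = R.ord (y - x ^ 3 - algebraMap ℂ K t)) (hsum : ∑ R ∈ O, m R = 3) :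
    ∀ R : Point K, R.ord (y - x ^ 3 - algebraMap ℂ K t) = m R - max (-R.ord (y - x ^ 3)) 0 := by
  classical
  intro R
  have hτ := tau_ne H
  have hxc := transc_sub (tau_transc H) t
  have hx0 : y - x ^ 3 - algebraMap ℂ K t ≠ 0 := ne_zero_of_transcendental hxc
  rcases le_or_gt (R.val (y - x ^ 3)) 1 with hR | hR
  · have h2 : max (-R.ord (y - x ^ 3)) 0 = 0 := by
      have := (R.val_le_one_iff hτ).1 hR
      omega
    rw [h2, sub_zero]
    by_cases hRO : R ∈ O
    · rw [hm R hRO]
    rw [hm0 R hRO]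
    obtain ⟨c, hc⟩ := Rs.exists H.curve hR
    rcases eq_or_ne c t with rfl | hct
    · exfalso
      have h3 := sum_le_three H ha c (insert R O) (by
        intro w hw
        rw [Finset.mem_insert] at hw
        rcases hw with rfl | hw
        · exact hc
        · exact hO w hw)
      rw [Finset.sum_insert hRO, ← Finset.sum_congr rfl hm, hsum] at h3
      have h4 : 1 ≤ R.ord (y - x ^ 3 - algebraMap ℂ K c) := (Point.val_lt_one_iff R hx0).1 hc
      omega
    · have h3 : Rs R (y - x ^ 3 - algebraMap ℂ K t) (c - t) := Rs.sub hc (Rs.const R t)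
      exact (R.val_eq_one_iff hx0).1 (Rs.val_one h3 (sub_ne_zero.2 hct))
  · have hRO : R ∉ O := fun h => absurd (hO R h).le (not_le.2 hR)
    have h2 : R.val (y - x ^ 3 - algebraMap ℂ K t) = R.val (y - x ^ 3) := by
      rw [sub_eq_add_neg (y - x ^ 3)]
      apply Valuation.map_add_eq_of_lt_left
      rw [Valuation.map_neg]
      exact (R.const_le t).trans_lt hR
    have h3 : R.ord (y - x ^ 3 - algebraMap ℂ K t) = R.ord (y - x ^ 3) := by
      unfold Point.ord
      rw [h2]
    have h6 := (R.one_lt_val_iff hτ).1 hR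
    rw [h3, hm0 R hRO]
    omega

variable {ρ : K ≃ₐ[ℂ] K} {ζ : ℂ}

theorem rho_x (hρ : ρ x = algebraMap ℂ K ζ * x) {v : Point K} {c : ℂ} (h : Rs v x c) :
    Rs (v.comap ρ) x (ζ * c) := by
  change v.val (ρ (x - algebraMap ℂ K (ζ * c))) < 1
  rw [map_sub, hρ, AlgEquiv.commutes]
  exact (Rs.const v ζ).mul h

theorem rho_y (hρ : ρ y = y) {v : Point K} {b : ℂ} (h : Rs v y b) : Rs (v.comap ρ) y b := by
  change v.val (ρ (y - algebraMap ℂ K b)) < 1
  rw [map_sub, hρ, AlgEquiv.commutes]
  exact h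

theorem rho_xinv (hρ : ρ x = algebraMap ℂ K ζ * x) {v : Point K} (h : Rs v x⁻¹ 0) :
    Rs (v.comap ρ) x⁻¹ 0 := by
  change v.val (ρ (x⁻¹ - algebraMap ℂ K 0)) < 1
  have h1 : ρ (x⁻¹ - algebraMap ℂ K 0) = algebraMap ℂ K ζ⁻¹ * x⁻¹ := by
    rw [map_zero, sub_zero, map_inv₀, hρ, mul_inv, map_inv₀]
  rw [h1]
  have := (Rs.const v ζ⁻¹).mul h
  rw [mul_zero] at this
  have h2 := this.lt_iff.2 rfl
  exact h2

theorem rho_Y (hρx : ρ x = algebraMap ℂ K ζ * x) (hρy : ρ y = y) (hζ : ζ ^ 3 = 1) {v : Point K}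
    {b : ℂ} (h : Rs v (y / x ^ 3) b) : Rs (v.comap ρ) (y / x ^ 3) b := by
  change v.val (ρ (y / x ^ 3 - algebraMap ℂ K b)) < 1
  have h1 : ρ (y / x ^ 3 - algebraMap ℂ K b) = y / x ^ 3 - algebraMap ℂ K b := by
    rw [map_sub, map_div₀, map_pow, hρx, hρy, mul_pow, ← map_pow, hζ, map_one, one_mul,
      AlgEquiv.commutes]
  rw [h1]
  exact h

theorem rho_tau (hρx : ρ x = algebraMap ℂ K ζ * x) (hρy : ρ y = y) (hζ : ζ ^ 3 = 1) {v : Point K}
    {b : ℂ} (h : Rs v (y - x ^ 3) b) : Rs (v.comap ρ) (y - x ^ 3) b := by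
  change v.val (ρ (y - x ^ 3 - algebraMap ℂ K b)) < 1
  have h1 : ρ (y - x ^ 3 - algebraMap ℂ K b) = y - x ^ 3 - algebraMap ℂ K b := by
    rw [map_sub, map_sub, map_pow, hρx, hρy, mul_pow, ← map_pow, hζ, map_one, one_mul,
      AlgEquiv.commutes]
  rw [h1]
  exact h

open Classical in
/-- the divisor of an orbit -/
theorem exists_triple (H : Hyp x y (g6 a) ι) (ha : a ^ 2 ≠ 4) (hζ : ζ ^ 3 = 1) (hζ1 : ζ ≠ 1)
    (hρx : ρ x = algebraMap ℂ K ζ * x) (hρy : ρ y = y) (P : Point K) :
    ∃ g : K, g ≠ 0 ∧ ∀ R : Point K, R.ord g =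
      (if P = R then 1 else 0) + (if P.comap ρ = R then 1 else 0) +
      (if (P.comap ρ).comap ρ = R then 1 else 0) - max (-R.ord (y - x ^ 3)) 0 := by
  have hτ := tau_ne H
  have hg0 : ∀ t : ℂ, y - x ^ 3 - algebraMap ℂ K t ≠ 0 := fun t =>
    ne_zero_of_transcendental (transc_sub (tau_transc H) t)
  have hζ0 : ζ ≠ 0 := by
    rintro rfl
    norm_num at hζ
  -- fixed points
  have key : ∀ t : ℂ, Rs P (y - x ^ 3) t → P.comap ρ = P →
      P.ord (y - x ^ 3 - algebraMap ℂ K t) = 3 → ∃ g : K, g ≠ 0 ∧ ∀ R : Point K, R.ord g =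
      (if P = R then 1 else 0) + (if P.comap ρ = R then 1 else 0) +
      (if (P.comap ρ).comap ρ = R then 1 else 0) - max (-R.ord (y - x ^ 3)) 0 := by
    intro t ht hfix hord
    refine ⟨y - x ^ 3 - algebraMap ℂ K t, hg0 t, ?_⟩
    rw [hfix, hfix]
    have := triple_aux H ha (fun R => (if P = R then 1 else 0) + (if P = R then 1 else 0) +
      (if P = R then 1 else 0)) {P} (by
        intro R hR
        rw [Finset.mem_singleton] at hR
        have hR' : ¬ P = R := fun h => hR h.symm
        simp [hR']) t (by simpa using ht) (by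
        intro R hR
        rw [Finset.mem_singleton] at hR
        subst hR
        rw [hord]
        simp) (by
        rw [Finset.sum_singleton]
        simp)
    exact this
  rcases cases_point H P with ⟨c, b, hc0, hc, hb, hcb⟩ | ⟨b, hb1, hc, hb⟩ | ⟨b, hb1, hc, hb⟩
  · have hc1 := rho_x hρx hc
    have hc2 := rho_x hρx hc1
    have n1 : P ≠ P.comap ρ := by
      intro h
      rw [← h] at hc1
      have h1 := hc.unique hc1
      apply hζ1
      have h2 : (ζ - 1) * c = 0 := by linear_combination -h1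
      exact sub_eq_zero.1 ((mul_eq_zero.1 h2).resolve_right hc0)
    have n2 : P.comap ρ ≠ (P.comap ρ).comap ρ := by
      intro h
      rw [← h] at hc2
      have h1 := hc1.unique hc2
      apply hζ1
      have h2 : (ζ - 1) * (ζ * c) = 0 := by linear_combination -h1
      exact sub_eq_zero.1 ((mul_eq_zero.1 h2).resolve_right (mul_ne_zero hζ0 hc0))
    have n3 : P ≠ (P.comap ρ).comap ρ := by
      intro h
      rw [← h] at hc2
      have h1 := hc.unique hc2
      apply hζ1
      have h2 : (ζ ^ 2 - 1) * c = 0 := by linear_combination -h1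
      have h3 := (mul_eq_zero.1 h2).resolve_right hc0
      have h4 : ζ * (ζ ^ 2 - 1) = 0 := by rw [h3, mul_zero]
      linear_combination hζ - h4
    have ht := rs_tau hc hb
    have ht1 := rho_tau hρx hρy hζ ht
    have ht2 := rho_tau hρx hρy hζ ht1
    set t := b - c ^ 3
    have hle := sum_le_three H ha t {P, P.comap ρ, (P.comap ρ).comap ρ} (by
      intro w hw
      rw [Finset.mem_insert, Finset.mem_insert, Finset.mem_singleton] at hw
      rcases hw with rfl | rfl | rfl
      · exact ht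
      · exact ht1
      · exact ht2)
    rw [Finset.sum_insert (by simp [n1, n3]), Finset.sum_pair n2] at hle
    have o1 : 1 ≤ P.ord (y - x ^ 3 - algebraMap ℂ K t) := (Point.val_lt_one_iff P (hg0 t)).1 ht
    have o2 : 1 ≤ (P.comap ρ).ord (y - x ^ 3 - algebraMap ℂ K t) :=
      (Point.val_lt_one_iff _ (hg0 t)).1 ht1
    have o3 : 1 ≤ ((P.comap ρ).comap ρ).ord (y - x ^ 3 - algebraMap ℂ K t) :=
      (Point.val_lt_one_iff _ (hg0 t)).1 ht2
    refine ⟨y - x ^ 3 - algebraMap ℂ K t, hg0 t, ?_⟩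
    have := triple_aux H ha (fun R => (if P = R then 1 else 0) + (if P.comap ρ = R then 1 else 0) +
      (if (P.comap ρ).comap ρ = R then 1 else 0)) {P, P.comap ρ, (P.comap ρ).comap ρ} (by
        intro R hR
        rw [Finset.mem_insert, Finset.mem_insert, Finset.mem_singleton, not_or, not_or] at hR
        have h1 : ¬ P = R := fun h => hR.1 h.symm
        have h2 : ¬ P.comap ρ = R := fun h => hR.2.1 h.symm
        have h3 : ¬ (P.comap ρ).comap ρ = R := fun h => hR.2.2 h.symm
        simp [h1, h2, h3]) t (by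
        intro w hw
        rw [Finset.mem_insert, Finset.mem_insert, Finset.mem_singleton] at hw
        rcases hw with rfl | rfl | rfl
        · exact ht
        · exact ht1
        · exact ht2) (by
        intro w hw
        rw [Finset.mem_insert, Finset.mem_insert, Finset.mem_singleton] at hw
        have n1' := n1.symm
        have n2' := n2.symm
        have n3' := n3.symm
        rcases hw with rfl | rfl | rfl
        · simp only [if_true, if_neg n1', if_neg n3']
          omega
        · simp only [if_true, if_neg n1, if_neg n2']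
          omega
        · simp only [if_true, if_neg n2, if_neg n3]
          omega) (by
        rw [Finset.sum_insert (by simp [n1, n3]), Finset.sum_pair n2]
        simp only [if_true, if_neg n1, if_neg n2, if_neg n3, if_neg n1.symm, if_neg n2.symm,
          if_neg n3.symm]
        norm_num)
    exact this
  · have h1 : P.comap ρ = P := by
      have := rho_x hρx hc
      rw [mul_zero] at this
      exact point_eq H this (rho_y hρy hb) hc hb
    have h2 := rs_tau hc hb
    rw [zero_pow three_ne_zero, sub_zero] at h2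
    exact key b h2 h1 (ord_tau_zero H ha hb1 hc hb)
  · have h1 : P.comap ρ = P :=
      point_eq (swap H) (rho_xinv hρx hc) (rho_Y hρx hρy hζ hb) hc hb
    have h3 : (b - 1) * (b + 1) = 0 := by linear_combination hb1
    rcases mul_eq_zero.1 h3 with h4 | h4
    · have h5 : b = 1 := by linear_combination h4
      subst h5
      obtain ⟨h6, h7⟩ := ord_tau_inf H ha hc hb
      exact key _ h6 h1 h7
    · have h5 : b = -1 := by linear_combination h4
      subst h5
      refine ⟨1, one_ne_zero, fun R => ?_⟩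
      rw [h1, h1, R.ord_one]
      by_cases hPR : P = R
      · subst hPR
        rw [if_pos rfl, ord_tau_pole H hc hb]
        norm_num
      · rw [if_neg hPR]
        have h6 : R.val (y - x ^ 3) ≤ 1 := by
          by_contra h7
          obtain ⟨h8, h9⟩ := pole_iff H ha (not_le.1 h7)
          exact hPR (point_eq (swap H) hc hb h8 h9)
        have := (R.val_le_one_iff hτ).1 h6
        omega

end Pool.Agent.R858.QE
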