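import Pool.Agent.R858.QE2
import Pool.Agent.R858.QE4

/-!
# Sums of points on a curve of genus one, sums over the orbits
-/

open scoped WithZero Polynomial IntermediateField
open WithZero

set_option linter.unusedVariables false
set_option linter.unusedSectionVars false

namespace Pool.Agent.R858.QE

open Pool.Agent.Helper395.CS hiding genus map_mul map_inv
open Pool.Agent.Helper395.BC
open Pool.Agent.R858.BN
open Pool.Agent.R858.QD

variable {F K : Type} [Field F] [Algebra ℂ F] [Field K] [Algebra ℂ K]

open Classical in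
theorem ord_lpt (P p : Point F) : p.ord ((lpt P).frame p : F) = -(if P = p then 1 else 0) := by
  by_cases h : p = P
  · subst h
    rw [lpt_frame_self, p.ord_inv, ord_unif, if_pos rfl]
  · rw [lpt_frame_ne h, Units.val_one, p.ord_one, if_neg fun h' => h h'.symm, neg_zero]

open Classical in
/-- the sum of two points -/
theorem exists_add (hF : IsCurve F) (hg : genus F = 1) (P Q e : Point F) :
    ∃ (R : Point F) (c : F), c ≠ 0 ∧ ∀ p : Point F, p.ord c =
      (if P = p then 1 else 0) + (if Q = p then 1 else 0) - (if R = p then 1 else 0)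
        - (if e = p then 1 else 0) := by
  set L := lmul (lmul (lpt P) (lpt Q)) (linv (lpt e)) with hL
  have hdeg : L.degree = 1 := by
    rw [hL, lmul_degree, lmul_degree, linv_degree, lpt_degree, lpt_degree, lpt_degree]
    norm_num
  have h1 := Pool.Agent.R858.SMR.h0_of_large hF (by rw [hg]; norm_num) L (by
    rw [hg, hdeg]
    norm_num)
  rw [hg, hdeg] at h1
  have h2 : 0 < Module.finrank ℂ (H0 L) := by
    push_cast at h1
    omega
  have := Module.nontrivial_of_finrank_pos h2
  obtain ⟨⟨c, hc⟩, hc0⟩ := exists_ne (0 : H0 L)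
  have hc0' : c ≠ 0 := fun h => hc0 (Subtype.ext h)
  have hfr : ∀ p : Point F, p.ord (L.frame p : F) =
      -(if P = p then 1 else 0) - (if Q = p then 1 else 0) + (if e = p then 1 else 0) := by
    intro p
    have e1 : (L.frame p : F) = ((lpt P).frame p : F) * ((lpt Q).frame p : F) *
        ((lpt e).frame p : F)⁻¹ := by
      rw [hL]
      change ((((lpt P).frame p * (lpt Q).frame p) * ((lpt e).frame p)⁻¹ : Fˣ) : F) = _
      rw [Units.val_mul, Units.val_mul, Units.val_inv_eq_inv_val]
    rw [e1, p.ord_mul (mul_ne_zero (Units.ne_zero _) (Units.ne_zero _))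
      (inv_ne_zero (Units.ne_zero _)), p.ord_mul (Units.ne_zero _) (Units.ne_zero _), p.ord_inv,
      ord_lpt, ord_lpt, ord_lpt]
    ring
  let D : Point F → ℤ := fun p => p.ord c + ((if P = p then 1 else 0) + (if Q = p then 1 else 0)
    - (if e = p then 1 else 0))
  have hD : ∀ p, 0 ≤ D p := by
    intro p
    have h3 : p.val c ≤ p.val (L.frame p : F) := hc p
    rw [p.val_le_val_iff hc0' (Units.ne_zero _), hfr] at h3
    simp only [D]
    omega
  have hind : ∀ P : Point F, ∑ᶠ p : Point F, (if P = p then (1 : ℤ) else 0) = 1 := by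
    intro P
    rw [finsum_eq_single _ P]
    · rw [if_pos rfl]
    · intro q hq
      rw [if_neg fun h => hq h.symm]
  have hindf : ∀ P : Point F, (Function.support fun p : Point F => if P = p then (1 : ℤ) else 0).Finite := by
    intro P
    refine (Set.finite_singleton P).subset fun p hp => ?_
    by_contra h
    exact hp (if_neg fun h' => h h'.symm)
  have hcf : (Function.support fun p : Point F => p.ord c).Finite := finite_ord hF c
  have hsum : ∑ᶠ p, D p = 1 := by
    simp only [D]
    rw [finsum_add_distrib hcf, finsum_sub_distrib, finsum_add_distrib (hindf P) (hindf Q),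
      hind, hind, hind, sum_ord hF]
    · norm_num
    · exact ((hindf P).union (hindf Q)).subset (Function.support_add _ _)
    · exact hindf e
    · refine (((hindf P).union (hindf Q)).union (hindf e)).subset ?_
      refine (Function.support_sub _ _).trans ?_
      exact Set.union_subset_union_left _ (Function.support_add _ _)
  have hDf : (Function.support D).Finite := by
    by_contra h
    rw [finsum_of_infinite_support h] at hsum
    norm_num at hsum
  obtain ⟨R, hR⟩ : ∃ R, D R ≠ 0 := by
    by_contra h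
    push Not at h
    rw [finsum_eq_zero_of_forall_eq_zero h] at hsum
    norm_num at hsum
  rw [finsum_eq_sum_of_support_subset D (s := hDf.toFinset) (by simp)] at hsum
  have hRm : R ∈ hDf.toFinset := by simpa using hR
  have hR1 : D R = 1 ∧ ∀ p, p ≠ R → D p = 0 := by
    have h4 := hD R
    rw [← Finset.add_sum_erase _ _ hRm] at hsum
    have h5 : 0 ≤ ∑ p ∈ hDf.toFinset.erase R, D p := Finset.sum_nonneg fun p _ => hD p
    have h6 : ∑ p ∈ hDf.toFinset.erase R, D p = 0 := by omega
    refine ⟨by omega, fun p hp => ?_⟩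
    by_contra h7
    have h8 := (Finset.sum_eq_zero_iff_of_nonneg fun p _ => hD p).1 h6 p
      (Finset.mem_erase.2 ⟨hp, by simpa using h7⟩)
    exact h7 h8
  refine ⟨R, c⁻¹, inv_ne_zero hc0', fun p => ?_⟩
  rw [p.ord_inv]
  have h9 : D p = if R = p then 1 else 0 := by
    by_cases hp : p = R
    · subst hp
      rw [if_pos rfl]
      exact hR1.1
    · rw [if_neg fun h => hp h.symm]
      exact hR1.2 p hp
  simp only [D] at h9
  omega

open Classical in
/-- the sum of several points -/
theorem exists_sum (hF : IsCurve F) (hg : genus F = 1) (e : Point F) (Q : ℕ → Point F) (n : ℕ) :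
    ∃ (s : Point F) (c : F), c ≠ 0 ∧ ∀ p : Point F, p.ord c =
      (∑ i ∈ Finset.range (n + 1), if Q i = p then 1 else 0) - (if s = p then 1 else 0)
        - n * (if e = p then 1 else 0) := by
  induction n with
  | zero =>
    refine ⟨Q 0, 1, one_ne_zero, fun p => ?_⟩
    rw [p.ord_one, zero_add, Finset.sum_range_one]
    simp
  | succ n ih =>
    obtain ⟨s, c, hc, h⟩ := ih
    obtain ⟨s', c', hc', h'⟩ := exists_add hF hg s (Q (n + 1)) e
    refine ⟨s', c * c', mul_ne_zero hc hc', fun p => ?_⟩
    rw [p.ord_mul hc hc', h, h', Finset.sum_range_succ _ (n + 1)]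
    push_cast
    ring

open Classical in
/-- the sum of the images of an orbit is constant -/
theorem exists_orbit {x y : K} {ι : K ≃ₐ[ℂ] K} {a ζ : ℂ} {ρ : K ≃ₐ[ℂ] K} (hF : IsCurve F)
    (H : Hyp x y (g6 a) ι) (ha : a ^ 2 ≠ 4) (hζ : ζ ^ 3 = 1) (hζ1 : ζ ≠ 1)
    (hρx : ρ x = algebraMap ℂ K ζ * x) (hρy : ρ y = y) (ψ : F →ₐ[ℂ] K) (p0 : Point K → Point F)
    (hp0 : ∀ v, LiesOver ψ v (p0 v)) (v w : Point K) :
    ∃ c : F, c ≠ 0 ∧ ∀ p : Point F, p.ord c =
      ((if p0 v = p then 1 else 0) + (if p0 (v.comap ρ) = p then 1 else 0) +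
        (if p0 ((v.comap ρ).comap ρ) = p then 1 else 0)) -
      ((if p0 w = p then 1 else 0) + (if p0 (w.comap ρ) = p then 1 else 0) +
        (if p0 ((w.comap ρ).comap ρ) = p then 1 else 0)) := by
  obtain ⟨g, hg, hgv⟩ := exists_triple H ha hζ hζ1 hρx hρy v
  obtain ⟨g', hg', hgw⟩ := exists_triple H ha hζ hζ1 hρx hρy w
  obtain ⟨n, N, hn, hN0, -, hN⟩ := push hF H.curve ψ
  refine ⟨N (g * g'⁻¹), hN0 _ (mul_ne_zero hg (inv_ne_zero hg')), fun p => ?_⟩
  obtain ⟨T, hT, hTs⟩ := hN p
  rw [hTs _ (mul_ne_zero hg (inv_ne_zero hg'))]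
  have hT' : ∀ v, v ∈ T ↔ p0 v = p := by
    intro v
    rw [hT]
    constructor
    · intro h
      exact (hp0 v).unique h
    · rintro rfl
      exact hp0 v
  have hs : ∀ P : Point K, ∑ R ∈ T, (if P = R then (1 : ℤ) else 0) = if p0 P = p then 1 else 0 := by
    intro P
    rw [Finset.sum_ite_eq]
    simp only [hT']
  have h1 : ∀ R ∈ T, R.ord (g * g'⁻¹) =
      ((if v = R then 1 else 0) + (if v.comap ρ = R then 1 else 0) +
        (if (v.comap ρ).comap ρ = R then 1 else 0)) -
      ((if w = R then 1 else 0) + (if w.comap ρ = R then 1 else 0) +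
        (if (w.comap ρ).comap ρ = R then 1 else 0)) := by
    intro R _
    rw [R.ord_mul hg (inv_ne_zero hg'), R.ord_inv, hgv, hgw]
    ring
  rw [Finset.sum_congr rfl h1]
  simp only [Finset.sum_sub_distrib, Finset.sum_add_distrib, hs]

end Pool.Agent.R858.QE
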