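import Pool.Agent.R858.QE5

/-!
# Further lemmas for the restricted quasi-diagonals in odd powers
-/

open scoped WithZero Polynomial IntermediateField
open WithZero

set_option linter.unusedVariables false
set_option linter.unusedSectionVars false

namespace Pool.Agent.R858.QE

open Pool.Agent.Helper395.CS hiding genus map_mul map_inv
open Pool.Agent.Helper395.BC
open Pool.Agent.R858.BN
open Pool.Agent.R858.QD

/-- `A, B, C, A, D, A, D, …` -/
def seq {α : Type} (A B C D : α) : ℕ → α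
  | 0 => A
  | 1 => B
  | 2 => C
  | (k + 3) => if k % 2 = 0 then A else D

theorem seq_rel {α β : Type} (R : α → β → Prop) {A B C D : α} {A' B' C' D' : β} (hA : R A A')
    (hB : R B B') (hC : R C C') (hD : R D D') (k : ℕ) : R (seq A B C D k) (seq A' B' C' D' k) := by
  match k with
  | 0 => exact hA
  | 1 => exact hB
  | 2 => exact hC
  | (k + 3) =>
    simp only [seq]
    split_ifs
    · exact hA
    · exact hD

theorem seq_sum {α : Type} (A B C D : α) (f : α → ℤ) (j : ℕ) :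
    ∑ i ∈ Finset.range (3 + 2 * j), f (seq A B C D i) = (f A + f B + f C) + j * (f A + f D) := by
  induction j with
  | zero =>
    rw [Finset.sum_range_succ, Finset.sum_range_succ, Finset.sum_range_one]
    simp [seq]
  | succ j ih =>
    have h1 : 3 + 2 * (j + 1) = (3 + 2 * j) + 1 + 1 := by ring
    have h2 : seq A B C D (3 + 2 * j) = A := by
      rw [add_comm]
      simp [seq]
    have h3 : seq A B C D (3 + 2 * j + 1) = D := by
      have : 3 + 2 * j + 1 = (2 * j + 1) + 3 := by ring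
      rw [this]
      simp [seq, Nat.add_mod]
    rw [h1, Finset.sum_range_succ, Finset.sum_range_succ, ih, h2, h3]
    push_cast
    ring

variable {F K : Type} [Field F] [Algebra ℂ F] [Field K] [Algebra ℂ K] {x y : K}

theorem U_rel (hx : x ≠ 0) {ω ω' : ℂ} (h : ω ^ 3 = 1) (h' : ω' ^ 3 = 1) (hne : ω ≠ ω') :
    Uf x ω ^ 2 + Uf x ω * Uf x ω' + Uf x ω' ^ 2 = 3 := by
  have hE : ω ^ 2 + ω * ω' + ω' ^ 2 = 0 := by
    have h1 : (ω - ω') * (ω ^ 2 + ω * ω' + ω' ^ 2) = 0 := by linear_combination h - h'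
    exact (mul_eq_zero.1 h1).resolve_left (sub_ne_zero.2 hne)
  let m := algebraMap ℂ K
  have hE' : m ω ^ 2 + m ω * m ω' + m ω' ^ 2 = 0 := by
    rw [← map_pow, ← map_pow, ← map_mul, ← map_add, ← map_add, hE, map_zero]
  have h1 : m ω ^ 3 = 1 := by rw [← map_pow, h, map_one]
  have h2 : m ω' ^ 3 = 1 := by rw [← map_pow, h', map_one]
  have hxz : x * x⁻¹ = 1 := mul_inv_cancel₀ hx
  have i1 : (m ω)⁻¹ = m ω ^ 2 := by
    apply inv_eq_of_mul_eq_one_right
    linear_combination h1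
  have i2 : (m ω')⁻¹ = m ω' ^ 2 := by
    apply inv_eq_of_mul_eq_one_right
    linear_combination h2
  have u1 : Uf x ω = m ω * x + m ω ^ 2 * x⁻¹ := by
    rw [Uf, mul_inv]
    change m ω * x + (m ω)⁻¹ * x⁻¹ = _
    rw [i1]
  have u2 : Uf x ω' = m ω' * x + m ω' ^ 2 * x⁻¹ := by
    rw [Uf, mul_inv]
    change m ω' * x + (m ω')⁻¹ * x⁻¹ = _
    rw [i2]
  rw [u1, u2]
  set z := x⁻¹
  linear_combination (x ^ 2 + z ^ 2 * (m ω ^ 2 - m ω * m ω' + m ω' ^ 2) + m ω) * hE' +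
    (2 * m ω ^ 3 + 2 * m ω' ^ 3 + m ω * m ω' ^ 2 + m ω ^ 2 * m ω') * hxz + h1 + 2 * h2

theorem cube_mem (hx : Transcendental ℂ x) {ω ω' : ℂ} (h : ω ^ 3 = 1) (h' : ω' ^ 3 = 1)
    (A : Subring K) (hA : (Uf x ω)⁻¹ ∈ A) (hA' : (Uf x ω')⁻¹ ∈ A) :
    (Uf x ω / Uf x ω') ^ 3 ∈ A := by
  have hx0 := ne_zero_of_transcendental hx
  have hω : ω ≠ 0 := by
    rintro rfl
    norm_num at h
  have hω' : ω' ≠ 0 := by
    rintro rfl
    norm_num at h'
  have hU : Uf x ω ≠ 0 := ne_zero_of_transcendental (U_transc hx hω)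
  have hU' : Uf x ω' ≠ 0 := ne_zero_of_transcendental (U_transc hx hω')
  rcases eq_or_ne ω ω' with rfl | hne
  · rw [div_self hU, one_pow]
    exact one_mem A
  have hrel := U_rel hx0 h h' hne
  set U := Uf x ω
  set U' := Uf x ω'
  have h1 : (U / U') ^ 3 = 1 + 9 * (U⁻¹ * U'⁻¹ ^ 3) - 6 * U'⁻¹ ^ 2 - 3 * (U⁻¹ * U'⁻¹) := by
    field_simp
    linear_combination (U ^ 2 - U * U' + 3) * hrel
  have hn : ∀ k : ℕ, (k : K) ∈ A := fun k => natCast_mem A k
  have h9 : (9 : K) ∈ A := by exact_mod_cast hn 9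
  have h6 : (6 : K) ∈ A := by exact_mod_cast hn 6
  have h3 : (3 : K) ∈ A := by exact_mod_cast hn 3
  rw [h1]
  exact sub_mem (sub_mem (add_mem (one_mem A) (mul_mem h9 (mul_mem hA (pow_mem hA' 3))))
    (mul_mem h6 (pow_mem hA' 2))) (mul_mem h3 (mul_mem hA hA'))

/-- the function field is generated by the coordinates -/
theorem gen_top {M : IntermediateField ℂ K} (hx : Transcendental ℂ x)
    (hxy : IntermediateField.adjoin ℂ {x, y} = ⊤) {ζ : ℂ} (hζ : ζ ^ 3 = 1) (hζ1 : ζ ≠ 1)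
    (h1 : Uf x 1 ∈ M) (h2 : Uf x ζ ∈ M) (h3 : Vf x y 1 ∈ M) : M = ⊤ := by
  have hx0 := ne_zero_of_transcendental hx
  let m := algebraMap ℂ K
  have hζ0 : ζ ≠ 0 := by
    rintro rfl
    norm_num at hζ
  have hd : ζ ^ 2 - ζ ≠ 0 := by
    intro h
    have h4 : ζ * (ζ - 1) = 0 := by linear_combination h
    rcases mul_eq_zero.1 h4 with h5 | h5
    · exact hζ0 h5
    · exact hζ1 (sub_eq_zero.1 h5)
  have hdm : m (ζ ^ 2 - ζ) ≠ 0 := (map_ne_zero m).2 hd
  have hmζ : m ζ ^ 3 = 1 := by rw [← map_pow, hζ, map_one]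
  have i1 : (m ζ)⁻¹ = m ζ ^ 2 := by
    apply inv_eq_of_mul_eq_one_right
    linear_combination hmζ
  have u2 : Uf x ζ = m ζ * x + m ζ ^ 2 * x⁻¹ := by
    rw [Uf, mul_inv]
    change m ζ * x + (m ζ)⁻¹ * x⁻¹ = _
    rw [i1]
  have u1 : Uf x 1 = x + x⁻¹ := by
    rw [Uf, map_one, one_mul]
  have hxM : x ∈ M := by
    have h4 : x = (m ζ ^ 2 * Uf x 1 - Uf x ζ) / m (ζ ^ 2 - ζ) := by
      rw [eq_div_iff hdm, u1, u2, map_sub, map_pow]
      ring
    rw [h4]
    exact div_mem (sub_mem (mul_mem (pow_mem (algebraMap_mem M _) 2) h1) h2) (algebraMap_mem M _)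
  have hx1 : 1 + x ≠ 0 := by
    intro h
    apply hx
    have : x = algebraMap ℂ K (-1) := by
      rw [map_neg, map_one]
      linear_combination h
    rw [this]
    exact isAlgebraic_algebraMap _
  have hyM : y ∈ M := by
    have h4 : y = Vf x y 1 * x ^ 2 / (1 + x) := by
      rw [Vf, map_one, one_mul]
      field_simp
    rw [h4]
    exact div_mem (mul_mem h3 (pow_mem hxM 2)) (add_mem (one_mem M) hxM)
  rw [eq_top_iff, ← hxy, IntermediateField.adjoin_le_iff]
  rintro z (rfl | rfl)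
  · exact hxM
  · exact hyM

end Pool.Agent.R858.QE
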